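import Pool.Agent.Helper18.HGProd

/-! # Random levels for the vertices of a set system (Chernoff bounds and the local lemma) -/

open Finset

namespace Pool.Agent.Helper94.HG

open Pool.Agent.Helper18.BG (avR avR_sum avR_mul_left avR_add avR_mono avR_nonneg avR_const)
open Pool.Agent.Helper18.HG

section prob

variable {V : Type*} [Fintype V] [DecidableEq V] {Q : ℕ} [NeZero Q]

lemma avR_coord (x : V) (g : Fin Q → ℝ) :
    avR (fun ω : V → Fin Q => g (ω x)) = (∑ q, g q) / Q := by
  have hne : Nonempty (V → Fin Q) := ⟨fun _ => 0⟩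
  rw [avR_update x]
  have h : (fun ω : V → Fin Q => (∑ q : Fin Q, g (Function.update ω x q x)) / (Q : ℝ)) =
      fun _ => (∑ q, g q) / Q := by
    funext ω
    simp
  rw [h, avR_const]

lemma avR_prod_coord (S : Finset V) (g : Fin Q → ℝ) :
    avR (fun ω : V → Fin Q => ∏ x ∈ S, g (ω x)) = ((∑ q, g q) / Q) ^ #S := by
  rw [avR_prod_of_dep S (fun x => {x}) (fun i _ j _ hij => by simpa using hij)
    (fun x ω => g (ω x)) (fun i _ ω ω' h => by simp only; rw [h i rfl])]
  simp only [avR_coord, Finset.prod_const]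

/-- exponential moment of the number of successes -/
lemma avR_pow_card (S : Finset V) (P : Fin Q → Prop) [DecidablePred P] (a : ℝ) :
    avR (fun ω : V → Fin Q => a ^ #(S.filter fun x => P (ω x))) =
      (1 + (a - 1) * ((#(univ.filter P) : ℝ) / Q)) ^ #S := by
  have hQ : (0 : ℝ) < Q := by exact_mod_cast Nat.pos_of_ne_zero (NeZero.ne Q)
  have h1 : (fun ω : V → Fin Q => a ^ #(S.filter fun x => P (ω x))) =
      fun ω => ∏ x ∈ S, (fun q => if P q then a else 1) (ω x) := by
    funext ω
    rw [Finset.prod_ite, Finset.prod_const, Finset.prod_const_one, mul_one]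
  rw [h1, avR_prod_coord S (fun q => if P q then a else 1)]
  congr 1
  rw [Finset.sum_ite, Finset.sum_const, Finset.sum_const, nsmul_eq_mul, nsmul_eq_mul, mul_one]
  have h2 : (#(univ.filter P) : ℝ) + #(univ.filter fun q => ¬ P q) = Q := by
    have := Finset.card_filter_add_card_filter_not (s := (univ : Finset (Fin Q))) P
    rw [Finset.card_univ, Fintype.card_fin] at this
    exact_mod_cast this
  have h3 : (#(univ.filter fun q => ¬ P q) : ℝ) = Q - #(univ.filter P) := by linarith
  rw [h3]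
  field_simp
  ring

/-- Markov's inequality for exponential moments -/
lemma avR_ind_le {E : Set (V → Fin Q)} {S : Finset V} {P : Fin Q → Prop} [DecidablePred P]
    {a c b : ℝ} (ha : 0 < a) (hE : ∀ ω ∈ E, c ≤ Real.log a * #(S.filter fun x => P (ω x)))
    (hb : (a - 1) * ((#(univ.filter P) : ℝ) / Q) * #S ≤ b)
    (ha1 : 0 ≤ 1 + (a - 1) * ((#(univ.filter P) : ℝ) / Q)) :
    avR (ind E) ≤ Real.exp (b - c) := by
  have h1 : ∀ ω, ind E ω ≤ Real.exp (-c) * a ^ #(S.filter fun x => P (ω x)) := by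
    intro ω
    have h2 : 0 < Real.exp (-c) * a ^ #(S.filter fun x => P (ω x)) := by positivity
    unfold ind
    split_ifs with h
    · have h3 : a ^ #(S.filter fun x => P (ω x)) =
          Real.exp (Real.log a * #(S.filter fun x => P (ω x))) := by
        rw [← Real.rpow_natCast, Real.rpow_def_of_pos ha]
      rw [h3, ← Real.exp_add]
      apply Real.one_le_exp
      have := hE ω h
      linarith
    · exact h2.le
  refine (avR_mono h1).trans ?_
  have e1 : b - c = -c + b := by ring
  rw [avR_mul_left, avR_pow_card, e1, Real.exp_add]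
  refine mul_le_mul_of_nonneg_left ?_ (Real.exp_pos _).le
  calc (1 + (a - 1) * ((#(univ.filter P) : ℝ) / Q)) ^ #S
      ≤ (Real.exp ((a - 1) * ((#(univ.filter P) : ℝ) / Q))) ^ #S := by
        refine pow_le_pow_left₀ ha1 ?_ _
        rw [add_comm]
        exact Real.add_one_le_exp _
    _ = Real.exp ((a - 1) * ((#(univ.filter P) : ℝ) / Q) * #S) := by
        rw [← Real.exp_nat_mul, mul_comm]
    _ ≤ Real.exp b := Real.exp_le_exp.2 hb

end prob

section fib

/-- a function on `Fin Q` with prescribed fibre sizes -/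
lemma exists_fibres {k : ℕ} (c : Fin k → ℕ) {Q : ℕ} (hQ : ∑ i, c i = Q) :
    ∃ F : Fin Q → Fin k, ∀ j, #(univ.filter fun q => F q = j) = c j := by
  subst hQ
  refine ⟨fun q => (finSigmaFinEquiv.symm q).1, fun j => ?_⟩
  have h1 : #(univ.filter fun q : Fin (∑ i, c i) => (finSigmaFinEquiv.symm q).1 = j) =
      #(univ.filter fun p : (i : Fin k) × Fin (c i) => p.1 = j) := by
    refine Finset.card_bij (fun q _ => finSigmaFinEquiv.symm q) ?_ ?_ ?_
    · intro q hq
      simpa using hq
    · intro q _ q' _ h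
      exact finSigmaFinEquiv.symm.injective h
    · intro p hp
      refine ⟨finSigmaFinEquiv p, ?_, ?_⟩
      · simpa using hp
      · simp
  rw [h1]
  have h2 : (univ.filter fun p : (i : Fin k) × Fin (c i) => p.1 = j) =
      (univ : Finset (Fin (c j))).image (fun q => (⟨j, q⟩ : (i : Fin k) × Fin (c i))) := by
    ext ⟨i, q⟩
    simp only [mem_filter, mem_univ, true_and, mem_image, Sigma.mk.injEq]
    constructor
    · rintro rfl
      exact ⟨q, rfl, HEq.rfl⟩
    · rintro ⟨q', h, _⟩
      exact h.symm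
  rw [h2, Finset.card_image_of_injective _ (sigma_mk_injective), Finset.card_univ, Fintype.card_fin]

end fib

section main

variable {L : ℕ → ℕ}

lemma L_pos (hL1 : 4 ≤ L 1) (hL : ∀ j, 1 ≤ j → 2 * L j ≤ L (j + 1)) {j : ℕ} (hj : 1 ≤ j) :
    4 ≤ L j := by
  induction j, hj using Nat.le_induction with
  | base => exact hL1
  | succ n hn ih => have := hL n hn; omega

lemma sum_inv_le (hL1 : 4 ≤ L 1) (hL : ∀ j, 1 ≤ j → 2 * L j ≤ L (j + 1)) (J : ℕ) (k : ℕ) :
    ∀ j, 1 ≤ j → J + 1 ≤ j + k → ∑ i ∈ Icc j J, (1 : ℝ) / L i ≤ 2 / L j := by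
  induction k with
  | zero =>
    intro j hj hJ
    rw [Finset.Icc_eq_empty (by omega), Finset.sum_empty]
    positivity
  | succ k ih =>
    intro j hj hJ
    rcases lt_or_ge J j with h | h
    · rw [Finset.Icc_eq_empty (by omega), Finset.sum_empty]
      positivity
    · rw [← Finset.insert_Icc_add_one_left_eq_Icc h, Finset.sum_insert (by simp)]
      have h1 := ih (j + 1) (by omega) (by omega)
      have h2 : (2 : ℝ) * L j ≤ L (j + 1) := by exact_mod_cast hL j hj
      have h3 : (0 : ℝ) < L j := by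
        have := L_pos hL1 hL hj
        exact_mod_cast (by omega : 0 < L j)
      have h4 : (2 : ℝ) / L (j + 1) ≤ 1 / L j := by
        rw [div_le_div_iff₀ (by linarith) h3]
        linarith
      have h5 : (2 : ℝ) / L j = 1 / L j + 1 / L j := by ring
      linarith

/-- level function with prescribed probabilities -/
lemma exists_level_fun (hL1 : 4 ≤ L 1) (hL : ∀ j, 1 ≤ j → 2 * L j ≤ L (j + 1)) (J : ℕ) :
    ∃ (Q : ℕ) (F : Fin Q → ℕ), 0 < Q ∧ (∀ q, F q ≤ J) ∧
      (∀ j, 1 ≤ j → j ≤ J → (#(univ.filter fun q => F q = j) : ℝ) / Q = 1 / L j) ∧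
      (∀ j, 1 ≤ j → j ≤ J → (#(univ.filter fun q => j ≤ F q) : ℝ) / Q ≤ 2 / L j) := by
  set Q := ∏ j ∈ Icc 1 J, L j with hQdef
  have hQ : 0 < Q := Finset.prod_pos fun j hj => by
    have := L_pos hL1 hL (Finset.mem_Icc.1 hj).1
    omega
  have hQR : (0 : ℝ) < Q := by exact_mod_cast hQ
  have hdvd : ∀ j, 1 ≤ j → j ≤ J → L j ∣ Q := fun j h1 h2 =>
    Finset.dvd_prod_of_mem L (Finset.mem_Icc.2 ⟨h1, h2⟩)
  have hdiv : ∀ j, 1 ≤ j → j ≤ J → ((Q / L j : ℕ) : ℝ) = Q / L j := by
    intro j h1 h2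
    have h3 := L_pos hL1 hL h1
    rw [Nat.cast_div (hdvd j h1 h2)]
    have : 0 < L j := by omega
    positivity
  have hsumR : ∀ j, 1 ≤ j → ∑ i ∈ Icc j J, ((Q / L i : ℕ) : ℝ) ≤ Q * (2 / L j) := by
    intro j hj
    have h1 := sum_inv_le hL1 hL J (J + 1) j hj (by omega)
    calc ∑ i ∈ Icc j J, ((Q / L i : ℕ) : ℝ) = Q * ∑ i ∈ Icc j J, (1 : ℝ) / L i := by
          rw [Finset.mul_sum]
          refine Finset.sum_congr rfl fun i hi => ?_
          rw [Finset.mem_Icc] at hi
          rw [hdiv i (by omega) hi.2]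
          ring
      _ ≤ _ := mul_le_mul_of_nonneg_left h1 hQR.le
  have hsum : ∑ i ∈ Icc 1 J, Q / L i ≤ Q := by
    have h1 := hsumR 1 le_rfl
    have h2 : (2 : ℝ) / L 1 ≤ 1 := by
      have : (4 : ℝ) ≤ L 1 := by exact_mod_cast hL1
      rw [div_le_one (by linarith)]
      linarith
    have h3 : (Q : ℝ) * (2 / L 1) ≤ Q := by nlinarith
    have h4 := h1.trans h3
    exact_mod_cast h4
  -- the sizes
  let c : Fin (J + 1) → ℕ := fun j => if j = 0 then Q - ∑ i ∈ Icc 1 J, Q / L i else Q / L j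
  have hc : ∑ j, c j = Q := by
    rw [Fin.sum_univ_succ]
    have h1 : c 0 = Q - ∑ i ∈ Icc 1 J, Q / L i := if_pos rfl
    have h2 : ∀ i : Fin J, c i.succ = Q / L (i + 1) := by
      intro i
      simp only [c]
      rw [if_neg (Fin.succ_ne_zero i), Fin.val_succ]
    have h3 : ∑ i : Fin J, c i.succ = ∑ i ∈ Icc 1 J, Q / L i := by
      rw [Finset.sum_congr rfl fun i _ => h2 i, ← Finset.sum_range (fun i => Q / L (i + 1)),
        Finset.range_eq_Ico, Finset.sum_Ico_add' (fun i => Q / L i) 0 J 1, zero_add]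
      rfl
    rw [h1, h3]
    omega
  obtain ⟨F, hF⟩ := exists_fibres c hc
  have hcard : ∀ j, 1 ≤ j → j ≤ J → #(univ.filter fun q => (F q : ℕ) = j) = Q / L j := by
    intro j h1 h2
    have h3 := hF ⟨j, by omega⟩
    have h4 : (univ.filter fun q => (F q : ℕ) = j) =
        univ.filter fun q => F q = (⟨j, by omega⟩ : Fin (J + 1)) := by
      ext q
      simp [Fin.ext_iff]
    rw [h4, h3]
    simp only [c]
    rw [if_neg (by rw [Fin.ext_iff]; simp; omega)]
  refine ⟨Q, fun q => F q, hQ, fun q => Nat.lt_succ_iff.1 (F q).2, fun j h1 h2 => ?_,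
    fun j h1 h2 => ?_⟩
  · rw [hcard j h1 h2, hdiv j h1 h2, div_right_comm, div_self hQR.ne']
  · rw [div_le_iff₀ hQR]
    have h3 : (univ.filter fun q => j ≤ (F q : ℕ)) =
        (Icc j J).biUnion fun i => univ.filter fun q => (F q : ℕ) = i := by
      ext q
      simp only [mem_filter, mem_univ, true_and, mem_biUnion, mem_Icc]
      constructor
      · intro h
        exact ⟨_, ⟨h, Nat.lt_succ_iff.1 (F q).2⟩, rfl⟩
      · rintro ⟨i, ⟨h, _⟩, rfl⟩
        exact h
    have h4 : #(univ.filter fun q => j ≤ (F q : ℕ)) ≤ ∑ i ∈ Icc j J, Q / L i := by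
      rw [h3]
      refine Finset.card_biUnion_le.trans (Finset.sum_le_sum fun i hi => ?_)
      rw [Finset.mem_Icc] at hi
      rw [hcard i (by omega) hi.2]
    have h5 : (#(univ.filter fun q => j ≤ (F q : ℕ)) : ℝ) ≤ ∑ i ∈ Icc j J, ((Q / L i : ℕ) : ℝ) := by
      exact_mod_cast h4
    calc _ ≤ _ := h5
      _ ≤ Q * (2 / L j) := hsumR j h1
      _ = _ := mul_comm _ _

theorem exists_levels {V I : Type*} [Fintype V] [DecidableEq V] [Fintype I] [DecidableEq I]
    (S : I → Finset V) (t s J M : ℕ) (L : ℕ → ℕ) (ht : ∀ v, #(univ.filter fun i => v ∈ S i) ≤ t)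
    (hs : ∀ i, #(S i) ≤ s) (hL1 : 4 ≤ L 1) (hL : ∀ j, 1 ≤ j → 2 * L j ≤ L (j + 1))
    (hM : 12 * ((J : ℝ) + 1) * (s * t + 1) * Real.exp (-((M : ℝ) / 8)) ≤ 1) :
    ∃ lv : V → ℕ, (∀ x, lv x ≤ J) ∧ ∀ i j, 1 ≤ j → j ≤ J →
      (L j * M ≤ #(S i) → #(S i) ≤ 2 * (L j * #((S i).filter fun x => lv x = j)) ∧
        L j * #((S i).filter fun x => lv x = j) ≤ 2 * #(S i)) ∧
      (#(S i) < L j * M → #((S i).filter fun x => j ≤ lv x) ≤ 4 * M) := by
  classical
  obtain ⟨Q, F, hQ, hFJ, hF1, hF2⟩ := exists_level_fun hL1 hL J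
  have : NeZero Q := ⟨hQ.ne'⟩
  have hne : Nonempty (V → Fin Q) := ⟨fun _ => 0⟩
  have hQR : (0 : ℝ) < Q := by exact_mod_cast hQ
  -- bad events
  let B1 : I → ℕ → Set (V → Fin Q) := fun i j =>
    {ω | L j * M ≤ #(S i) ∧ 2 * (L j * #((S i).filter fun x => F (ω x) = j)) < #(S i)}
  let B2 : I → ℕ → Set (V → Fin Q) := fun i j =>
    {ω | L j * M ≤ #(S i) ∧ 2 * #(S i) < L j * #((S i).filter fun x => F (ω x) = j)}
  let B3 : I → ℕ → Set (V → Fin Q) := fun i j =>
    {ω | #(S i) < L j * M ∧ 4 * M < #((S i).filter fun x => j ≤ F (ω x))}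
  have hlog1 := Real.log_two_gt_d9
  have hlog2 := Real.log_two_lt_d9
  have hM0 : (0 : ℝ) ≤ M := Nat.cast_nonneg _
  have b1 : ∀ i j, 1 ≤ j → j ≤ J → avR (ind (B1 i j)) ≤ Real.exp (-((M : ℝ) / 8)) := by
    intro i j h1 h2
    have hLj : (0 : ℝ) < L j := by
      have := L_pos hL1 hL h1
      exact_mod_cast (by omega : 0 < L j)
    by_cases hc : L j * M ≤ #(S i)
    · set μ : ℝ := (#(S i) : ℝ) / L j with hμ
      have hμM : (M : ℝ) ≤ μ := by
        rw [hμ, le_div_iff₀ hLj, mul_comm]
        exact_mod_cast hc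
      have h3 : avR (ind (B1 i j)) ≤ Real.exp (-(μ / 2) - (-(Real.log 2 * (μ / 2)))) := by
        refine avR_ind_le (S := S i) (P := fun q => F q = j) (a := 1 / 2) (by norm_num) ?_ ?_ ?_
        · intro ω hω
          have h4 : 2 * ((L j : ℝ) * #((S i).filter fun x => F (ω x) = j)) < #(S i) := by
            exact_mod_cast hω.2
          have h5 : (#((S i).filter fun x => F (ω x) = j) : ℝ) ≤ μ / 2 := by
            rw [hμ, div_div, le_div_iff₀ (by positivity)]
            linarith
          rw [one_div, Real.log_inv]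
          nlinarith [Nat.cast_nonneg (α := ℝ) #((S i).filter fun x => F (ω x) = j)]
        · rw [hF1 j h1 h2, hμ]
          apply le_of_eq
          ring
        · rw [hF1 j h1 h2]
          have h6 : (4 : ℝ) ≤ L j := by exact_mod_cast L_pos hL1 hL h1
          have h7 : (1 : ℝ) / L j ≤ 1 := by rw [div_le_one hLj]; linarith
          linarith
      refine h3.trans (Real.exp_le_exp.2 ?_)
      nlinarith
    · have h3 : ind (B1 i j) = fun _ => 0 := by
        funext ω
        exact if_neg fun h => hc h.1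
      rw [h3, avR_const]
      positivity
  have b2 : ∀ i j, 1 ≤ j → j ≤ J → avR (ind (B2 i j)) ≤ Real.exp (-((M : ℝ) / 8)) := by
    intro i j h1 h2
    have hLj : (0 : ℝ) < L j := by
      have := L_pos hL1 hL h1
      exact_mod_cast (by omega : 0 < L j)
    by_cases hc : L j * M ≤ #(S i)
    · set μ : ℝ := (#(S i) : ℝ) / L j with hμ
      have hμM : (M : ℝ) ≤ μ := by
        rw [hμ, le_div_iff₀ hLj, mul_comm]
        exact_mod_cast hc
      have h3 : avR (ind (B2 i j)) ≤ Real.exp (μ - Real.log 2 * (2 * μ)) := by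
        refine avR_ind_le (S := S i) (P := fun q => F q = j) (a := 2) (by norm_num) ?_ ?_ ?_
        · intro ω hω
          have h4 : 2 * (#(S i) : ℝ) < (L j : ℝ) * #((S i).filter fun x => F (ω x) = j) := by
            exact_mod_cast hω.2
          have h5 : 2 * μ ≤ (#((S i).filter fun x => F (ω x) = j) : ℝ) := by
            rw [hμ, ← mul_div_assoc, div_le_iff₀ hLj]
            linarith
          exact mul_le_mul_of_nonneg_left h5 (by linarith)
        · rw [hF1 j h1 h2, hμ]
          apply le_of_eq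
          ring
        · rw [hF1 j h1 h2]
          positivity
      refine h3.trans (Real.exp_le_exp.2 ?_)
      nlinarith
    · have h3 : ind (B2 i j) = fun _ => 0 := by
        funext ω
        exact if_neg fun h => hc h.1
      rw [h3, avR_const]
      positivity
  have b3 : ∀ i j, 1 ≤ j → j ≤ J → avR (ind (B3 i j)) ≤ Real.exp (-((M : ℝ) / 8)) := by
    intro i j h1 h2
    have hLj : (0 : ℝ) < L j := by
      have := L_pos hL1 hL h1
      exact_mod_cast (by omega : 0 < L j)
    by_cases hc : #(S i) < L j * M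
    · have hcR : (#(S i) : ℝ) ≤ L j * M := by exact_mod_cast hc.le
      have h3 : avR (ind (B3 i j)) ≤ Real.exp (2 * M - Real.log 2 * (4 * M)) := by
        refine avR_ind_le (S := S i) (P := fun q => j ≤ F q) (a := 2) (by norm_num) ?_ ?_ ?_
        · intro ω hω
          have h4 : 4 * (M : ℝ) < #((S i).filter fun x => j ≤ F (ω x)) := by
            exact_mod_cast hω.2
          exact mul_le_mul_of_nonneg_left h4.le (by linarith)
        · have h5 := hF2 j h1 h2
          have h6 : (0 : ℝ) ≤ #(S i) := Nat.cast_nonneg _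
          calc (2 - 1) * ((#(univ.filter fun q => j ≤ F q) : ℝ) / Q) * #(S i)
              ≤ (2 - 1) * (2 / L j) * #(S i) := by
                refine mul_le_mul_of_nonneg_right ?_ h6
                linarith
            _ ≤ (2 - 1) * (2 / L j) * (L j * M) :=
                mul_le_mul_of_nonneg_left hcR (by positivity)
            _ = 2 * M := by field_simp; ring
        · positivity
      refine h3.trans (Real.exp_le_exp.2 ?_)
      nlinarith
    · have h3 : ind (B3 i j) = fun _ => 0 := by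
        funext ω
        exact if_neg fun h => hc h.1
      rw [h3, avR_const]
      positivity
  -- local lemma
  let A : I → Set (V → Fin Q) := fun i =>
    {ω | ∃ j, 1 ≤ j ∧ j ≤ J ∧ (ω ∈ B1 i j ∨ ω ∈ B2 i j ∨ ω ∈ B3 i j)}
  have hA : ∀ i, avR (ind (A i)) ≤ 3 * J * Real.exp (-((M : ℝ) / 8)) := by
    intro i
    have h1 : ∀ ω, ind (A i) ω ≤ ∑ j ∈ Icc 1 J, (ind (B1 i j) ω + ind (B2 i j) ω + ind (B3 i j) ω) := by
      intro ω
      have hn : ∀ j, 0 ≤ ind (B1 i j) ω + ind (B2 i j) ω + ind (B3 i j) ω := fun j =>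
        add_nonneg (add_nonneg (ind_nonneg _ _) (ind_nonneg _ _)) (ind_nonneg _ _)
      by_cases h : ω ∈ A i
      · obtain ⟨j, hj1, hj2, hj⟩ := h
        refine (ind_le_one _ _).trans ?_
        refine le_trans ?_ (Finset.single_le_sum (f := fun j => ind (B1 i j) ω + ind (B2 i j) ω +
          ind (B3 i j) ω) (fun j _ => hn j) (Finset.mem_Icc.2 ⟨hj1, hj2⟩))
        have n1 := ind_nonneg (B1 i j) ω
        have n2 := ind_nonneg (B2 i j) ω
        have n3 := ind_nonneg (B3 i j) ω
        rcases hj with hj | hj | hj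
        · have : ind (B1 i j) ω = 1 := if_pos hj
          linarith
        · have : ind (B2 i j) ω = 1 := if_pos hj
          linarith
        · have : ind (B3 i j) ω = 1 := if_pos hj
          linarith
      · have h0 : ind (A i) ω = 0 := if_neg h
        rw [h0]
        exact Finset.sum_nonneg fun j _ => hn j
    refine (avR_mono h1).trans ?_
    rw [avR_sum]
    calc ∑ j ∈ Icc 1 J, avR (fun ω => ind (B1 i j) ω + ind (B2 i j) ω + ind (B3 i j) ω)
        ≤ ∑ j ∈ Icc 1 J, 3 * Real.exp (-((M : ℝ) / 8)) := by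
          refine Finset.sum_le_sum fun j hj => ?_
          rw [Finset.mem_Icc] at hj
          rw [avR_add, avR_add]
          have := b1 i j hj.1 hj.2
          have := b2 i j hj.1 hj.2
          have := b3 i j hj.1 hj.2
          linarith
      _ = _ := by
          rw [Finset.sum_const, Nat.card_Icc, nsmul_eq_mul, Nat.add_sub_cancel]
          ring
  have hfilt : ∀ (i : I) (P : Fin Q → Prop) [DecidablePred P] (ω ω' : V → Fin Q),
      (∀ v ∈ (S i : Set V), ω v = ω' v) →
      ((S i).filter fun x => P (ω x)) = (S i).filter fun x => P (ω' x) := by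
    intro i P _ ω ω' h
    refine Finset.filter_congr fun x hx => ?_
    rw [h x hx]
  obtain ⟨ω, hω⟩ := lll A (fun i => (S i : Set V)) (by
      intro i ω ω' h
      simp only [A, B1, B2, B3, Set.mem_ofPred_eq, eq_iff_iff]
      refine exists_congr fun j => ?_
      have e1 := hfilt i (fun q => F q = j) ω ω' h
      have e2 := hfilt i (fun q => j ≤ F q) ω ω' h
      rw [e1, e2])
    (3 * J * Real.exp (-((M : ℝ) / 8))) hA (s * t + 1) (by omega)
    (fun i => (S i).biUnion fun v => univ.filter fun j => v ∈ S j) (by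
      intro i j _ hj
      rw [Finset.disjoint_coe, Finset.disjoint_left]
      intro v hv hv'
      apply hj
      rw [mem_biUnion]
      exact ⟨v, hv, by simpa using hv'⟩)
    (by
      intro i
      have h1 : #((S i).biUnion fun v => univ.filter fun j => v ∈ S j) ≤ #(S i) * t :=
        Finset.card_biUnion_le_card_mul _ _ _ fun v _ => ht v
      have h2 : #(S i) * t ≤ s * t := Nat.mul_le_mul_right _ (hs i)
      omega)
    (by
      push_cast
      have h1 : 0 < Real.exp (-((M : ℝ) / 8)) := Real.exp_pos _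
      have h2 : (0 : ℝ) ≤ ((s : ℝ) * t + 1) * Real.exp (-((M : ℝ) / 8)) := by positivity
      nlinarith)
  refine ⟨fun x => F (ω x), fun x => hFJ _, fun i j h1 h2 => ?_⟩
  have h3 : ¬ (ω ∈ B1 i j ∨ ω ∈ B2 i j ∨ ω ∈ B3 i j) := fun h => hω i ⟨j, h1, h2, h⟩
  push Not at h3
  obtain ⟨g1, g2, g3⟩ := h3
  refine ⟨fun hc => ⟨?_, ?_⟩, fun hc => ?_⟩
  · by_contra hcon
    exact g1 ⟨hc, not_le.1 hcon⟩
  · by_contra hcon
    exact g2 ⟨hc, not_le.1 hcon⟩
  · by_contra hcon
    exact g3 ⟨hc, not_le.1 hcon⟩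

end main

end Pool.Agent.Helper94.HG
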