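import Pool.Agent.Helper94.JefRo
import Pool.Agent.Helper22.JefBk

/-! # The mollified spins satisfy `SpinProp` -/

open MeasureTheory Set Filter Topology
open scoped ENNReal NNReal ContDiff

namespace Pool.Agent.Helper94.Jef
open Pool.Agent.Helper42.Jef Pool.Agent.Helper22.Jef

variable {n : ℕ} {δ : ℝ}

/-! ### duality for the mollification -/

theorem tonelli_dual {k : Eu n → ℝ} (hk : AEStronglyMeasurable k volume)
    (hev : ∀ x, ‖k (-x)‖ₑ = ‖k x‖ₑ) {f g : ST n → ℝ≥0∞} (hf : AEMeasurable f volume)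
    (hg : AEMeasurable g volume) :
    ∫⁻ z : ST n, f z * ∫⁻ y : Eu n, ‖k (z.2 - y)‖ₑ * g (z.1, y) =
      ∫⁻ z : ST n, (∫⁻ y : Eu n, ‖k (z.2 - y)‖ₑ * f (z.1, y)) * g z := by
  have hA : ∀ h : ST n → ℝ≥0∞, AEMeasurable h volume →
      AEMeasurable (fun p : ST n × Eu n => ‖k (p.1.2 - p.2)‖ₑ * h (p.1.1, p.2))
      (volume.prod volume) := fun h hh =>
    (hk.comp_quasiMeasurePreserving qmp_sub).enorm.mul
      (hh.comp_quasiMeasurePreserving qmp_fst)
  have hsl : ∀ h : ST n → ℝ≥0∞, AEMeasurable h volume →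
      ∀ᵐ t : ℝ, AEMeasurable (fun y => h (t, y)) (volume : Measure (Eu n)) := by
    intro h hh
    exact (AEStronglyMeasurable.prodMk_left (μ := volume) (ν := volume)
      hh.aestronglyMeasurable).mono fun t ht => ht.aemeasurable
  have h1 : ∫⁻ z : ST n, f z * ∫⁻ y : Eu n, ‖k (z.2 - y)‖ₑ * g (z.1, y) =
      ∫⁻ t : ℝ, ∫⁻ x : Eu n, f (t, x) * ∫⁻ y : Eu n, ‖k (x - y)‖ₑ * g (t, y) := by
    have hm : AEMeasurable (fun z : ST n => f z * ∫⁻ y : Eu n, ‖k (z.2 - y)‖ₑ * g (z.1, y))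
        ((volume : Measure ℝ).prod (volume : Measure (Eu n))) :=
      hf.mul (hA g hg).lintegral_prod_right'
    exact lintegral_prod _ hm
  have h2 : ∫⁻ z : ST n, (∫⁻ y : Eu n, ‖k (z.2 - y)‖ₑ * f (z.1, y)) * g z =
      ∫⁻ t : ℝ, ∫⁻ y : Eu n, (∫⁻ x : Eu n, ‖k (y - x)‖ₑ * f (t, x)) * g (t, y) := by
    have hm : AEMeasurable (fun z : ST n => (∫⁻ y : Eu n, ‖k (z.2 - y)‖ₑ * f (z.1, y)) * g z)
        ((volume : Measure ℝ).prod (volume : Measure (Eu n))) :=
      (hA f hf).lintegral_prod_right'.mul hg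
    exact lintegral_prod _ hm
  rw [h1, h2]
  refine lintegral_congr_ae ?_
  filter_upwards [hsl f hf, hsl g hg] with t htf htg
  have hkm : AEMeasurable (fun p : Eu n × Eu n => ‖k (p.1 - p.2)‖ₑ) (volume.prod volume) :=
    (hk.comp_quasiMeasurePreserving (quasiMeasurePreserving_sub_of_right_invariant _ _)).enorm
  have hm2 : AEMeasurable (fun p : Eu n × Eu n => f (t, p.1) * (‖k (p.1 - p.2)‖ₑ * g (t, p.2)))
      (volume.prod volume) :=
    (htf.comp_quasiMeasurePreserving Measure.quasiMeasurePreserving_fst).mul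
      (hkm.mul (htg.comp_quasiMeasurePreserving Measure.quasiMeasurePreserving_snd))
  have hk1 : ∀ x, AEMeasurable (fun y => ‖k (x - y)‖ₑ) (volume : Measure (Eu n)) := fun x =>
    (hk.comp_quasiMeasurePreserving
      (Measure.measurePreserving_sub_left volume x).quasiMeasurePreserving).enorm
  calc ∫⁻ x : Eu n, f (t, x) * ∫⁻ y : Eu n, ‖k (x - y)‖ₑ * g (t, y)
      = ∫⁻ x : Eu n, ∫⁻ y : Eu n, f (t, x) * (‖k (x - y)‖ₑ * g (t, y)) := by
        refine lintegral_congr fun x => ?_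
        have hm : AEMeasurable (fun y : Eu n => ‖k (x - y)‖ₑ * g (t, y)) volume :=
          (hk1 x).mul htg
        rw [lintegral_const_mul'' _ hm]
    _ = ∫⁻ y : Eu n, ∫⁻ x : Eu n, f (t, x) * (‖k (x - y)‖ₑ * g (t, y)) :=
        lintegral_lintegral_swap hm2
    _ = ∫⁻ y : Eu n, (∫⁻ x : Eu n, ‖k (y - x)‖ₑ * f (t, x)) * g (t, y) := by
        refine lintegral_congr fun y => ?_
        have hm : AEMeasurable (fun x : Eu n => ‖k (y - x)‖ₑ * f (t, x)) volume :=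
          (hk1 y).mul htf
        rw [← lintegral_mul_const'' _ hm]
        refine lintegral_congr fun x => ?_
        have : ‖k (x - y)‖ₑ = ‖k (y - x)‖ₑ := by rw [← hev (y - x), neg_sub]
        rw [this]; ring

section bounds
variable {ζ : ST n → ℝ} {L : ℝ}

theorem mo_scal_int (hδ : 0 < δ) (hζm : Measurable ζ) (hζ : ∀ z, 0 ≤ ζ z ∧ ζ z ≤ L) (z : ST n) :
    Integrable (fun y : Eu n => ro δ (z.2 - y) • ζ (z.1, y)) := by
  have hint : Integrable (fun y : Eu n => ro δ (z.2 - y)) :=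
    (ro_integrable hδ).comp_sub_left z.2
  have hm : Measurable fun y : Eu n => ζ (z.1, y) := hζm.comp measurable_prodMk_left
  refine (hint.mul_const L).mono' (hint.1.smul hm.aestronglyMeasurable)
    (Eventually.of_forall fun y => ?_)
  rw [norm_smul, Real.norm_of_nonneg (ro_nonneg hδ _), Real.norm_of_nonneg (hζ _).1]
  exact mul_le_mul_of_nonneg_left (hζ _).2 (ro_nonneg hδ _)

theorem mo_scal_nonneg (hδ : 0 < δ) (hζ : ∀ z, 0 ≤ ζ z ∧ ζ z ≤ L) (z : ST n) : 0 ≤ mo δ ζ z :=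
  integral_nonneg fun _ => smul_nonneg (ro_nonneg hδ _) (hζ _).1

theorem mo_scal_le (hδ : 0 < δ) (hζm : Measurable ζ) (hζ : ∀ z, 0 ≤ ζ z ∧ ζ z ≤ L) (z : ST n) :
    mo δ ζ z ≤ L := by
  have hint : Integrable (fun y : Eu n => ro δ (z.2 - y)) :=
    (ro_integrable hδ).comp_sub_left z.2
  calc mo δ ζ z ≤ ∫ y : Eu n, ro δ (z.2 - y) * L := by
        refine integral_mono (mo_scal_int hδ hζm hζ z) (hint.mul_const L) fun y => ?_
        exact mul_le_mul_of_nonneg_left (hζ _).2 (ro_nonneg hδ _)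
    _ = L := by rw [integral_mul_const, ro_shift_int hδ, one_mul]

theorem mo_scal_lint (hδ : 0 < δ) (hζm : Measurable ζ) (hζ : ∀ z, 0 ≤ ζ z ∧ ζ z ≤ L) (z : ST n) :
    ∫⁻ y : Eu n, ‖ro δ (z.2 - y)‖ₑ * ENNReal.ofReal (ζ (z.1, y)) = ENNReal.ofReal (mo δ ζ z) := by
  unfold mo
  rw [ofReal_integral_eq_lintegral_ofReal (mo_scal_int hδ hζm hζ z)
    (Eventually.of_forall fun _ => smul_nonneg (ro_nonneg hδ _) (hζ _).1)]
  refine lintegral_congr fun y => ?_
  rw [Real.enorm_eq_ofReal (ro_nonneg hδ _), smul_eq_mul, ENNReal.ofReal_mul (ro_nonneg hδ _)]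

variable {E : Type*} [NormedAddCommGroup E] [NormedSpace ℝ E]

theorem jensen_lint (hδ : 0 < δ) {X : ST n → E} (hX : MemLp X 2 volume) (hζm : Measurable ζ)
    (hζ : ∀ z, 0 ≤ ζ z ∧ ζ z ≤ L) :
    ∫⁻ z, ENNReal.ofReal (ζ z) * ‖mo δ X z‖ₑ ^ 2 ≤
      ∫⁻ z, ENNReal.ofReal (mo δ ζ z) * ‖X z‖ₑ ^ 2 := by
  have hk : AEStronglyMeasurable (ro δ : Eu n → ℝ) volume := (ro_integrable hδ).1
  have hsl : ∀ᵐ z : ST n, AEMeasurable (fun y => ‖X (z.1, y)‖ₑ) (volume : Measure (Eu n)) := by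
    have h1 : ∀ᵐ t : ℝ, AEStronglyMeasurable (fun y => X (t, y)) (volume : Measure (Eu n)) :=
      AEStronglyMeasurable.prodMk_left (μ := volume) (ν := volume) hX.1
    have h2 : ∀ᵐ z : ST n, AEStronglyMeasurable (fun y => X (z.1, y)) (volume : Measure (Eu n)) :=
      Measure.quasiMeasurePreserving_fst.ae h1
    exact h2.mono fun z hz => hz.enorm
  calc ∫⁻ z, ENNReal.ofReal (ζ z) * ‖mo δ X z‖ₑ ^ 2
      ≤ ∫⁻ z : ST n, ENNReal.ofReal (ζ z) *
          ∫⁻ y : Eu n, ‖ro δ (z.2 - y)‖ₑ * ‖X (z.1, y)‖ₑ ^ 2 := by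
        refine lintegral_mono_ae ?_
        filter_upwards [hsl] with z hz
        refine mul_le_mul' le_rfl ?_
        have h1 : ‖mo δ X z‖ₑ ≤ ∫⁻ y : Eu n, ‖ro δ (z.2 - y)‖ₑ * ‖X (z.1, y)‖ₑ := by
          refine (enorm_integral_le_lintegral_enorm _).trans (le_of_eq ?_)
          exact lintegral_congr fun y => enorm_smul _ _
        refine (pow_le_pow_left' h1 2).trans ((young_cs hk hz z.2).trans ?_)
        rw [ro_lint hδ, one_mul]
    _ = ∫⁻ z : ST n, (∫⁻ y : Eu n, ‖ro δ (z.2 - y)‖ₑ * ENNReal.ofReal (ζ (z.1, y))) *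
          ‖X z‖ₑ ^ 2 :=
        tonelli_dual hk (fun x => by rw [ro_neg]) hζm.ennreal_ofReal.aemeasurable
          (hX.1.enorm.pow_const 2)
    _ = _ := by
        refine lintegral_congr fun z => ?_
        rw [mo_scal_lint hδ hζm hζ z]

omit [NormedSpace ℝ E] in
theorem int_sq' {α : Type*} [MeasurableSpace α] {μ : Measure α} {f : α → E} (hf : MemLp f 2 μ) :
    Integrable (fun x => ‖f x‖ ^ 2) μ := (memLp_two_iff_integrable_sq_norm hf.1).1 hf

omit [NormedSpace ℝ E] in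
theorem int_wsq {α : Type*} [MeasurableSpace α] {μ : Measure α} {f : α → E} (hf : MemLp f 2 μ)
    {w : α → ℝ} (hw : AEStronglyMeasurable w μ) {L : ℝ} (hL : ∀ x, 0 ≤ w x ∧ w x ≤ L) :
    Integrable (fun x => w x * ‖f x‖ ^ 2) μ :=
  (int_sq' hf).bdd_mul hw (Eventually.of_forall fun x => by
    rw [Real.norm_of_nonneg (hL x).1]; exact (hL x).2)

theorem jensen_real (hδ : 0 < δ) {X : ST n → E} (hX : MemLp X 2 volume) (hζm : Measurable ζ)
    (hζ : ∀ z, 0 ≤ ζ z ∧ ζ z ≤ L) (hζ2 : MemLp ζ 2 volume) :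
    ∫ z, ζ z * ‖mo δ X z‖ ^ 2 ≤ ∫ z, mo δ ζ z * ‖X z‖ ^ 2 := by
  have hmoX : MemLp (mo δ X) 2 volume := by
    rw [mo_eq_spc]; exact spc_memLp (ro_integrable hδ) hX
  have hmoζ : AEStronglyMeasurable (mo δ ζ) volume := by
    rw [mo_eq_spc]; exact (spc_memLp (ro_integrable hδ) hζ2).1
  have hb : ∀ z, 0 ≤ mo δ ζ z ∧ mo δ ζ z ≤ L := fun z =>
    ⟨mo_scal_nonneg hδ hζ z, mo_scal_le hδ hζm hζ z⟩
  have i1 := int_wsq hmoX hζm.aestronglyMeasurable hζ
  have i2 := int_wsq hX hmoζ hb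
  have n1 : ∀ z, 0 ≤ ζ z * ‖mo δ X z‖ ^ 2 := fun z => mul_nonneg (hζ z).1 (by positivity)
  have n2 : ∀ z, 0 ≤ mo δ ζ z * ‖X z‖ ^ 2 := fun z => mul_nonneg (hb z).1 (by positivity)
  rw [← ENNReal.ofReal_le_ofReal_iff (integral_nonneg n2),
    ofReal_integral_eq_lintegral_ofReal i1 (Eventually.of_forall n1),
    ofReal_integral_eq_lintegral_ofReal i2 (Eventually.of_forall n2)]
  have e : ∀ {w : ℝ} {x : E}, 0 ≤ w →
      ENNReal.ofReal (w * ‖x‖ ^ 2) = ENNReal.ofReal w * ‖x‖ₑ ^ 2 := by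
    intro w x hw
    rw [ENNReal.ofReal_mul hw, ENNReal.ofReal_pow (norm_nonneg _), ofReal_norm]
  have e1 : ∫⁻ z, ENNReal.ofReal (ζ z * ‖mo δ X z‖ ^ 2) =
      ∫⁻ z, ENNReal.ofReal (ζ z) * ‖mo δ X z‖ₑ ^ 2 := lintegral_congr fun z => e (hζ z).1
  have e2 : ∫⁻ z, ENNReal.ofReal (mo δ ζ z * ‖X z‖ ^ 2) =
      ∫⁻ z, ENNReal.ofReal (mo δ ζ z) * ‖X z‖ₑ ^ 2 := lintegral_congr fun z => e (hb z).1
  rw [e1, e2]
  exact jensen_lint hδ hX hζm hζ

end bounds

/-! ### bounded multipliers converging to zero -/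

theorem mult_tendsto {α : Type*} [MeasurableSpace α] {μ : Measure α} {E : Type*}
    [NormedAddCommGroup E] [NormedSpace ℝ E] {f : ℕ → α → ℝ} {L : ℝ}
    (hf : ∀ m, AEStronglyMeasurable (f m) μ) (hL : ∀ m x, |f m x| ≤ L)
    (h0 : Tendsto (fun m => eLpNorm (f m) 2 μ) atTop (𝓝 0)) {G : α → E} (hG : MemLp G 2 μ) :
    Tendsto (fun m => eLpNorm (fun x => f m x • G x) 2 μ) atTop (𝓝 0) := by
  refine tendsto_of_subseq_tendsto fun ns hns => ?_
  have h1 : TendstoInMeasure μ (fun k => f (ns k)) atTop (fun _ => 0) := by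
    refine tendstoInMeasure_of_tendsto_eLpNorm (p := 2) (by norm_num) (fun k => hf _)
      aestronglyMeasurable_const ?_
    have h2 := h0.comp hns
    refine h2.congr fun k => ?_
    simp only [Function.comp_apply]
    congr 1
    funext x
    simp
  obtain ⟨ms, _, hae⟩ := h1.exists_seq_tendsto_ae
  refine ⟨ms, ?_⟩
  have h3 : Tendsto (fun k => ∫⁻ x, ‖f (ns (ms k)) x • G x‖ₑ ^ 2 ∂μ) atTop
      (𝓝 (∫⁻ _, 0 ∂μ)) := by
    refine tendsto_lintegral_of_dominated_convergence' (fun x => ENNReal.ofReal L ^ 2 * ‖G x‖ₑ ^ 2)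
      (fun k => (((hf _).smul hG.1).enorm.pow_const 2)) (fun k => Eventually.of_forall fun x => ?_)
      ?_ ?_
    · simp only
      rw [enorm_smul, mul_pow]
      refine mul_le_mul' (pow_le_pow_left' ?_ 2) le_rfl
      rw [← ofReal_norm, Real.norm_eq_abs]
      exact ENNReal.ofReal_le_ofReal (hL _ _)
    · rw [lintegral_const_mul'' _ (hG.1.enorm.pow_const 2)]
      refine ENNReal.mul_ne_top (by simp) ?_
      have := lintegral_rpow_enorm_lt_top_of_eLpNorm_lt_top (p := 2) (by norm_num) (by norm_num)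
        hG.2
      have h4 : ∫⁻ x, ‖G x‖ₑ ^ 2 ∂μ < ⊤ := by simpa using this
      exact h4.ne
    · filter_upwards [hae] with x hx
      have h4 : Tendsto (fun k => ‖f (ns (ms k)) x • G x‖ₑ ^ 2) atTop (𝓝 (‖(0:ℝ) • G x‖ₑ ^ 2)) := by
        have h5 : Tendsto (fun k => f (ns (ms k)) x • G x) atTop (𝓝 ((0:ℝ) • G x)) :=
          hx.smul_const _
        exact ((ENNReal.continuous_pow 2).tendsto _).comp h5.enorm
      simpa using h4
  rw [lintegral_zero] at h3
  have h4 : Tendsto (fun k => (∫⁻ x, ‖f (ns (ms k)) x • G x‖ₑ ^ 2 ∂μ) ^ (1 / 2 : ℝ)) atTop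
      (𝓝 (0 ^ (1 / 2 : ℝ))) := ((ENNReal.continuous_rpow_const).tendsto _).comp h3
  rw [ENNReal.zero_rpow_of_pos (by norm_num)] at h4
  refine h4.congr fun k => ?_
  rw [eLpNorm_two_eq]

/-! ### the limit of the weighted variances -/

/-- the inner product as a bilinear map -/
noncomputable def innerB (n : ℕ) : Mt n →L[ℝ] Mt n →L[ℝ] ℝ := innerSL ℝ

theorem innerB_apply (A B : Mt n) : innerB n A B = inner ℝ A B := rfl

theorem int_comb3 {α : Type*} [MeasurableSpace α] {μ : Measure α} {f g h : α → ℝ}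
    (hf : Integrable f μ) (hg : Integrable g μ) (hh : Integrable h μ) (c d : ℝ) :
    ∫ x, (f x + c * g x + d * h x) ∂μ =
      (∫ x, f x ∂μ) + c * (∫ x, g x ∂μ) + d * ∫ x, h x ∂μ := by
  have h2 : Integrable (fun x => c * g x) μ := hg.const_mul c
  have h3 : Integrable (fun x => d * h x) μ := hh.const_mul d
  have h4 : Integrable (fun x => f x + c * g x) μ := hf.add h2
  rw [integral_add h4 h3, integral_add hf h2, integral_const_mul, integral_const_mul]

theorem var_limit {Gs : ℕ → ST n → Mt n} {G : ST n → Mt n}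
    {gk : ℕ → ST n → Mt n} {ga : ℕ → ST n → ℝ} (hTV : TV volume Gs G gk ga) {δ : ℕ → ℝ}
    (hδ : ∀ m, 0 < δ m) (hδ0 : Tendsto δ atTop (𝓝 0)) (j : ℕ) {ζ : ST n → ℝ} {L : ℝ}
    (hζm : Measurable ζ) (hζ : ∀ z, 0 ≤ ζ z ∧ ζ z ≤ L) (hζ2 : MemLp ζ 2 volume) :
    Tendsto (fun m => ∫ z, mo (δ m) ζ z * ‖bk ((j : ℝ) + 1) (Gs m z) - G z‖ ^ 2) atTop
      (𝓝 (∫ z, ζ z * (ga j z - 2 * inner ℝ (gk j z) (G z) + ‖G z‖ ^ 2))) := by
  have hG := hTV.w.memU
  have hζs := mo_tendsto hζ2 hδ hδ0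
  have hmm : ∀ m, MemLp (mo (δ m) ζ) 2 volume := fun m => by
    rw [mo_eq_spc]; exact spc_memLp (ro_integrable (hδ m)) hζ2
  have hb : ∀ m z, 0 ≤ mo (δ m) ζ z ∧ mo (δ m) ζ z ≤ L := fun m z =>
    ⟨mo_scal_nonneg (hδ m) hζ z, mo_scal_le (hδ m) hζm hζ z⟩
  have hζG : MemLp (fun z => ζ z • G z) 2 volume := by
    refine hG.of_le_mul (c := L) (hζ2.1.smul hG.1) (Eventually.of_forall fun z => ?_)
    rw [norm_smul, Real.norm_of_nonneg (hζ z).1]
    exact mul_le_mul_of_nonneg_right (hζ z).2 (norm_nonneg _)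
  have hmG : ∀ m, MemLp (fun z => mo (δ m) ζ z • G z) 2 volume := fun m => by
    refine hG.of_le_mul (c := L) ((hmm m).1.smul hG.1) (Eventually.of_forall fun z => ?_)
    rw [norm_smul, Real.norm_of_nonneg (hb m z).1]
    exact mul_le_mul_of_nonneg_right (hb m z).2 (norm_nonneg _)
  have hd : Tendsto (fun m => eLpNorm (fun z => mo (δ m) ζ z • G z - ζ z • G z) 2 volume)
      atTop (𝓝 0) := by
    have h1 := mult_tendsto (f := fun m z => mo (δ m) ζ z - ζ z) (L := L)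
      (fun m => (hmm m).1.sub hζ2.1) (fun m z => by
        have h1 := hb m z
        have h2 := hζ z
        rw [abs_le]; constructor <;> linarith [h1.1, h1.2, h2.1, h2.2]) hζs hG
    refine h1.congr fun m => ?_
    congr 1
    funext z
    rw [sub_smul]
  -- the three terms
  have t1 : Tendsto (fun m => ∫ z, mo (δ m) ζ z * ‖bk ((j : ℝ) + 1) (Gs m z)‖ ^ 2) atTop
      (𝓝 (∫ z, ζ z * ga j z)) := by
    have h1 := wc_bilin_strong (hTV.wa j) hmm hζ2 hζs (ContinuousLinearMap.mul ℝ ℝ).flip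
    simpa only [ContinuousLinearMap.flip_apply, ContinuousLinearMap.mul_apply'] using h1
  have t2 : Tendsto (fun m => ∫ z, mo (δ m) ζ z * inner ℝ (bk ((j : ℝ) + 1) (Gs m z)) (G z)) atTop
      (𝓝 (∫ z, ζ z * inner ℝ (gk j z) (G z))) := by
    have h1 := wc_bilin_strong (hTV.wk j) hmG hζG hd (innerB n)
    simpa only [innerB_apply, inner_smul_right] using h1
  have t3 : Tendsto (fun m => ∫ z, mo (δ m) ζ z * ‖G z‖ ^ 2) atTop
      (𝓝 (∫ z, ζ z * ‖G z‖ ^ 2)) := by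
    have h1 := wc_bilin_strong (wc_const hG) hmG hζG hd (innerB n)
    simpa only [innerB_apply, inner_smul_right, real_inner_self_eq_norm_sq] using h1
  have hfin := (t1.sub (t2.const_mul 2)).add t3
  have i1 : ∀ m, Integrable (fun z => mo (δ m) ζ z * ‖bk ((j : ℝ) + 1) (Gs m z)‖ ^ 2) volume :=
    fun m => int_wsq ((hTV.wk j).mem m) (hmm m).1 (hb m)
  have i2 : ∀ m, Integrable (fun z => mo (δ m) ζ z *
      inner ℝ (bk ((j : ℝ) + 1) (Gs m z)) (G z)) volume := fun m => by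
    have := memLp_inner_integrable ((hTV.wk j).mem m) (hmG m)
    simpa only [inner_smul_right] using this
  have i3 : ∀ m, Integrable (fun z => mo (δ m) ζ z * ‖G z‖ ^ 2) volume :=
    fun m => int_wsq hG (hmm m).1 (hb m)
  have j1 : Integrable (fun z => ζ z * ga j z) volume := hζ2.integrable_mul (hTV.wa j).memU
  have j2 : Integrable (fun z => ζ z * inner ℝ (gk j z) (G z)) volume := by
    have := memLp_inner_integrable (hTV.wk j).memU hζG
    simpa only [inner_smul_right] using this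
  have j3 : Integrable (fun z => ζ z * ‖G z‖ ^ 2) volume := int_wsq hG hζ2.1 hζ
  have e1 : ∀ m, ∫ z, mo (δ m) ζ z * ‖bk ((j : ℝ) + 1) (Gs m z) - G z‖ ^ 2 =
      (∫ z, mo (δ m) ζ z * ‖bk ((j : ℝ) + 1) (Gs m z)‖ ^ 2) -
        2 * (∫ z, mo (δ m) ζ z * inner ℝ (bk ((j : ℝ) + 1) (Gs m z)) (G z)) +
        ∫ z, mo (δ m) ζ z * ‖G z‖ ^ 2 := by
    intro m
    have h1 := int_comb3 (i1 m) (i2 m) (i3 m) (-2) 1
    have h2 : ∫ z, mo (δ m) ζ z * ‖bk ((j : ℝ) + 1) (Gs m z) - G z‖ ^ 2 =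
        ∫ z, (mo (δ m) ζ z * ‖bk ((j : ℝ) + 1) (Gs m z)‖ ^ 2 +
          (-2) * (mo (δ m) ζ z * inner ℝ (bk ((j : ℝ) + 1) (Gs m z)) (G z)) +
          1 * (mo (δ m) ζ z * ‖G z‖ ^ 2)) := by
      refine integral_congr_ae (Eventually.of_forall fun z => ?_)
      simp only
      rw [norm_sub_sq_real]
      ring
    rw [h2, h1]
    ring
  have e2 : ∫ z, ζ z * (ga j z - 2 * inner ℝ (gk j z) (G z) + ‖G z‖ ^ 2) =
      (∫ z, ζ z * ga j z) - 2 * (∫ z, ζ z * inner ℝ (gk j z) (G z)) +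
        ∫ z, ζ z * ‖G z‖ ^ 2 := by
    have h1 := int_comb3 j1 j2 j3 (-2) 1
    have h2 : ∫ z, ζ z * (ga j z - 2 * inner ℝ (gk j z) (G z) + ‖G z‖ ^ 2) =
        ∫ z, (ζ z * ga j z + (-2) * (ζ z * inner ℝ (gk j z) (G z)) + 1 * (ζ z * ‖G z‖ ^ 2)) := by
      refine integral_congr_ae (Eventually.of_forall fun z => ?_)
      simp only
      ring
    rw [h2, h1]
    ring
  rw [e2]
  exact hfin.congr fun m => (e1 m).symm

/-! ### the mollified spin -/

section mspin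
variable {Ω : Set (Eu n)}

theorem sp_memLp {p : ℝ≥0∞} {A : ST n → Mt n} (hA : MemLp A p volume) :
    MemLp (fun z => sp (A z)) p volume := (spL n).comp_memLp' hA

theorem mspin_norm_le (A : ST n → Mt n) (z : ST n) :
    ‖mspin Ω δ A z‖ ≤ ‖mo δ (fun y => sp (A y)) z‖ := by
  unfold mspin
  by_cases h : z.2 ∈ Ω
  · rw [indicator_of_mem h]
  · rw [indicator_of_notMem h, norm_zero]; exact norm_nonneg _

theorem mspin_aesm (hΩ : IsOpen Ω) {A : ST n → Mt n} (hδ : 0 < δ)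
    (hA : AEStronglyMeasurable A volume) : AEStronglyMeasurable (mspin Ω δ A) volume := by
  have h1 : mspin Ω δ A = ((fun z : ST n => z.2) ⁻¹' Ω).indicator (mo δ (fun y => sp (A y))) := by
    funext z
    unfold mspin
    by_cases h : z.2 ∈ Ω
    · rw [indicator_of_mem h, indicator_of_mem (show z ∈ (fun z : ST n => z.2) ⁻¹' Ω from h)]
    · rw [indicator_of_notMem h, indicator_of_notMem (show z ∉ (fun z : ST n => z.2) ⁻¹' Ω from h)]
  rw [h1]
  refine AEStronglyMeasurable.indicator ?_ (hΩ.measurableSet.preimage measurable_snd)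
  rw [mo_eq_spc]
  exact spc_aesm (ro_integrable hδ).1 ((spL n).continuous.comp_aestronglyMeasurable hA)

theorem mspin_eLpNorm_le (hδ : 0 < δ) {A : ST n → Mt n} (hA : AEStronglyMeasurable A volume) :
    eLpNorm (mspin Ω δ A) 2 volume ≤ eLpNorm A 2 volume := by
  refine (eLpNorm_mono fun z => mspin_norm_le A z).trans ?_
  rw [mo_eq_spc]
  refine (spc_eLpNorm_le (ro_integrable hδ).1
    ((spL n).continuous.comp_aestronglyMeasurable hA)).trans ?_
  rw [ro_lint hδ, one_mul]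
  exact eLpNorm_mono fun z => norm_sp_le _

theorem mspin_memLp (hΩ : IsOpen Ω) (hδ : 0 < δ) {A : ST n → Mt n} (hA : MemLp A 2 volume) :
    MemLp (mspin Ω δ A) 2 volume :=
  ⟨mspin_aesm hΩ hδ hA.1, (mspin_eLpNorm_le hδ hA.1).trans_lt hA.2⟩

theorem mspin_sub (hδ : 0 < δ) {A B : ST n → Mt n} (hA : MemLp A 2 volume)
    (hB : MemLp B 2 volume) :
    mspin Ω δ (fun z => A z - B z) =ᵐ[volume] fun z => mspin Ω δ A z - mspin Ω δ B z := by
  have h1 := spc_sub (ro_integrable hδ) (sp_memLp hA) (sp_memLp hB)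
  filter_upwards [h1] with z hz
  unfold mspin
  by_cases h : z.2 ∈ Ω
  · simp only [indicator_of_mem h]
    rw [mo_eq_spc, mo_eq_spc, mo_eq_spc, ← hz]
    congr 1
    funext y
    exact (spL n).map_sub _ _
  · simp only [indicator_of_notMem h, sub_zero]

/-- `L¹` bound -/
theorem mspin_lint_le (hδ : 0 < δ) {A : ST n → Mt n} (hA : AEStronglyMeasurable A volume) :
    ∫⁻ z, ‖mspin Ω δ A z‖ₑ ≤ ∫⁻ z, ‖A z‖ₑ := by
  calc ∫⁻ z, ‖mspin Ω δ A z‖ₑ
      ≤ ∫⁻ z : ST n, ∫⁻ y : Eu n, ‖ro δ (z.2 - y)‖ₑ * ‖A (z.1, y)‖ₑ := by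
        refine lintegral_mono fun z => ?_
        have h0 : ‖mspin Ω δ A z‖ₑ ≤ ‖mo δ (fun y => sp (A y)) z‖ₑ :=
          enorm_le_iff_norm_le.2 (mspin_norm_le A z)
        refine h0.trans ((enorm_integral_le_lintegral_enorm _).trans ?_)
        refine lintegral_mono fun y => ?_
        rw [enorm_smul]
        exact mul_le_mul' le_rfl (enorm_le_iff_norm_le.2 (norm_sp_le _))
    _ = _ := by
        rw [young_tonelli (f := fun z => ‖A z‖ₑ) (ro_integrable hδ).1 hA.enorm, ro_lint hδ,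
          one_mul]

end mspin

theorem rem_tendsto {Ω : Set (Eu n)} {G : ST n → Mt n} (hG : MemLp G 2 volume) {δ : ℕ → ℝ}
    (hδ : ∀ m, 0 < δ m) (hδ0 : Tendsto δ atTop (𝓝 0))
    (hG0 : ∀ᵐ z : ST n, z.2 ∉ Ω → G z = 0) :
    Tendsto (fun m => eLpNorm (fun z => mspin Ω (δ m) G z - sp (G z)) 2 volume) atTop (𝓝 0) := by
  have h1 := mo_tendsto (sp_memLp hG) hδ hδ0
  refine tendsto_of_tendsto_of_tendsto_of_le_of_le tendsto_const_nhds h1 (fun _ => zero_le)
    fun m => ?_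
  refine eLpNorm_mono_ae ?_
  filter_upwards [hG0] with z hz
  unfold mspin
  by_cases h : z.2 ∈ Ω
  · rw [indicator_of_mem h]
  · rw [indicator_of_notMem h, hz h]
    have h0 : sp (0 : Mt n) = 0 := (spL n).map_zero
    rw [h0, sub_zero, norm_zero]
    exact norm_nonneg _

/-- N2a: the mollified spins satisfy `SpinProp` -/
theorem spin_var {Ω : Set (Eu n)} (hΩ : IsOpen Ω) {Gs : ℕ → ST n → Mt n} {G : ST n → Mt n}
    {gk : ℕ → ST n → Mt n} {ga : ℕ → ST n → ℝ} (hTV : TV volume Gs G gk ga) {M : ℝ}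
    (hM0 : 0 ≤ M) (hM : ∀ m, eLpNorm (Gs m) 2 volume ≤ ENNReal.ofReal M) {δ : ℕ → ℝ}
    (hδ : ∀ m, 0 < δ m) (hδ0 : Tendsto δ atTop (𝓝 0))
    (hG0 : ∀ᵐ z : ST n, z.2 ∉ Ω → G z = 0) :
    SpinProp (fun m => mspin Ω (δ m) (Gs m)) G gk ga (M ^ 2) := by
  intro j
  set k : ℝ := (j : ℝ) + 1 with hk
  have hk0 : 0 < k := by positivity
  set b : ℕ → ST n → Mt n := fun m z => bk k (Gs m z) with hb
  have hbm : ∀ m, MemLp (b m) 2 volume := (hTV.wk j).mem
  have hGm := hTV.w.mem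
  have hG := hTV.w.memU
  have hbM : ∀ m, eLpNorm (b m) 2 volume ≤ ENNReal.ofReal M := fun m =>
    (eLpNorm_mono fun z => bk_norm_le k _).trans (hM m)
  have hdm : ∀ m, MemLp (fun z => Gs m z - b m z) 2 volume := fun m => (hGm m).sub (hbm m)
  have hXm : ∀ m, MemLp (fun z => b m z - G z) 2 volume := fun m => (hbm m).sub hG
  -- `L¹` bound for `Gs - b`
  have hL1 : ∀ m, ∫⁻ z, ‖Gs m z - b m z‖ₑ ≤ ENNReal.ofReal (M ^ 2 / k) := by
    intro m
    have h1 : ∀ z, ‖Gs m z - b m z‖ₑ ≤ ENNReal.ofReal k⁻¹ * ‖Gs m z‖ₑ ^ 2 := by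
      intro z
      rw [← ofReal_norm, ← ofReal_norm, ← ENNReal.ofReal_pow (norm_nonneg _),
        ← ENNReal.ofReal_mul (by positivity)]
      apply ENNReal.ofReal_le_ofReal
      have := bk_sub_le hk0 (Gs m z)
      rwa [div_eq_inv_mul] at this
    calc ∫⁻ z, ‖Gs m z - b m z‖ₑ ≤ ∫⁻ z, ENNReal.ofReal k⁻¹ * ‖Gs m z‖ₑ ^ 2 := lintegral_mono h1
      _ = ENNReal.ofReal k⁻¹ * ∫⁻ z, ‖Gs m z‖ₑ ^ 2 :=
          lintegral_const_mul'' _ ((hGm m).1.enorm.pow_const 2)
      _ = ENNReal.ofReal k⁻¹ * eLpNorm (Gs m) 2 volume ^ 2 := by rw [lint_sq_eq]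
      _ ≤ ENNReal.ofReal k⁻¹ * ENNReal.ofReal M ^ 2 :=
          mul_le_mul' le_rfl (pow_le_pow_left' (hM m) 2)
      _ = ENNReal.ofReal (M ^ 2 / k) := by
          rw [← ENNReal.ofReal_pow hM0, ← ENNReal.ofReal_mul (by positivity), div_eq_inv_mul]
  refine ⟨fun m => mspin Ω (δ m) (b m), fun m => mspin Ω (δ m) (fun z => Gs m z - b m z),
    ?_, fun m => mspin_memLp hΩ (hδ m) (hbm m), ⟨M, fun m => ?_⟩, ?_, ?_, ?_⟩
  · intro m
    filter_upwards [mspin_sub (Ω := Ω) (hδ m) (hGm m) (hbm m)] with z hz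
    rw [hz]
    abel
  · exact (mspin_eLpNorm_le (hδ m) (hbm m).1).trans (hbM m)
  · intro m
    refine ⟨mspin_aesm hΩ (hδ m) (hdm m).1, ?_⟩
    rw [hasFiniteIntegral_iff_enorm]
    exact ((mspin_lint_le (hδ m) (hdm m).1).trans (hL1 m)).trans_lt ENNReal.ofReal_lt_top
  · intro m
    have h1 := (mspin_lint_le (Ω := Ω) (hδ m) (hdm m).1).trans (hL1 m)
    rw [integral_norm_eq_lintegral_enorm (mspin_aesm hΩ (hδ m) (hdm m).1)]
    exact ENNReal.toReal_le_of_le_ofReal (by positivity) h1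
  · intro ζ L hζm hζ hζ2 ε hε
    set P : ℕ → ST n → Mt n := fun m => mspin Ω (δ m) (fun z => b m z - G z) with hP
    set R : ℕ → ST n → Mt n := fun m z => mspin Ω (δ m) G z - sp (G z) with hR
    have hPm : ∀ m, MemLp (P m) 2 volume := fun m => mspin_memLp hΩ (hδ m) (hXm m)
    have hRm : ∀ m, MemLp (R m) 2 volume := fun m =>
      (mspin_memLp hΩ (hδ m) hG).sub (sp_memLp hG)
    have hdec : ∀ m, (fun z => mspin Ω (δ m) (b m) z - sp (G z)) =ᵐ[volume]
        fun z => P m z + R m z := by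
      intro m
      filter_upwards [mspin_sub (Ω := Ω) (hδ m) (hbm m) hG] with z hz
      rw [hP, hR]
      simp only
      rw [hz]
      abel
    have hRt := rem_tendsto (Ω := Ω) hG hδ hδ0 hG0
    set C : ℝ := M + (eLpNorm G 2 volume).toReal with hC
    have hC0 : 0 ≤ C := add_nonneg hM0 ENNReal.toReal_nonneg
    have hPC : ∀ m, (eLpNorm (P m) 2 volume).toReal ≤ C := by
      intro m
      refine ENNReal.toReal_le_of_le_ofReal hC0 ?_
      refine (mspin_eLpNorm_le (hδ m) (hXm m).1).trans ?_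
      refine (eLpNorm_sub_le (hbm m).1 hG.1 (by norm_num)).trans ?_
      rw [hC, ENNReal.ofReal_add hM0 ENNReal.toReal_nonneg, ENNReal.ofReal_toReal hG.2.ne]
      exact add_le_add (hbM m) le_rfl
    have hL0 : 0 ≤ L := (hζ 0).1.trans (hζ 0).2
    -- the cross terms tend to zero
    have hr : Tendsto (fun m => (eLpNorm (R m) 2 volume).toReal) atTop (𝓝 0) := by
      have h0 := (ENNReal.tendsto_toReal (by simp : (0:ℝ≥0∞) ≠ ⊤)).comp hRt
      rw [ENNReal.toReal_zero] at h0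
      exact h0
    have hcr : Tendsto (fun m => 2 * (L * (C * (eLpNorm (R m) 2 volume).toReal)) +
        L * ((eLpNorm (R m) 2 volume).toReal * (eLpNorm (R m) 2 volume).toReal)) atTop (𝓝 0) := by
      have h1 := (((hr.const_mul C).const_mul L).const_mul 2).add ((hr.mul hr).const_mul L)
      simpa using h1
    have hlim := (var_limit hTV hδ hδ0 j hζm hζ hζ2).add hcr
    rw [add_zero] at hlim
    have hev := hlim.eventually_lt_const (lt_add_of_pos_right _ hε)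
    filter_upwards [hev] with m hm
    refine le_trans ?_ hm.le
    have e0 : ∫ z, ζ z * ‖mspin Ω (δ m) (b m) z - sp (G z)‖ ^ 2 =
        ∫ z, ζ z * ‖P m z + R m z‖ ^ 2 :=
      integral_congr_ae (by filter_upwards [hdec m] with z hz; rw [hz])
    have iP : Integrable (fun z => ζ z * ‖P m z‖ ^ 2) volume := int_wsq (hPm m) hζ2.1 hζ
    have iR : Integrable (fun z => ζ z * ‖R m z‖ ^ 2) volume := int_wsq (hRm m) hζ2.1 hζ
    have hζR : MemLp (fun z => ζ z • R m z) 2 volume := by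
      refine (hRm m).of_le_mul (c := L) (hζ2.1.smul (hRm m).1) (Eventually.of_forall fun z => ?_)
      rw [norm_smul, Real.norm_of_nonneg (hζ z).1]
      exact mul_le_mul_of_nonneg_right (hζ z).2 (norm_nonneg _)
    have iPR : Integrable (fun z => ζ z * inner ℝ (P m z) (R m z)) volume := by
      have := memLp_inner_integrable (hPm m) hζR
      simpa only [inner_smul_right] using this
    have hζRn : (eLpNorm (fun z => ζ z • R m z) 2 volume).toReal ≤
        L * (eLpNorm (R m) 2 volume).toReal := by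
      have h1 : eLpNorm (fun z => ζ z • R m z) 2 volume ≤
          ENNReal.ofReal L * eLpNorm (R m) 2 volume := by
        refine eLpNorm_le_mul_eLpNorm_of_ae_le_mul (Eventually.of_forall fun z => ?_) 2
        rw [norm_smul, Real.norm_of_nonneg (hζ z).1]
        exact mul_le_mul_of_nonneg_right (hζ z).2 (norm_nonneg _)
      have h2 := ENNReal.toReal_mono (ENNReal.mul_ne_top ENNReal.ofReal_ne_top (hRm m).2.ne) h1
      rwa [ENNReal.toReal_mul, ENNReal.toReal_ofReal hL0] at h2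
    have e1 : ∫ z, ζ z * ‖P m z + R m z‖ ^ 2 = (∫ z, ζ z * ‖P m z‖ ^ 2) +
        (2 * (∫ z, ζ z * inner ℝ (P m z) (R m z)) + ∫ z, ζ z * ‖R m z‖ ^ 2) := by
      have h1 := int_comb3 iP iPR iR 2 1
      have h2 : ∫ z, ζ z * ‖P m z + R m z‖ ^ 2 = ∫ z, (ζ z * ‖P m z‖ ^ 2 +
          2 * (ζ z * inner ℝ (P m z) (R m z)) + 1 * (ζ z * ‖R m z‖ ^ 2)) := by
        refine integral_congr_ae (Eventually.of_forall fun z => ?_)
        simp only
        rw [norm_add_sq_real]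
        ring
      rw [h2, h1]
      ring
    have b1 : ∫ z, ζ z * ‖P m z‖ ^ 2 ≤ ∫ z, mo (δ m) ζ z * ‖bk k (Gs m z) - G z‖ ^ 2 := by
      have hsX : MemLp (fun z => sp (b m z - G z)) 2 volume := sp_memLp (hXm m)
      have hmo : MemLp (mo (δ m) fun z => sp (b m z - G z)) 2 volume := by
        rw [mo_eq_spc]; exact spc_memLp (ro_integrable (hδ m)) hsX
      have hmζ : MemLp (mo (δ m) ζ) 2 volume := by
        rw [mo_eq_spc]; exact spc_memLp (ro_integrable (hδ m)) hζ2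
      have hbd : ∀ z, 0 ≤ mo (δ m) ζ z ∧ mo (δ m) ζ z ≤ L := fun z =>
        ⟨mo_scal_nonneg (hδ m) hζ z, mo_scal_le (hδ m) hζm hζ z⟩
      calc ∫ z, ζ z * ‖P m z‖ ^ 2
          ≤ ∫ z, ζ z * ‖mo (δ m) (fun z => sp (b m z - G z)) z‖ ^ 2 := by
            refine integral_mono iP (int_wsq hmo hζ2.1 hζ) fun z => ?_
            exact mul_le_mul_of_nonneg_left (pow_le_pow_left₀ (norm_nonneg _)
              (mspin_norm_le _ z) 2) (hζ z).1
        _ ≤ ∫ z, mo (δ m) ζ z * ‖sp (b m z - G z)‖ ^ 2 := jensen_real (hδ m) hsX hζm hζ hζ2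
        _ ≤ _ := by
            refine integral_mono (int_wsq hsX hmζ.1 hbd) (int_wsq (hXm m) hmζ.1 hbd) fun z => ?_
            exact mul_le_mul_of_nonneg_left (pow_le_pow_left₀ (norm_nonneg _)
              (norm_sp_le _) 2) (hbd z).1
    have b2 : ∫ z, ζ z * inner ℝ (P m z) (R m z) ≤
        L * (C * (eLpNorm (R m) 2 volume).toReal) := by
      have h1 := integral_inner_le (hPm m) hζR
      have h2 : ∫ z, inner ℝ (P m z) (ζ z • R m z) = ∫ z, ζ z * inner ℝ (P m z) (R m z) :=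
        integral_congr_ae (Eventually.of_forall fun z => by simp only [inner_smul_right])
      rw [h2] at h1
      refine (le_abs_self _).trans (h1.trans ?_)
      calc (eLpNorm (P m) 2 volume).toReal * (eLpNorm (fun z => ζ z • R m z) 2 volume).toReal
          ≤ C * (L * (eLpNorm (R m) 2 volume).toReal) :=
            mul_le_mul (hPC m) hζRn ENNReal.toReal_nonneg hC0
        _ = _ := by ring
    have b3 : ∫ z, ζ z * ‖R m z‖ ^ 2 ≤
        L * ((eLpNorm (R m) 2 volume).toReal * (eLpNorm (R m) 2 volume).toReal) := by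
      have h1 := integral_inner_le (hRm m) hζR
      have h2 : ∫ z, inner ℝ (R m z) (ζ z • R m z) = ∫ z, ζ z * ‖R m z‖ ^ 2 :=
        integral_congr_ae (Eventually.of_forall fun z => by
          simp only [inner_smul_right, real_inner_self_eq_norm_sq])
      rw [h2] at h1
      refine (le_abs_self _).trans (h1.trans ?_)
      calc (eLpNorm (R m) 2 volume).toReal * (eLpNorm (fun z => ζ z • R m z) 2 volume).toReal
          ≤ (eLpNorm (R m) 2 volume).toReal * (L * (eLpNorm (R m) 2 volume).toReal) :=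
            mul_le_mul_of_nonneg_left hζRn ENNReal.toReal_nonneg
        _ = _ := by ring
    rw [e0, e1]
    linarith

end Pool.Agent.Helper94.Jef
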