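import Pool.Agent.Helper42.Jef.RegH
import Pool.Agent.Helper94.JefSpin

/-! # P8: weak limit of the mollified spins -/

open MeasureTheory Set Filter Topology
open scoped ENNReal NNReal ContDiff

namespace Pool.Agent.Helper94.Jef
open Pool.Agent.Helper42.Jef

variable {n : ℕ} {δ : ℝ}

/-- exchange of the two space variables -/
def swp (p : ST n × Eu n) : ST n × Eu n := ((p.1.1, p.2), p.1.2)

theorem swp_mp : MeasurePreserving (swp (n := n)) ((volume : Measure (ST n)).prod volume)
    ((volume : Measure (ST n)).prod volume) := by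
  have h1 : MeasurePreserving (MeasurableEquiv.prodAssoc (α := ℝ) (β := Eu n) (γ := Eu n))
      (((volume : Measure ℝ).prod (volume : Measure (Eu n))).prod (volume : Measure (Eu n)))
      ((volume : Measure ℝ).prod ((volume : Measure (Eu n)).prod (volume : Measure (Eu n)))) :=
    measurePreserving_prodAssoc _ _ _
  have h2 : MeasurePreserving (Prod.map id Prod.swap : ℝ × (Eu n × Eu n) → ℝ × (Eu n × Eu n))
      ((volume : Measure ℝ).prod ((volume : Measure (Eu n)).prod (volume : Measure (Eu n))))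
      ((volume : Measure ℝ).prod ((volume : Measure (Eu n)).prod (volume : Measure (Eu n)))) :=
    (MeasurePreserving.id _).prod Measure.measurePreserving_swap
  exact (h1.symm _).comp (h2.comp h1)

section dual
variable {E : Type*} [NormedAddCommGroup E] [InnerProductSpace ℝ E] [CompleteSpace E]

omit [CompleteSpace E] in
theorem dual_int {k : Eu n → ℝ} (hk : Integrable k) {X g : ST n → E} (hX : MemLp X 2 volume)
    (hg : MemLp g 2 volume) :
    Integrable (fun p : ST n × Eu n => k (p.1.2 - p.2) * inner ℝ (X (p.1.1, p.2)) (g p.1))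
      (volume.prod volume) := by
  have hm : AEStronglyMeasurable
      (fun p : ST n × Eu n => k (p.1.2 - p.2) * inner ℝ (X (p.1.1, p.2)) (g p.1))
      (volume.prod volume) :=
    (hk.1.comp_quasiMeasurePreserving qmp_sub).mul
      ((hX.1.comp_quasiMeasurePreserving qmp_fst).inner hg.1.comp_fst)
  refine ⟨hm, ?_⟩
  rw [hasFiniteIntegral_iff_enorm]
  rw [lintegral_prod _ hm.enorm]
  have hA : AEMeasurable (fun z : ST n => ∫⁻ y : Eu n, ‖k (z.2 - y)‖ₑ * ‖X (z.1, y)‖ₑ) volume := by
    have hm : AEMeasurable (fun p : ST n × Eu n => ‖k (p.1.2 - p.2)‖ₑ * ‖X (p.1.1, p.2)‖ₑ)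
        (volume.prod volume) :=
      (hk.1.comp_quasiMeasurePreserving qmp_sub).enorm.mul
        (hX.1.comp_quasiMeasurePreserving qmp_fst).enorm
    exact hm.lintegral_prod_right'
  have hsl : ∀ᵐ z : ST n, AEMeasurable (fun y => ‖k (z.2 - y)‖ₑ * ‖X (z.1, y)‖ₑ)
      (volume : Measure (Eu n)) := by
    have h1 : ∀ᵐ t : ℝ, AEStronglyMeasurable (fun y => X (t, y)) (volume : Measure (Eu n)) :=
      AEStronglyMeasurable.prodMk_left (μ := volume) (ν := volume) hX.1
    have h2 : ∀ᵐ z : ST n, AEStronglyMeasurable (fun y => X (z.1, y)) (volume : Measure (Eu n)) :=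
      Measure.quasiMeasurePreserving_fst.ae h1
    have hk' : ∀ z : ST n, AEMeasurable (fun y => ‖k (z.2 - y)‖ₑ) (volume : Measure (Eu n)) :=
      fun z => (hk.1.comp_quasiMeasurePreserving
        (Measure.measurePreserving_sub_left volume z.2).quasiMeasurePreserving).enorm
    exact h2.mono fun z hz => (hk' z).mul hz.enorm
  calc ∫⁻ z : ST n, ∫⁻ y : Eu n, ‖k (z.2 - y) * inner ℝ (X (z.1, y)) (g z)‖ₑ
      ≤ ∫⁻ z : ST n, ∫⁻ y : Eu n, (‖k (z.2 - y)‖ₑ * ‖X (z.1, y)‖ₑ) * ‖g z‖ₑ := by
        refine lintegral_mono fun z => lintegral_mono fun y => ?_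
        rw [enorm_mul, mul_assoc]
        refine mul_le_mul' le_rfl ?_
        rw [← ofReal_norm, ← ofReal_norm, ← ofReal_norm, ← ENNReal.ofReal_mul (norm_nonneg _)]
        exact ENNReal.ofReal_le_ofReal (norm_inner_le_norm _ _)
    _ = ∫⁻ z : ST n, (∫⁻ y : Eu n, ‖k (z.2 - y)‖ₑ * ‖X (z.1, y)‖ₑ) * ‖g z‖ₑ := by
        refine lintegral_congr_ae ?_
        filter_upwards [hsl] with z hz
        exact lintegral_mul_const'' _ hz
    _ ≤ (∫⁻ z : ST n, (∫⁻ y : Eu n, ‖k (z.2 - y)‖ₑ * ‖X (z.1, y)‖ₑ) ^ (2:ℝ)) ^ (1 / (2:ℝ)) *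
          (∫⁻ z, ‖g z‖ₑ ^ (2:ℝ)) ^ (1 / (2:ℝ)) := by
        exact ENNReal.lintegral_mul_le_Lp_mul_Lq (volume : Measure (ST n))
          Real.HolderConjugate.two_two hA hg.1.enorm
    _ < ⊤ := by
        refine ENNReal.mul_lt_top ?_ ?_
        · refine ENNReal.rpow_lt_top_of_nonneg (by norm_num) (ne_of_lt ?_)
          have h1 := spc_lint_le hk.1 hX.1
          have h2 : ∫⁻ z : ST n, ‖X z‖ₑ ^ 2 < ⊤ := by
            have := lintegral_rpow_enorm_lt_top_of_eLpNorm_lt_top (p := 2) (by norm_num)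
              (by norm_num) hX.2
            simpa using this
          have h3 := h1.trans_lt (ENNReal.mul_lt_top (ENNReal.pow_lt_top hk.2) h2)
          simpa using h3
        · refine ENNReal.rpow_lt_top_of_nonneg (by norm_num) (ne_of_lt ?_)
          have := lintegral_rpow_enorm_lt_top_of_eLpNorm_lt_top (p := 2) (by norm_num)
            (by norm_num) hg.2
          simpa using this

theorem dual_one {k : Eu n → ℝ} (hk : Integrable k) {X g : ST n → E} (hX : MemLp X 2 volume)
    (hg : MemLp g 2 volume) :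
    ∫ z, inner ℝ (spc k X z) (g z) =
      ∫ p : ST n × Eu n, k (p.1.2 - p.2) * inner ℝ (X (p.1.1, p.2)) (g p.1)
        ∂(volume.prod volume) := by
  rw [integral_prod _ (dual_int hk hX hg)]
  refine integral_congr_ae ?_
  filter_upwards [spc_ae_integrable hk hX] with z hz
  simp only [spc]
  rw [real_inner_comm, ← integral_inner hz]
  refine integral_congr_ae (Eventually.of_forall fun y => ?_)
  simp only [inner_smul_right]
  rw [real_inner_comm]

/-- the mollification is symmetric in `L²` -/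
theorem mo_dual (hδ : 0 < δ) {X g : ST n → E} (hX : MemLp X 2 volume) (hg : MemLp g 2 volume) :
    ∫ z, inner ℝ (mo δ X z) (g z) = ∫ z, inner ℝ (X z) (mo δ g z) := by
  have hk := ro_integrable (n := n) hδ
  have h1 := dual_one hk hX hg
  have h2 := dual_one hk hg hX
  have h3 : ∫ p : ST n × Eu n, ro δ (p.1.2 - p.2) * inner ℝ (X (p.1.1, p.2)) (g p.1)
        ∂(volume.prod volume) = ∫ p : ST n × Eu n, ro δ (p.1.2 - p.2) *
          inner ℝ (g (p.1.1, p.2)) (X p.1) ∂(volume.prod volume) := by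
    have h4 : MeasurePreserving (swp (n := n)) (volume.prod volume) (volume.prod volume) := swp_mp
    have h5 := (integral_map (μ := (volume : Measure (ST n)).prod (volume : Measure (Eu n)))
      h4.measurable.aemeasurable
      (f := fun p : ST n × Eu n => ro δ (p.1.2 - p.2) * inner ℝ (X (p.1.1, p.2)) (g p.1))
      (by rw [h4.map_eq]; exact (dual_int hk hX hg).1))
    rw [h4.map_eq] at h5
    rw [h5]
    refine integral_congr_ae (Eventually.of_forall fun p => ?_)
    simp only [swp]
    rw [real_inner_comm, ← neg_sub p.1.2 p.2, ro_neg]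
  rw [mo_eq_spc, mo_eq_spc, h1, h3, ← h2]
  exact integral_congr_ae (Eventually.of_forall fun z => real_inner_comm _ _)

end dual

theorem wc_mspin {Ω : Set (Eu n)} (hΩ : IsOpen Ω) {Gs : ℕ → ST n → Mt n} {G : ST n → Mt n}
    (wG : WC volume Gs G) (hG0 : ∀ᵐ z : ST n, z.2 ∉ Ω → G z = 0) {δ : ℕ → ℝ}
    (hδ : ∀ m, 0 < δ m) (hδ0 : Tendsto δ atTop (𝓝 0)) :
    WC volume (fun m => mspin Ω (δ m) (Gs m)) (fun z => sp (G z)) := by
  have hΩm := hΩ.measurableSet
  have wS : WC volume (fun m z => spL n (Gs m z)) (fun z => spL n (G z)) := wc_clm wG (spL n)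
  have hS : MeasurableSet (univ ×ˢ Ω : Set (ST n)) := MeasurableSet.univ.prod hΩm
  refine ⟨fun m => Pool.Agent.Helper42.Jef.mspin_memLp hΩm (hδ m) (wG.mem m), ?_, sp_memLp wG.memU, fun g hg => ?_⟩
  · obtain ⟨C, hC⟩ := wS.bdd
    refine ⟨C, fun m => le_trans ?_ (hC m)⟩
    rw [mspin_eq]
    refine (eLpNorm_indicator_le _).trans ?_
    refine (spc_eLpNorm_le (ro_integrable (hδ m)).1 (sp_memLp (wG.mem m)).1).trans ?_
    rw [ro_lint (hδ m), one_mul]
    exact le_rfl
  · set g' : ST n → Mt n := (univ ×ˢ Ω : Set (ST n)).indicator g with hg'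
    have hgm : MemLp g' 2 volume := hg.indicator hS
    have h1 := mo_tendsto hgm hδ hδ0
    have hmm : ∀ m, MemLp (mo (δ m) g') 2 volume := fun m => by
      rw [mo_eq_spc]; exact spc_memLp (ro_integrable (hδ m)) hgm
    have h2 := wc_bilin_strong wS hmm hgm h1 (innerB n)
    have e1 : ∀ m, ∫ x, innerB n (spL n (Gs m x)) (mo (δ m) g' x) =
        ∫ x, inner ℝ (mspin Ω (δ m) (Gs m) x) (g x) := by
      intro m
      simp only [innerB_apply]
      rw [← mo_dual (hδ m) (wS.mem m) hgm]
      refine integral_congr_ae (Eventually.of_forall fun z => ?_)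
      simp only [mspin_eq, hg']
      by_cases hz : z ∈ (univ ×ˢ Ω : Set (ST n))
      · rw [indicator_of_mem hz, indicator_of_mem hz]; rfl
      · rw [indicator_of_notMem hz, indicator_of_notMem hz, inner_zero_right, inner_zero_left]
    have e2 : ∫ x, innerB n (spL n (G x)) (g' x) = ∫ x, inner ℝ (sp (G x)) (g x) := by
      simp only [innerB_apply]
      refine integral_congr_ae ?_
      filter_upwards [hG0] with z hz
      by_cases hzΩ : z ∈ (univ ×ˢ Ω : Set (ST n))
      · rw [hg', indicator_of_mem hzΩ]; rfl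
      · have hz0 : G z = 0 := hz fun h => hzΩ ⟨trivial, h⟩
        have e3 : sp (G z) = 0 := by rw [hz0]; exact (spL n).map_zero
        rw [hz0, map_zero, inner_zero_left, ← hz0, e3, inner_zero_left]
    rw [e2] at h2
    exact h2.congr e1

end Pool.Agent.Helper94.Jef
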