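import Mathlib

/-! # Smooth interpolation in one variable reproducing linear functions -/

open MeasureTheory Set Filter Topology
open scoped ENNReal NNReal ContDiff

namespace Pool.Agent.Helper94.Jef

/-- `rR s = s` for `s ≥ 1/2` and `0` for `s ≤ -1/2` -/
noncomputable def rR (s : ℝ) : ℝ := s * Real.smoothTransition (s + 1 / 2)

theorem rR_smooth : ContDiff ℝ ∞ rR :=
  contDiff_id.mul (Real.smoothTransition.contDiff.comp (contDiff_id.add contDiff_const))

theorem rR_neg {s : ℝ} (h : s ≤ -1 / 2) : rR s = 0 := by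
  unfold rR
  rw [Real.smoothTransition.zero_of_nonpos (by linarith), mul_zero]

theorem rR_pos {s : ℝ} (h : 1 / 2 ≤ s) : rR s = s := by
  unfold rR
  rw [Real.smoothTransition.one_of_one_le (by linarith), mul_one]

theorem drR_neg {s : ℝ} (h : s < -1 / 2) : deriv rR s = 0 := by
  have h1 : rR =ᶠ[𝓝 s] fun _ => 0 := by
    filter_upwards [Iio_mem_nhds h] with x hx
    exact rR_neg (le_of_lt hx)
  rw [h1.deriv_eq, deriv_const]

theorem drR_pos {s : ℝ} (h : 1 / 2 < s) : deriv rR s = 1 := by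
  have h1 : rR =ᶠ[𝓝 s] fun x => x := by
    filter_upwards [Ioi_mem_nhds h] with x hx
    exact rR_pos (le_of_lt hx)
  rw [h1.deriv_eq, deriv_id'']

/-- second difference -/
noncomputable def sd (f : ℝ → ℝ) (s : ℝ) : ℝ := f (s + 1) - 2 * f s + f (s - 1)

theorem sum_sd (f : ℝ → ℝ) (s : ℝ) (N : ℕ) : ∑ i ∈ Finset.range (N + 1), sd f (s - i) =
    (f (s + 1) - f s) - (f (s - N) - f (s - N - 1)) := by
  induction N with
  | zero => simp [sd]; ring
  | succ N ih =>
    rw [Finset.sum_range_succ, ih]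
    unfold sd
    push_cast
    rw [show s - ((N : ℝ) + 1) + 1 = s - N by ring, show s - ((N : ℝ) + 1) = s - N - 1 by ring]
    ring

theorem sum_sd_mul (f : ℝ → ℝ) (s : ℝ) (N : ℕ) :
    ∑ i ∈ Finset.range (N + 1), (i : ℝ) * sd f (s - i) =
    f s - f (s - N) - N * (f (s - N) - f (s - N - 1)) := by
  induction N with
  | zero => simp
  | succ N ih =>
    rw [Finset.sum_range_succ, ih]
    unfold sd
    push_cast
    rw [show s - ((N : ℝ) + 1) + 1 = s - N by ring, show s - ((N : ℝ) + 1) = s - N - 1 by ring]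
    ring

/-- the interpolation bump -/
noncomputable def hH : ℝ → ℝ := sd rR

/-- its derivative -/
noncomputable def dH : ℝ → ℝ := sd (deriv rR)

theorem hH_smooth : ContDiff ℝ ∞ hH := by
  unfold hH sd
  exact ((rR_smooth.comp (contDiff_id.add contDiff_const)).sub
    (contDiff_const.mul rR_smooth)).add (rR_smooth.comp (contDiff_id.sub contDiff_const))

theorem hH_deriv (s : ℝ) : HasDerivAt hH (dH s) s := by
  have h : ∀ x, HasDerivAt rR (deriv rR x) x := fun x =>
    (rR_smooth.differentiable (by simp)).differentiableAt.hasDerivAt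
  have h1 : HasDerivAt (fun x => rR (x + 1)) (deriv rR (s + 1)) s := (h (s + 1)).comp_add_const s 1
  have h2 : HasDerivAt (fun x => rR (x - 1)) (deriv rR (s - 1)) s := (h (s - 1)).comp_sub_const s 1
  exact (h1.sub ((h s).const_mul 2)).add h2

theorem dH_eq : dH = deriv hH := funext fun s => (hH_deriv s).deriv.symm

theorem hH_zero {s : ℝ} (h : 3 / 2 ≤ |s|) : hH s = 0 := by
  unfold hH sd
  rcases le_abs.1 h with h | h
  · rw [rR_pos (by linarith), rR_pos (by linarith), rR_pos (by linarith)]; ring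
  · rw [rR_neg (by linarith), rR_neg (by linarith), rR_neg (by linarith)]; ring

theorem dH_zero {s : ℝ} (h : 3 / 2 < |s|) : dH s = 0 := by
  unfold dH sd
  rcases lt_abs.1 h with h | h
  · rw [drR_pos (by linarith), drR_pos (by linarith), drR_pos (by linarith)]; ring
  · rw [drR_neg (by linarith), drR_neg (by linarith), drR_neg (by linarith)]; ring

theorem hH_cpt : HasCompactSupport hH := by
  refine HasCompactSupport.of_support_subset_isCompact (isCompact_Icc (a := -3 / 2) (b := 3 / 2)) ?_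
  intro s hs
  by_contra hc
  apply hs
  apply hH_zero
  rw [mem_Icc, not_and_or, not_le, not_le] at hc
  rcases hc with hc | hc
  · exact le_abs.2 (Or.inr (by linarith))
  · exact le_abs.2 (Or.inl (by linarith))

theorem exists_K : ∃ K : ℝ, 0 ≤ K ∧ (∀ s, |hH s| ≤ K) ∧ ∀ s, |dH s| ≤ K := by
  obtain ⟨K1, h1⟩ := hH_smooth.continuous.bounded_above_of_compact_support hH_cpt
  have hc : Continuous (deriv hH) := hH_smooth.continuous_deriv (by simp)
  obtain ⟨K2, h2⟩ := hc.bounded_above_of_compact_support hH_cpt.deriv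
  refine ⟨max K1 K2, (norm_nonneg _).trans ((h1 0).trans (le_max_left _ _)), fun s =>
    (h1 s).trans (le_max_left _ _), fun s => ?_⟩
  rw [dH_eq]
  exact (h2 s).trans (le_max_right _ _)

/-- weighted sums with few terms -/
theorem few_sum {V : Type*} [NormedAddCommGroup V] [NormedSpace ℝ V] {s : ℝ} (hs : 0 ≤ s)
    (N : ℕ) {w : ℕ → ℝ} {r : ℕ → V} {W ρ : ℝ} (hW : 0 ≤ W) (hw : ∀ i, |w i| ≤ W)
    (hw0 : ∀ i : ℕ, 3 / 2 < |s - i| → w i = 0) (hr : ∀ i : ℕ, |s - i| ≤ 3 / 2 → ‖r i‖ ≤ ρ) :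
    ‖∑ i ∈ Finset.range (N + 1), w i • r i‖ ≤ 4 * (W * ρ) := by
  classical
  set S := (Finset.range (N + 1)).filter (fun i : ℕ => |s - i| ≤ 3 / 2) with hS
  have h1 : ∑ i ∈ Finset.range (N + 1), w i • r i = ∑ i ∈ S, w i • r i := by
    rw [hS, Finset.sum_filter_of_ne]
    intro i _ hne
    by_contra hc
    exact hne (by rw [hw0 i (not_le.1 hc), zero_smul])
  have hcard : S.card ≤ 4 := by
    have h2 : S ⊆ Finset.Icc (⌊s⌋₊ - 1) (⌊s⌋₊ + 2) := by
      intro i hi
      have hi' := (Finset.mem_filter.1 hi).2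
      rw [abs_le] at hi'
      have h3 := Nat.floor_le hs
      have h4 := Nat.lt_floor_add_one s
      rw [Finset.mem_Icc]
      constructor
      · have h5 : (⌊s⌋₊ : ℝ) < i + 2 := by linarith
        have h6 : ⌊s⌋₊ < i + 2 := by exact_mod_cast h5
        omega
      · have h5 : (i : ℝ) < ⌊s⌋₊ + 3 := by linarith
        have h6 : i < ⌊s⌋₊ + 3 := by exact_mod_cast h5
        omega
    refine (Finset.card_le_card h2).trans ?_
    rw [Nat.card_Icc]
    omega
  rw [h1]
  rcases S.eq_empty_or_nonempty with he | ⟨i0, hi0⟩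
  · rw [he, Finset.sum_empty, norm_zero]
    by_cases hρ : 0 ≤ ρ
    · positivity
    · -- no index in range; but ρ could be negative only if no index at all satisfies the bound
      exfalso
      have h3 := Nat.floor_le hs
      have h4 := Nat.lt_floor_add_one s
      have := hr ⌊s⌋₊ (by rw [abs_le]; constructor <;> linarith)
      exact hρ ((norm_nonneg _).trans this)
  · have hρ : 0 ≤ ρ := (norm_nonneg _).trans (hr i0 (Finset.mem_filter.1 hi0).2)
    calc ‖∑ i ∈ S, w i • r i‖ ≤ ∑ i ∈ S, ‖w i • r i‖ := norm_sum_le _ _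
      _ ≤ ∑ _i ∈ S, W * ρ := by
          refine Finset.sum_le_sum fun i hi => ?_
          rw [norm_smul]
          exact mul_le_mul (hw i) (hr i (Finset.mem_filter.1 hi).2) (norm_nonneg _) hW
      _ = S.card * (W * ρ) := by rw [Finset.sum_const, nsmul_eq_mul]
      _ ≤ 4 * (W * ρ) := by
          refine mul_le_mul_of_nonneg_right ?_ (by positivity)
          exact_mod_cast hcard

section
variable {V : Type*} [NormedAddCommGroup V] [NormedSpace ℝ V]

theorem lip_of_deriv {F F' : ℝ → V} {M : ℝ} (hF : ∀ s, HasDerivAt F (F' s) s)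
    (hM : ∀ s, ‖F' s‖ ≤ M) (s t : ℝ) : ‖F s - F t‖ ≤ M * |s - t| := by
  have h := Convex.norm_image_sub_le_of_norm_hasDerivWithin_le (𝕜 := ℝ) (f := F) (f' := F')
    (s := univ) (C := M) (fun x _ => (hF x).hasDerivWithinAt) (fun x _ => hM x) convex_univ
    (mem_univ t) (mem_univ s)
  simpa using h

theorem taylor_two {F F' F'' : ℝ → V} {M : ℝ} (hF : ∀ s, HasDerivAt F (F' s) s)
    (hF' : ∀ s, HasDerivAt F' (F'' s) s) (hM : ∀ s, ‖F'' s‖ ≤ M) (s t : ℝ) :
    ‖F s - F t - (s - t) • F' t‖ ≤ M * |s - t| * |s - t| := by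
  have hM0 : 0 ≤ M := (norm_nonneg _).trans (hM 0)
  have hd : ∀ x, HasDerivAt (fun x => F x - F t - (x - t) • F' t) (F' x - F' t) x := by
    intro x
    have h1 : HasDerivAt (fun x : ℝ => (x - t) • F' t) ((1 : ℝ) • F' t) x :=
      ((hasDerivAt_id x).sub_const t).smul_const (F' t)
    rw [one_smul] at h1
    exact ((hF x).sub_const (F t)).sub h1
  have h := Convex.norm_image_sub_le_of_norm_hasDerivWithin_le (𝕜 := ℝ)
    (f := fun x => F x - F t - (x - t) • F' t) (f' := fun x => F' x - F' t)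
    (s := uIcc t s) (C := M * |s - t|) (fun x _ => (hd x).hasDerivWithinAt) (fun x hx => ?_)
    (convex_uIcc t s) left_mem_uIcc right_mem_uIcc
  · simpa using h
  · refine (lip_of_deriv hF' hM x t).trans (mul_le_mul_of_nonneg_left ?_ hM0)
    exact abs_sub_left_of_mem_uIcc hx

/-- interpolation estimates -/
theorem interp {K : ℝ} (hK0 : 0 ≤ K) (hK1 : ∀ s, |hH s| ≤ K) (hK2 : ∀ s, |dH s| ≤ K)
    {F F' F'' : ℝ → V} {M : ℝ}
    (hF : ∀ s, HasDerivAt F (F' s) s) (hF' : ∀ s, HasDerivAt F' (F'' s) s)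
    (hM1 : ∀ s, ‖F' s‖ ≤ M) (hM2 : ∀ s, ‖F'' s‖ ≤ M) {h : ℝ} (hh : 0 < h) {t : ℝ} (ht : 0 ≤ t)
    {N : ℕ} (hN : t / h + 5 / 2 < N) :
    ‖∑ i ∈ Finset.range (N + 1), hH (t / h + 2 - i) • F (((i : ℝ) - 2) * h) - F t‖ ≤
      9 * K * M * h ∧
    ‖∑ i ∈ Finset.range (N + 1), (h⁻¹ * dH (t / h + 2 - i)) • F (((i : ℝ) - 2) * h) - F' t‖ ≤
      9 * K * M * h := by
  have hM0 : 0 ≤ M := (norm_nonneg _).trans (hM1 0)
  set s := t / h + 2 with hs
  have hts : t = (s - 2) * h := by rw [hs]; field_simp; ring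
  have hs2 : 2 ≤ s := by
    have : 0 ≤ t / h := by positivity
    linarith
  have hsN : s - N < -1 / 2 := by linarith
  have hnode : ∀ i : ℕ, ((i : ℝ) - 2) * h - t = (i - s) * h := fun i => by rw [hts]; ring
  have habs : ∀ i : ℕ, |s - i| ≤ 3 / 2 → |((i : ℝ) - 2) * h - t| ≤ 3 / 2 * h := by
    intro i hi
    rw [hnode, abs_mul, abs_of_pos hh, abs_sub_comm]
    exact mul_le_mul_of_nonneg_right hi hh.le
  have e1 : ∑ i ∈ Finset.range (N + 1), hH (s - i) = 1 := by
    unfold hH
    rw [sum_sd, rR_pos (by linarith), rR_pos (by linarith), rR_neg (by linarith),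
      rR_neg (by linarith)]
    ring
  have e2 : ∑ i ∈ Finset.range (N + 1), dH (s - i) = 0 := by
    unfold dH
    rw [sum_sd, drR_pos (by linarith), drR_pos (by linarith), drR_neg (by linarith),
      drR_neg (by linarith)]
    ring
  have e3 : ∑ i ∈ Finset.range (N + 1), (i : ℝ) * dH (s - i) = 1 := by
    unfold dH
    rw [sum_sd_mul, drR_pos (by linarith), drR_neg (by linarith), drR_neg (by linarith)]
    ring
  constructor
  · have h1 : ∑ i ∈ Finset.range (N + 1), hH (s - i) • F (((i : ℝ) - 2) * h) - F t =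
        ∑ i ∈ Finset.range (N + 1), hH (s - i) • (F (((i : ℝ) - 2) * h) - F t) := by
      simp only [smul_sub, Finset.sum_sub_distrib]
      rw [← Finset.sum_smul, e1, one_smul]
    rw [h1]
    refine (few_sum (s := s) (by linarith) N (W := K) (ρ := M * (3 / 2 * h)) hK0
      (fun i => hK1 _) (fun i hi => hH_zero hi.le) (fun i hi => ?_)).trans ?_
    · exact (lip_of_deriv hF hM1 _ _).trans (mul_le_mul_of_nonneg_left (habs i hi) hM0)
    · have : 0 ≤ K * M * h := by positivity
      nlinarith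
  · have h1 : ∑ i ∈ Finset.range (N + 1), (h⁻¹ * dH (s - i)) • F (((i : ℝ) - 2) * h) - F' t =
        ∑ i ∈ Finset.range (N + 1), (h⁻¹ * dH (s - i)) •
          (F (((i : ℝ) - 2) * h) - F t - (((i : ℝ) - 2) * h - t) • F' t) := by
      simp only [smul_sub, Finset.sum_sub_distrib, smul_smul]
      rw [← Finset.sum_smul, ← Finset.sum_smul, ← Finset.mul_sum, e2, mul_zero, zero_smul, sub_zero]
      have h2 : ∑ i ∈ Finset.range (N + 1), h⁻¹ * dH (s - i) * (((i : ℝ) - 2) * h - t) = 1 := by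
        have h3 : ∀ i : ℕ, h⁻¹ * dH (s - i) * (((i : ℝ) - 2) * h - t) =
            (i : ℝ) * dH (s - i) - s * dH (s - i) := by
          intro i
          rw [hnode]
          field_simp
        simp only [h3, Finset.sum_sub_distrib]
        rw [e3, ← Finset.mul_sum, e2]
        ring
      rw [h2, one_smul]
    rw [h1]
    refine (few_sum (s := s) (by linarith) N (W := h⁻¹ * K)
      (ρ := M * (3 / 2 * h) * (3 / 2 * h)) (by positivity)
      (fun i => ?_) (fun i hi => by rw [dH_zero hi, mul_zero]) (fun i hi => ?_)).trans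
      (le_of_eq ?_)
    · rw [abs_mul, abs_of_pos (by positivity : 0 < h⁻¹)]
      exact mul_le_mul_of_nonneg_left (hK2 _) (by positivity)
    · refine (taylor_two hF hF' hM2 _ _).trans ?_
      have h4 := habs i hi
      exact mul_le_mul (mul_le_mul_of_nonneg_left h4 hM0) h4 (abs_nonneg _) (by positivity)
    · field_simp
      ring

end

end Pool.Agent.Helper94.Jef
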