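import Pool.Agent.Helper42.Jef.Defs4
import Pool.Agent.Helper94.JefInterp

/-! # General space-time test functions from product test functions -/

open MeasureTheory Set Filter Topology
open scoped ENNReal NNReal ContDiff

namespace Pool.Agent.Helper94.Jef
open Pool.Agent.Helper42.Jef

variable {n : ℕ}

section slices
variable {E : Type*} [NormedAddCommGroup E] [NormedSpace ℝ E] {Φ : ST n → E}

theorem slice_fderiv_x {Ψ : ST n → E} (hΨ : Differentiable ℝ Ψ) (t : ℝ) (x : Eu n) :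
    HasFDerivAt (fun x => Ψ (t, x))
      ((fderiv ℝ Ψ (t, x)).comp (ContinuousLinearMap.inr ℝ ℝ (Eu n))) x := by
  have h1 : HasFDerivAt (fun x : Eu n => ((t, x) : ST n)) (ContinuousLinearMap.inr ℝ ℝ (Eu n)) x :=
    hasFDerivAt_prodMk_right t x
  exact (hΨ (t, x)).hasFDerivAt.comp x h1

theorem slice_deriv_t {Ψ : ST n → E} (hΨ : Differentiable ℝ Ψ) (t : ℝ) (x : Eu n) :
    HasDerivAt (fun t => Ψ (t, x)) (fderiv ℝ Ψ (t, x) (1, 0)) t := by
  have h1 : HasDerivAt (fun t : ℝ => ((t, x) : ST n)) (1, 0) t :=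
    (hasDerivAt_id t).prodMk (hasDerivAt_const t x)
  exact (hΨ (t, x)).hasFDerivAt.comp_hasDerivAt t h1

theorem two_le_inf : (2 : WithTop ℕ∞) ≤ ((⊤ : ℕ∞) : WithTop ℕ∞) :=
  WithTop.coe_le_coe.2 (le_top : (2 : ℕ∞) ≤ ⊤)

/-- symmetry of the mixed derivatives -/
theorem mixed_symm (hΦ : ContDiff ℝ ∞ Φ) (z v w : ST n) :
    fderiv ℝ (fderiv ℝ Φ) z v w = fderiv ℝ (fderiv ℝ Φ) z w v := by
  have h := (hΦ.contDiffAt (x := z)).isSymmSndFDerivAt (by
    simp only [minSmoothness_of_isRCLikeNormedField]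
    exact two_le_inf)
  exact h v w

theorem smooth_diff (hΦ : ContDiff ℝ ∞ Φ) : Differentiable ℝ Φ := hΦ.differentiable (by simp)

theorem smooth_fderiv (hΦ : ContDiff ℝ ∞ Φ) : ContDiff ℝ ∞ (fderiv ℝ Φ) :=
  hΦ.fderiv_right (m := ∞) (by simp)

theorem smooth_apply (hΦ : ContDiff ℝ ∞ Φ) (w : ST n) : ContDiff ℝ ∞ fun z => fderiv ℝ Φ z w :=
  (smooth_fderiv hΦ).clm_apply contDiff_const

theorem fderiv_apply_dir (hΦ : ContDiff ℝ ∞ Φ) (w z v : ST n) :
    fderiv ℝ (fun z => fderiv ℝ Φ z w) z v = fderiv ℝ (fderiv ℝ Φ) z v w := by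
  have h2 := ((smooth_diff (smooth_fderiv hΦ) z).hasFDerivAt.clm_apply
    (hasFDerivAt_const w z)).fderiv
  rw [h2]
  simp

/-- time derivative -/
noncomputable def dT (Φ : ST n → E) (z : ST n) : E := fderiv ℝ Φ z (1, 0)

theorem dT_smooth (hΦ : ContDiff ℝ ∞ Φ) : ContDiff ℝ ∞ (dT Φ) := smooth_apply hΦ (1, 0)

theorem dT_cpt (hc : HasCompactSupport Φ) : HasCompactSupport (dT Φ) :=
  (hc.fderiv (𝕜 := ℝ)).comp_left (g := fun L : ST n →L[ℝ] E => L (1, 0)) (by simp)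

/-- time derivative of a directional derivative -/
theorem dir_deriv_t (hΦ : ContDiff ℝ ∞ Φ) (s : ℝ) (x : Eu n) (w : ST n) :
    HasDerivAt (fun s => fderiv ℝ Φ (s, x) w) (fderiv ℝ (dT Φ) (s, x) w) s := by
  have h := slice_deriv_t (smooth_diff (smooth_apply hΦ w)) s x
  rw [fderiv_apply_dir hΦ, mixed_symm hΦ, ← fderiv_apply_dir hΦ] at h
  exact h

/-- uniform bounds -/
theorem exists_bound (hΦ : ContDiff ℝ ∞ Φ) (hc : HasCompactSupport Φ) : ∃ M : ℝ, 0 ≤ M ∧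
    (∀ z, ‖Φ z‖ ≤ M) ∧ (∀ z, ‖dT Φ z‖ ≤ M) ∧ (∀ z, ‖dT (dT Φ) z‖ ≤ M) ∧
    (∀ z, ‖fderiv ℝ Φ z‖ ≤ M) ∧ (∀ z, ‖fderiv ℝ (dT Φ) z‖ ≤ M) ∧
    (∀ z, ‖fderiv ℝ (dT (dT Φ)) z‖ ≤ M) := by
  have s1 := dT_smooth hΦ
  have s2 := dT_smooth s1
  have c1 := dT_cpt hc
  have c2 := dT_cpt c1
  have key : ∀ {Ψ : ST n → E}, ContDiff ℝ ∞ Ψ → HasCompactSupport Ψ → ∃ M : ℝ, 0 ≤ M ∧
      (∀ z, ‖Ψ z‖ ≤ M) ∧ ∀ z, ‖fderiv ℝ Ψ z‖ ≤ M := by
    intro Ψ hΨ hcΨ
    obtain ⟨M0, h0⟩ := hΨ.continuous.bounded_above_of_compact_support hcΨ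
    obtain ⟨M1, h1⟩ := (smooth_fderiv hΨ).continuous.bounded_above_of_compact_support
      (hcΨ.fderiv (𝕜 := ℝ))
    exact ⟨max M0 M1, ((norm_nonneg _).trans (h0 0)).trans (le_max_left _ _),
      fun z => (h0 z).trans (le_max_left _ _), fun z => (h1 z).trans (le_max_right _ _)⟩
  obtain ⟨A, a0, a1, a2⟩ := key hΦ hc
  obtain ⟨B, b0, b1, b2⟩ := key s1 c1
  obtain ⟨C, c0, c1, c2⟩ := key s2 c2
  refine ⟨A + B + C, by positivity, fun z => (a1 z).trans ?_, fun z => (b1 z).trans ?_,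
    fun z => (c1 z).trans ?_, fun z => (a2 z).trans ?_, fun z => (b2 z).trans ?_,
    fun z => (c2 z).trans ?_⟩ <;> linarith

theorem norm_dir_x (y : Eu n) : ‖((0, y) : ST n)‖ ≤ ‖y‖ := by
  rw [Prod.norm_def]; simp

/-- the interpolated function and its time derivative, for `fderiv ℝ Φ (·, x) w` -/
theorem interp_dir (hΦ : ContDiff ℝ ∞ Φ) {M : ℝ}
    (h2 : ∀ z, ‖fderiv ℝ (dT Φ) z‖ ≤ M) (h3 : ∀ z, ‖fderiv ℝ (dT (dT Φ)) z‖ ≤ M)
    {K : ℝ} (hK0 : 0 ≤ K) (hK1 : ∀ s, |hH s| ≤ K) (hK2 : ∀ s, |dH s| ≤ K)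
    {h : ℝ} (hh : 0 < h) {t : ℝ} (ht : 0 ≤ t) {N : ℕ} (hN : t / h + 5 / 2 < N) (x : Eu n)
    (w : ST n) :
    ‖∑ i ∈ Finset.range (N + 1), hH (t / h + 2 - i) • fderiv ℝ Φ (((i : ℝ) - 2) * h, x) w -
      fderiv ℝ Φ (t, x) w‖ ≤ 9 * K * M * h * ‖w‖ ∧
    ‖∑ i ∈ Finset.range (N + 1), (h⁻¹ * dH (t / h + 2 - i)) •
      fderiv ℝ Φ (((i : ℝ) - 2) * h, x) w - fderiv ℝ (dT Φ) (t, x) w‖ ≤
      9 * K * M * h * ‖w‖ := by
  have key := interp (V := E) hK0 hK1 hK2 (F := fun s => fderiv ℝ Φ (s, x) w)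
    (F' := fun s => fderiv ℝ (dT Φ) (s, x) w)
    (F'' := fun s => fderiv ℝ (dT (dT Φ)) (s, x) w) (M := M * ‖w‖)
    (fun s => dir_deriv_t hΦ s x w) (fun s => dir_deriv_t (dT_smooth hΦ) s x w)
    (fun s => (ContinuousLinearMap.le_opNorm _ _).trans
      (mul_le_mul_of_nonneg_right (h2 _) (norm_nonneg _)))
    (fun s => (ContinuousLinearMap.le_opNorm _ _).trans
      (mul_le_mul_of_nonneg_right (h3 _) (norm_nonneg _))) hh ht hN
  exact ⟨key.1.trans (le_of_eq (by ring)), key.2.trans (le_of_eq (by ring))⟩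

theorem interp_val (hΦ : ContDiff ℝ ∞ Φ) {M : ℝ}
    (h1 : ∀ z, ‖dT Φ z‖ ≤ M) (h2 : ∀ z, ‖dT (dT Φ) z‖ ≤ M)
    {K : ℝ} (hK0 : 0 ≤ K) (hK1 : ∀ s, |hH s| ≤ K) (hK2 : ∀ s, |dH s| ≤ K)
    {h : ℝ} (hh : 0 < h) {t : ℝ} (ht : 0 ≤ t) {N : ℕ} (hN : t / h + 5 / 2 < N) (x : Eu n) :
    ‖∑ i ∈ Finset.range (N + 1), hH (t / h + 2 - i) • Φ (((i : ℝ) - 2) * h, x) -
      Φ (t, x)‖ ≤ 9 * K * M * h ∧
    ‖∑ i ∈ Finset.range (N + 1), (h⁻¹ * dH (t / h + 2 - i)) •
      Φ (((i : ℝ) - 2) * h, x) - dT Φ (t, x)‖ ≤ 9 * K * M * h :=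
  interp (V := E) hK0 hK1 hK2 (F := fun s => Φ (s, x))
    (F' := fun s => dT Φ (s, x)) (F'' := fun s => dT (dT Φ) (s, x)) (M := M)
    (fun s => slice_deriv_t (smooth_diff hΦ) s x)
    (fun s => slice_deriv_t (smooth_diff (dT_smooth hΦ)) s x) (fun _ => h1 _) (fun _ => h2 _)
    hh ht hN

/-- the difference of a finite combination of slices and a slice: values and derivative -/
theorem comb_bounds {Ψ : ST n → E} (hΦ : ContDiff ℝ ∞ Φ) (hΨ : ContDiff ℝ ∞ Ψ) {N : ℕ}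
    (w : ℕ → ℝ) (s : ℕ → ℝ) (t : ℝ) {c : ℝ} (hc : 0 ≤ c)
    (h0 : ∀ x, ‖∑ i ∈ Finset.range N, w i • Φ (s i, x) - Ψ (t, x)‖ ≤ c)
    (h1 : ∀ x (y : Eu n), ‖∑ i ∈ Finset.range N, w i • fderiv ℝ Φ (s i, x) (0, y) -
      fderiv ℝ Ψ (t, x) (0, y)‖ ≤ c * ‖y‖) (g : Eu n → E)
    (hg : g = (∑ i ∈ Finset.range N, w i • fun x => Φ (s i, x)) - fun x => Ψ (t, x)) :
    ∀ x, ‖g x‖ ≤ c ∧ ‖fderiv ℝ g x‖ ≤ c := by
  intro x
  constructor
  · have := h0 x
    rw [hg]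
    simpa only [Finset.sum_apply, Pi.smul_apply, Pi.sub_apply] using this
  · have hd : HasFDerivAt g
        ((∑ i ∈ Finset.range N, w i • (fderiv ℝ Φ (s i, x)).comp
          (ContinuousLinearMap.inr ℝ ℝ (Eu n))) -
          (fderiv ℝ Ψ (t, x)).comp (ContinuousLinearMap.inr ℝ ℝ (Eu n))) x := by
      rw [hg]
      refine HasFDerivAt.sub ?_ (slice_fderiv_x (smooth_diff hΨ) t x)
      exact HasFDerivAt.sum fun i _ => (slice_fderiv_x (smooth_diff hΦ) (s i) x).const_smul (w i)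
    rw [hd.fderiv]
    refine ContinuousLinearMap.opNorm_le_bound _ hc fun y => ?_
    have := h1 x y
    simpa using this

/-- bounds for one slice -/
theorem slice_bounds {Ψ : ST n → E} (hΨ : ContDiff ℝ ∞ Ψ) {M : ℝ} (h0 : ∀ z, ‖Ψ z‖ ≤ M)
    (h1 : ∀ z, ‖fderiv ℝ Ψ z‖ ≤ M) (t : ℝ) (x : Eu n) :
    ‖(fun x => Ψ (t, x)) x‖ ≤ M ∧ ‖fderiv ℝ (fun x => Ψ (t, x)) x‖ ≤ M := by
  refine ⟨h0 _, ?_⟩
  have hM : 0 ≤ M := (norm_nonneg _).trans (h0 (t, x))
  rw [(slice_fderiv_x (smooth_diff hΨ) t x).fderiv]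
  refine ContinuousLinearMap.opNorm_le_bound _ hM fun y => ?_
  have : (fderiv ℝ Ψ (t, x)).comp (ContinuousLinearMap.inr ℝ ℝ (Eu n)) y =
      fderiv ℝ Ψ (t, x) (0, y) := by simp
  rw [this]
  exact (ContinuousLinearMap.le_opNorm _ _).trans
    (mul_le_mul (h1 _) (norm_dir_x y) (norm_nonneg _) hM)

end slices

/-! ### the time bumps -/

/-- the `i`-th time bump -/
noncomputable def eta (h : ℝ) (i : ℕ) (t : ℝ) : ℝ := hH (t / h + 2 - i)

theorem eta_deriv (h : ℝ) (i : ℕ) (t : ℝ) :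
    HasDerivAt (eta h i) (h⁻¹ * dH (t / h + 2 - i)) t := by
  have h1 : HasDerivAt (fun t : ℝ => t / h + 2 - i) (1 / h) t :=
    (((hasDerivAt_id t).div_const h).add_const 2).sub_const (i : ℝ)
  have h2 := (hH_deriv (t / h + 2 - i)).comp t h1
  have h3 : dH (t / h + 2 - i) * (1 / h) = h⁻¹ * dH (t / h + 2 - i) := by
    rw [one_div, mul_comm]
  rw [h3] at h2
  exact h2

theorem eta_isTime {h : ℝ} (hh : 0 < h) {i : ℕ} {T : ℝ} (h1 : -1 < ((i : ℝ) - 2) * h - 3 / 2 * h)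
    (h2 : ((i : ℝ) - 2) * h + 3 / 2 * h < T) : IsTime (-1) T (eta h i) := by
  have hsub : Function.support (eta h i) ⊆
      Icc (((i : ℝ) - 2) * h - 3 / 2 * h) (((i : ℝ) - 2) * h + 3 / 2 * h) := by
    intro t ht
    by_contra hc
    apply ht
    apply hH_zero
    rw [mem_Icc, not_and_or, not_le, not_le] at hc
    have e : t / h + 2 - i = (t - ((i : ℝ) - 2) * h) / h := by field_simp; ring
    rw [e]
    rcases hc with hc | hc
    · refine le_abs.2 (Or.inr ?_)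
      rw [← neg_div, le_div_iff₀ hh]
      linarith
    · refine le_abs.2 (Or.inl ?_)
      rw [le_div_iff₀ hh]
      linarith
  refine ⟨?_, HasCompactSupport.of_support_subset_isCompact isCompact_Icc hsub, ?_⟩
  · exact hH_smooth.comp (((contDiff_id.div_const h).add contDiff_const).sub contDiff_const)
  · refine (closure_minimal hsub isClosed_Icc).trans ?_
    intro t ht
    exact ⟨h1.trans_le ht.1, ht.2.trans_lt h2⟩

/-- F3: general space-time test functions from product test functions (abstract form) -/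
theorem gt_abs {E : Type*} [NormedAddCommGroup E] [NormedSpace ℝ E] [FiniteDimensional ℝ E]
    {T : ℝ} (hT : 0 < T) (P : Submodule ℝ (Eu n → E)) (A B : (Eu n → E) → ℝ → ℝ)
    (C : (Eu n → E) → ℝ)
    (hA1 : ∀ t, ∀ φ ∈ P, ∀ ψ ∈ P, A (φ + ψ) t = A φ t + A ψ t)
    (hA2 : ∀ t (r : ℝ), ∀ φ ∈ P, A (r • φ) t = r * A φ t)
    (hB1 : ∀ t, ∀ φ ∈ P, ∀ ψ ∈ P, B (φ + ψ) t = B φ t + B ψ t)
    (hB2 : ∀ t (r : ℝ), ∀ φ ∈ P, B (r • φ) t = r * B φ t)
    (hC1 : ∀ φ ∈ P, ∀ ψ ∈ P, C (φ + ψ) = C φ + C ψ)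
    (hC2 : ∀ r : ℝ, ∀ φ ∈ P, C (r • φ) = r * C φ)
    (k : ℝ → ℝ) (hk0 : ∀ t, 0 ≤ k t) (hk : IntegrableOn k (Ioo 0 T)) (C0 : ℝ)
    (hAb : ∀ φ ∈ P, ∀ c : ℝ, (∀ x, ‖φ x‖ ≤ c ∧ ‖fderiv ℝ φ x‖ ≤ c) →
      ∀ t ∈ Ioo 0 T, |A φ t| ≤ k t * c)
    (hBb : ∀ φ ∈ P, ∀ c : ℝ, (∀ x, ‖φ x‖ ≤ c ∧ ‖fderiv ℝ φ x‖ ≤ c) →
      ∀ t ∈ Ioo 0 T, |B φ t| ≤ k t * c)
    (hCb : ∀ φ ∈ P, ∀ c : ℝ, (∀ x, ‖φ x‖ ≤ c ∧ ‖fderiv ℝ φ x‖ ≤ c) → |C φ| ≤ C0 * c)
    (hAm : ∀ φ ∈ P, AEStronglyMeasurable (A φ) (volume.restrict (Ioo 0 T)))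
    (hBm : ∀ φ ∈ P, AEStronglyMeasurable (B φ) (volume.restrict (Ioo 0 T)))
    (heq : ∀ η, IsTime (-1) T η → ∀ φ ∈ P,
      (∫ t in Ioo 0 T, (deriv η t * A φ t + η t * B φ t)) + η 0 * C φ = 0)
    (Φ : ST n → E) (hΦ : ContDiff ℝ ∞ Φ) (hc : HasCompactSupport Φ)
    (hs : tsupport Φ ⊆ {z : ST n | z.1 < T}) (hP : ∀ t, (fun x => Φ (t, x)) ∈ P)
    (hP' : ∀ t, (fun x => fderiv ℝ Φ (t, x) (1, 0)) ∈ P) :
    IntegrableOn (fun t => A (fun x => fderiv ℝ Φ (t, x) (1, 0)) t + B (fun x => Φ (t, x)) t)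
      (Ioo 0 T) ∧
    (∫ t in Ioo 0 T, (A (fun x => fderiv ℝ Φ (t, x) (1, 0)) t + B (fun x => Φ (t, x)) t)) +
      C (fun x => Φ (0, x)) = 0 := by
  classical
  obtain ⟨K, hK0, hK1, hK2⟩ := exists_K
  obtain ⟨M, hM0, m0, m1, m2, m3, m4, m5⟩ := exists_bound hΦ hc
  -- support in time
  obtain ⟨T', hT'T, hT'⟩ : ∃ T' < T, ∀ t, T' ≤ t → ∀ x, Φ (t, x) = 0 := by
    rcases (tsupport Φ).eq_empty_or_nonempty with he | hne
    · refine ⟨T - 1, by linarith, fun t _ x => ?_⟩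
      exact image_eq_zero_of_notMem_tsupport (by rw [he]; simp)
    · obtain ⟨z0, hz0, hmax⟩ := hc.isCompact.exists_isMaxOn hne continuous_fst.continuousOn
      have hz0T : z0.1 < T := hs hz0
      refine ⟨(z0.1 + T) / 2, by linarith, fun t ht x => ?_⟩
      refine image_eq_zero_of_notMem_tsupport fun hmem => ?_
      have := hmax hmem
      simp only [mem_ofPred_eq] at this
      linarith
  -- linear maps on `P`
  let AL : ℝ → P →ₗ[ℝ] ℝ := fun t =>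
    { toFun := fun φ => A φ t
      map_add' := fun φ ψ => hA1 t φ φ.2 ψ ψ.2
      map_smul' := fun r φ => hA2 t r φ φ.2 }
  let BL : ℝ → P →ₗ[ℝ] ℝ := fun t =>
    { toFun := fun φ => B φ t
      map_add' := fun φ ψ => hB1 t φ φ.2 ψ ψ.2
      map_smul' := fun r φ => hB2 t r φ φ.2 }
  let CL : P →ₗ[ℝ] ℝ :=
    { toFun := fun φ => C φ
      map_add' := fun φ ψ => hC1 φ φ.2 ψ ψ.2
      map_smul' := fun r φ => hC2 r φ φ.2 }
  let sl : ℝ → P := fun t => ⟨fun x => Φ (t, x), hP t⟩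
  let dsl : ℝ → P := fun t => ⟨fun x => dT Φ (t, x), hP' t⟩
  have hsl0 : ∀ t, T' ≤ t → sl t = 0 := fun t ht => Subtype.ext (funext fun x => hT' t ht x)
  -- the interpolants
  let nd : ℝ → ℕ → ℝ := fun h i => ((i : ℝ) - 2) * h
  let Ih : ℝ → ℕ → ℝ → P := fun h N t =>
    ∑ i ∈ Finset.range (N + 1), eta h i t • sl (nd h i)
  let Dh : ℝ → ℕ → ℝ → P := fun h N t =>
    ∑ i ∈ Finset.range (N + 1), (h⁻¹ * dH (t / h + 2 - i)) • sl (nd h i)
  have hIb : ∀ h : ℝ, 0 < h → ∀ N : ℕ, ∀ t : ℝ, 0 ≤ t → t / h + 5 / 2 < N →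
      ∀ x, ‖((Ih h N t - sl t : P) : Eu n → E) x‖ ≤ 9 * K * M * h ∧
        ‖fderiv ℝ ((Ih h N t - sl t : P) : Eu n → E) x‖ ≤ 9 * K * M * h := by
    intro h hh N t ht hN
    refine comb_bounds hΦ hΦ (fun i => hH (t / h + 2 - i)) (nd h) t (by positivity)
      (fun x => (interp_val hΦ m1 m2 hK0 hK1 hK2 hh ht hN x).1)
      (fun x y => ?_) _ ?_
    · refine ((interp_dir hΦ m4 m5 hK0 hK1 hK2 hh ht hN x (0, y)).1).trans ?_
      exact mul_le_mul_of_nonneg_left (norm_dir_x y) (by positivity)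
    · simp [Ih, sl, eta]
  have hDb : ∀ h : ℝ, 0 < h → ∀ N : ℕ, ∀ t : ℝ, 0 ≤ t → t / h + 5 / 2 < N →
      ∀ x, ‖((Dh h N t - dsl t : P) : Eu n → E) x‖ ≤ 9 * K * M * h ∧
        ‖fderiv ℝ ((Dh h N t - dsl t : P) : Eu n → E) x‖ ≤ 9 * K * M * h := by
    intro h hh N t ht hN
    refine comb_bounds hΦ (dT_smooth hΦ) (fun i => h⁻¹ * dH (t / h + 2 - i)) (nd h) t (by positivity)
      (fun x => (interp_val hΦ m1 m2 hK0 hK1 hK2 hh ht hN x).2)
      (fun x y => ?_) _ ?_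
    · refine ((interp_dir hΦ m4 m5 hK0 hK1 hK2 hh ht hN x (0, y)).2).trans ?_
      exact mul_le_mul_of_nonneg_left (norm_dir_x y) (by positivity)
    · simp [Dh, sl, dsl]
  -- bounds of the functionals
  have hsb : ∀ t x, ‖((sl t : P) : Eu n → E) x‖ ≤ M ∧ ‖fderiv ℝ ((sl t : P) : Eu n → E) x‖ ≤ M :=
    fun t x => slice_bounds hΦ m0 m3 t x
  have hdb : ∀ t x, ‖((dsl t : P) : Eu n → E) x‖ ≤ M ∧
      ‖fderiv ℝ ((dsl t : P) : Eu n → E) x‖ ≤ M :=
    fun t x => slice_bounds (dT_smooth hΦ) m1 m4 t x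
  -- the approximating identities
  have hid : ∀ h : ℝ, 0 < h → 4 * h < 1 → T' + 2 * h < T → ∀ N : ℕ,
      (∫ t in Ioo 0 T, (AL t (Dh h N t) + BL t (Ih h N t))) + CL (Ih h N 0) = 0 := by
    intro h hh h4 hT'h N
    have e1 : ∀ t, AL t (Dh h N t) + BL t (Ih h N t) = ∑ i ∈ Finset.range (N + 1),
        (deriv (eta h i) t * AL t (sl (nd h i)) + eta h i t * BL t (sl (nd h i))) := by
      intro t
      simp only [Dh, Ih, map_sum, map_smul, smul_eq_mul]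
      rw [← Finset.sum_add_distrib]
      refine Finset.sum_congr rfl fun i _ => ?_
      rw [(eta_deriv h i t).deriv]
    have e2 : CL (Ih h N 0) = ∑ i ∈ Finset.range (N + 1), eta h i 0 * CL (sl (nd h i)) := by
      simp only [Ih, map_sum, map_smul, smul_eq_mul]
    have hint : ∀ i, IntegrableOn (fun t => deriv (eta h i) t * AL t (sl (nd h i)) +
        eta h i t * BL t (sl (nd h i))) (Ioo 0 T) := by
      intro i
      have hd : deriv (eta h i) = fun t => h⁻¹ * dH (t / h + 2 - i) :=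
        funext fun t => (eta_deriv h i t).deriv
      have hdc : Continuous (deriv (eta h i)) := by
        rw [hd, dH_eq]
        exact continuous_const.mul ((hH_smooth.continuous_deriv (by simp)).comp (by fun_prop))
      have hec : Continuous (eta h i) := hH_smooth.continuous.comp (by fun_prop)
      have hkM : IntegrableOn (fun t => (h⁻¹ * K) * (k t * M) + K * (k t * M)) (Ioo 0 T) :=
        ((hk.mul_const M).const_mul _).add ((hk.mul_const M).const_mul _)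
      refine hkM.mono' ?_ ?_
      · exact (hdc.aestronglyMeasurable.mul (hAm _ (sl (nd h i)).2)).add
          (hec.aestronglyMeasurable.mul (hBm _ (sl (nd h i)).2))
      · filter_upwards [ae_restrict_mem measurableSet_Ioo] with t ht
        have b1 := hAb _ (sl (nd h i)).2 M (hsb _) t ht
        have b2 := hBb _ (sl (nd h i)).2 M (hsb _) t ht
        have b3 : |deriv (eta h i) t| ≤ h⁻¹ * K := by
          rw [hd, abs_mul, abs_of_pos (by positivity : 0 < h⁻¹)]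
          exact mul_le_mul_of_nonneg_left (hK2 _) (by positivity)
        refine (norm_add_le _ _).trans ?_
        rw [norm_mul, norm_mul]
        exact add_le_add (mul_le_mul b3 b1 (norm_nonneg _) (by positivity))
          (mul_le_mul (hK1 _) b2 (norm_nonneg _) hK0)
    simp only [e1]
    rw [integral_finsetSum _ fun i _ => hint i, e2, ← Finset.sum_add_distrib]
    refine Finset.sum_eq_zero fun i _ => ?_
    by_cases hi : nd h i < T'
    · refine heq (eta h i) (eta_isTime hh ?_ ?_) _ (sl (nd h i)).2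
      · have hi0 : (0 : ℝ) ≤ i := Nat.cast_nonneg i
        have : -2 * h ≤ ((i : ℝ) - 2) * h := by nlinarith
        linarith
      · have : ((i : ℝ) - 2) * h < T' := hi
        linarith
    · rw [hsl0 _ (not_lt.1 hi)]
      simp
  -- choice of the mesh
  set hm : ℕ → ℝ := fun m => ((m : ℝ) + 1)⁻¹ with hhm
  have hm0 : ∀ m, 0 < hm m := fun m => by rw [hhm]; positivity
  have hmt : Tendsto hm atTop (𝓝 0) := by
    have := tendsto_one_div_add_atTop_nhds_zero_nat (𝕜 := ℝ)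
    simpa [hhm, one_div] using this
  have hNex : ∀ m, ∃ N : ℕ, T / hm m + 5 / 2 < N := fun m => exists_nat_gt _
  choose Nm hNm using hNex
  have hNt : ∀ m, ∀ t : ℝ, 0 ≤ t → t ≤ T → t / hm m + 5 / 2 < Nm m := by
    intro m t _ ht
    refine lt_of_le_of_lt ?_ (hNm m)
    have := div_le_div_of_nonneg_right ht (hm0 m).le
    linarith
  set am : ℕ → ℝ → ℝ := fun m t => AL t (Dh (hm m) (Nm m) t) + BL t (Ih (hm m) (Nm m) t) with ham
  set a : ℝ → ℝ := fun t => AL t (dsl t) + BL t (sl t) with ha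
  have hdiff : ∀ m, ∀ t ∈ Ioo 0 T, |am m t - a t| ≤ k t * (18 * K * M * hm m) := by
    intro m t ht
    have hN := hNt m t ht.1.le ht.2.le
    have e : am m t - a t = AL t (Dh (hm m) (Nm m) t - dsl t) + BL t (Ih (hm m) (Nm m) t - sl t) := by
      rw [ham, ha]
      simp only [map_sub]
      ring
    rw [e]
    refine (abs_add_le _ _).trans ?_
    have b1 : |AL t (Dh (hm m) (Nm m) t - dsl t)| ≤ k t * (9 * K * M * hm m) :=
      hAb _ (Dh (hm m) (Nm m) t - dsl t).2 _ (hDb _ (hm0 m) _ t ht.1.le hN) t ht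
    have b2 : |BL t (Ih (hm m) (Nm m) t - sl t)| ≤ k t * (9 * K * M * hm m) :=
      hBb _ (Ih (hm m) (Nm m) t - sl t).2 _ (hIb _ (hm0 m) _ t ht.1.le hN) t ht
    linarith
  have hamm : ∀ m, AEStronglyMeasurable (am m) (volume.restrict (Ioo 0 T)) := by
    intro m
    have e1 : am m = fun t => ∑ i ∈ Finset.range (Nm m + 1),
        ((hm m)⁻¹ * dH (t / hm m + 2 - i) * A (fun x => Φ (nd (hm m) i, x)) t +
          eta (hm m) i t * B (fun x => Φ (nd (hm m) i, x)) t) := by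
      funext t
      simp only [ham, Dh, Ih, map_sum, map_smul, smul_eq_mul]
      rw [← Finset.sum_add_distrib]
      rfl
    rw [e1]
    refine Finset.aestronglyMeasurable_fun_sum _ fun i _ => ?_
    have hdc : Continuous fun t : ℝ => (hm m)⁻¹ * dH (t / hm m + 2 - i) := by
      rw [dH_eq]
      exact continuous_const.mul ((hH_smooth.continuous_deriv (by simp)).comp (by fun_prop))
    have hec : Continuous (eta (hm m) i) := hH_smooth.continuous.comp (by fun_prop)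
    exact (hdc.aestronglyMeasurable.mul (hAm _ (hP _))).add
      (hec.aestronglyMeasurable.mul (hBm _ (hP _)))
  have hlimpt : ∀ᵐ t ∂(volume.restrict (Ioo 0 T)), Tendsto (fun m => am m t) atTop (𝓝 (a t)) := by
    filter_upwards [ae_restrict_mem measurableSet_Ioo] with t ht
    rw [tendsto_iff_dist_tendsto_zero]
    have h1 : Tendsto (fun m => k t * (18 * K * M * hm m)) atTop (𝓝 0) := by
      have := (hmt.const_mul (18 * K * M)).const_mul (k t)
      simpa using this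
    refine squeeze_zero (fun _ => dist_nonneg) (fun m => ?_) h1
    rw [Real.dist_eq]
    exact hdiff m t ht
  have ham' : AEStronglyMeasurable a (volume.restrict (Ioo 0 T)) :=
    aestronglyMeasurable_of_tendsto_ae atTop hamm hlimpt
  have hab : ∀ t ∈ Ioo 0 T, |a t| ≤ k t * (2 * M) := by
    intro t ht
    have b1 : |AL t (dsl t)| ≤ k t * M := hAb _ (dsl t).2 _ (hdb t) t ht
    have b2 : |BL t (sl t)| ≤ k t * M := hBb _ (sl t).2 _ (hsb t) t ht
    refine (abs_add_le _ _).trans ?_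
    linarith
  have haint : IntegrableOn a (Ioo 0 T) := by
    refine (hk.mul_const (2 * M)).mono' ham' ?_
    filter_upwards [ae_restrict_mem measurableSet_Ioo] with t ht
    exact hab t ht
  refine ⟨haint, ?_⟩
  -- convergence of the integrals
  have hI : Tendsto (fun m => ∫ t in Ioo 0 T, am m t) atTop (𝓝 (∫ t in Ioo 0 T, a t)) := by
    have hdom : IntegrableOn (fun t => k t * (18 * K * M) + k t * (2 * M)) (Ioo 0 T) :=
      (hk.mul_const _).add (hk.mul_const _)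
    refine tendsto_integral_of_dominated_convergence _ hamm hdom (fun m => ?_) hlimpt
    filter_upwards [ae_restrict_mem measurableSet_Ioo] with t ht
    have h1 := hdiff m t ht
    have h2 := hab t ht
    have h3 : |am m t| ≤ |am m t - a t| + |a t| := by
      have := abs_add_le (am m t - a t) (a t)
      rwa [sub_add_cancel] at this
    have h4 : k t * (18 * K * M * hm m) ≤ k t * (18 * K * M) := by
      refine mul_le_mul_of_nonneg_left ?_ (hk0 t)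
      refine mul_le_of_le_one_right (by positivity) ?_
      rw [hhm]
      exact inv_le_one_of_one_le₀ (by simp)
    rw [Real.norm_eq_abs]
    linarith
  have hCt : Tendsto (fun m => CL (Ih (hm m) (Nm m) 0)) atTop (𝓝 (CL (sl 0))) := by
    rw [tendsto_iff_dist_tendsto_zero]
    have h1 : Tendsto (fun m => C0 * (9 * K * M * hm m)) atTop (𝓝 0) := by
      have := (hmt.const_mul (9 * K * M)).const_mul C0
      simpa using this
    refine squeeze_zero (fun _ => dist_nonneg) (fun m => ?_) h1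
    rw [Real.dist_eq, ← map_sub]
    exact hCb _ (Ih (hm m) (Nm m) 0 - sl 0).2 _ (hIb _ (hm0 m) _ 0 le_rfl
      (hNt m 0 le_rfl hT.le))
  have hsum := hI.add hCt
  have hev : ∀ᶠ m in atTop, (∫ t in Ioo 0 T, am m t) + CL (Ih (hm m) (Nm m) 0) = 0 := by
    have h1 : ∀ᶠ m in atTop, hm m < min (1 / 4) ((T - T') / 2) :=
      hmt.eventually_lt_const (lt_min (by norm_num) (by linarith))
    filter_upwards [h1] with m hm'
    have h2 := hm'.trans_le (min_le_left _ _)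
    have h3 := hm'.trans_le (min_le_right _ _)
    exact hid (hm m) (hm0 m) (by linarith) (by linarith) (Nm m)
  have hz : Tendsto (fun m => (∫ t in Ioo 0 T, am m t) + CL (Ih (hm m) (Nm m) 0)) atTop (𝓝 0) :=
    tendsto_const_nhds.congr' (by filter_upwards [hev] with m hm'; exact hm'.symm)
  exact tendsto_nhds_unique hsum hz

end Pool.Agent.Helper94.Jef
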