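import Mathlib

namespace Pool.Agent.Helper94

/-- A space is `D`-separable if for every sequence of dense subsets `D n` there are sets
`F n ⊆ D n`, each discrete in its subspace topology, whose union is dense. -/
def DSeparable (X : Type*) [TopologicalSpace X] : Prop :=
  ∀ D : ℕ → Set X, (∀ n, Dense (D n)) →
    ∃ F : ℕ → Set X, (∀ n, F n ⊆ D n ∧ DiscreteTopology (F n)) ∧ Dense (⋃ n, F n)

end Pool.Agent.Helper94
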