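import Mathlib
import Pool.Agent.Helper94.DSepDefs
open Set Cardinal

namespace Pool.Agent.Helper94

/-- Countable diagonalisation. -/
theorem diag_exists {I : Type} (d : Finset I) (k : I → ℕ)
    (N : ℕ → Set ℕ) (S : ℕ → ℕ → Finset I) (c : ℕ → ℕ)
    (hS : ∀ j, ∀ m n, m ≠ n → Disjoint (S j m) (S j n)) :
    ∃ f : I → ℕ, (∀ a ∈ d, f a = k a) ∧
      ∀ j, (N j).Infinite → {n | n ∈ N j ∧ ∀ a ∈ S j n, f a = c j}.Infinite := by
  classical
  -- enumeration of tasks
  have hpick : ∀ (U : Finset I) (j m : ℕ), (N j).Infinite →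
      ∃ n ∈ N j, m < n ∧ Disjoint (S j n) U := by
    intro U j m hN
    have hfin : {n | ¬ Disjoint (S j n) U}.Finite := by
      have : {n | ¬ Disjoint (S j n) U} ⊆ ⋃ a ∈ U, {n | a ∈ S j n} := by
        intro n hn
        simp only [mem_ofPred_eq, Finset.not_disjoint_iff] at hn
        obtain ⟨a, ha1, ha2⟩ := hn
        simp only [mem_iUnion]
        exact ⟨a, ha2, ha1⟩
      refine Set.Finite.subset ?_ this
      refine Set.Finite.biUnion U.finite_toSet ?_
      intro a _
      apply Set.Subsingleton.finite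
      intro m hm n hn
      by_contra hne
      exact Finset.disjoint_left.1 (hS j m n hne) hm hn
    have hinf : (N j \ ({n | ¬ Disjoint (S j n) U} ∪ Set.Iic m)).Infinite :=
      hN.sdiff (hfin.union (Set.finite_Iic m))
    obtain ⟨n, hn⟩ := hinf.nonempty
    refine ⟨n, hn.1, ?_, ?_⟩
    · by_contra h
      exact hn.2 (Or.inr (not_lt.1 h))
    · by_contra h
      exact hn.2 (Or.inl h)
  -- choice of next index
  let g : Finset I → ℕ → ℕ := fun U l =>
    if h : (N l.unpair.1).Infinite then Classical.choose (hpick U l.unpair.1 l.unpair.2 h) else 0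
  have hg : ∀ U l, (N l.unpair.1).Infinite →
      g U l ∈ N l.unpair.1 ∧ l.unpair.2 < g U l ∧ Disjoint (S l.unpair.1 (g U l)) U := by
    intro U l h
    have := Classical.choose_spec (hpick U l.unpair.1 l.unpair.2 h)
    simp only [g, dif_pos h]
    exact this
  let blk : Finset I → ℕ → Finset I := fun U l =>
    if (N l.unpair.1).Infinite then S l.unpair.1 (g U l) else ∅
  let U : ℕ → Finset I := fun l => Nat.rec d (fun l V => V ∪ blk V l) l
  have hU0 : U 0 = d := rfl
  have hUs : ∀ l, U (l + 1) = U l ∪ blk (U l) l := fun l => rfl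
  have hUmono : ∀ l l', l ≤ l' → U l ⊆ U l' := by
    intro l l' h
    induction h with
    | refl => exact Finset.Subset.refl _
    | step _ ih => rw [hUs]; exact ih.trans Finset.subset_union_left
  have hblkdisj : ∀ l, Disjoint (blk (U l) l) (U l) := by
    intro l
    by_cases h : (N l.unpair.1).Infinite
    · simp only [blk, if_pos h]
      exact (hg (U l) l h).2.2
    · simp only [blk, if_neg h]
      exact Finset.disjoint_empty_left _
  have huniq : ∀ l l' a, a ∈ blk (U l) l → a ∈ blk (U l') l' → l = l' := by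
    intro l l' a h1 h2
    by_contra hne
    rcases lt_or_gt_of_ne hne with h | h
    · have : a ∈ U l' := hUmono (l+1) l' h (by rw [hUs]; exact Finset.mem_union_right _ h1)
      exact Finset.disjoint_left.1 (hblkdisj l') h2 this
    · have : a ∈ U l := hUmono (l'+1) l h (by rw [hUs]; exact Finset.mem_union_right _ h2)
      exact Finset.disjoint_left.1 (hblkdisj l) h1 this
  let f : I → ℕ := fun a => if a ∈ d then k a else
    if h : ∃ l, a ∈ blk (U l) l then c (Classical.choose h).unpair.1 else 0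
  refine ⟨f, ?_, ?_⟩
  · intro a ha
    simp only [f, if_pos ha]
  · intro j hj
    apply Set.infinite_of_forall_exists_gt
    intro m
    set l := Nat.pair j m with hl
    have hl1 : l.unpair.1 = j := by simp [hl]
    have hl2 : l.unpair.2 = m := by simp [hl]
    have hinf : (N l.unpair.1).Infinite := by rw [hl1]; exact hj
    obtain ⟨h1, h2, h3⟩ := hg (U l) l hinf
    refine ⟨g (U l) l, ⟨?_, ?_⟩, ?_⟩
    · rw [← hl1]; exact h1
    · intro a ha
      have hab : a ∈ blk (U l) l := by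
        simp only [blk, if_pos hinf]; rw [hl1]; exact ha
      have had : a ∉ d := by
        intro had
        exact Finset.disjoint_left.1 (hblkdisj l) hab (hUmono 0 l (Nat.zero_le _) (by rw [hU0]; exact had))
      have hex : ∃ l, a ∈ blk (U l) l := ⟨l, hab⟩
      simp only [f, if_neg had, dif_pos hex]
      have := huniq _ l a (Classical.choose_spec hex) hab
      rw [this, hl1]
    · rw [← hl2]; exact h2


/-- The requirement on column `β`, given the previous columns. -/
def ColReq {I : Type} [LinearOrder I] (E : I → (ℕ → Finset I)) (R : I → Finset (I × ℕ))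
    (β : I) (prev : I → (I → ℕ)) (f : I → ℕ) : Prop :=
  (∀ a n, (a, n) ∈ R β → (∀ n', (a, n') ∈ R β → n' = n) → f a = n) ∧
  ∀ γ < β, ∀ c : ℕ, ∀ b : Finset I, (∀ β' ∈ b, β' < β) →
    (∀ m n, m ≠ n → Disjoint (E γ m) (E γ n)) →
    {n | ∀ α ∈ E γ n, ∀ β' ∈ b, prev β' α = c}.Infinite →
    {n | (∀ α ∈ E γ n, ∀ β' ∈ b, prev β' α = c) ∧ ∀ α ∈ E γ n, f α = c}.Infinite

theorem colReq_exists {I : Type} [LinearOrder I] (hI : ∀ i : I, (Set.Iio i).Countable)
    (E : I → (ℕ → Finset I)) (R : I → Finset (I × ℕ))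
    (β : I) (prev : I → (I → ℕ)) : ∃ f, ColReq E R β prev f := by
  classical
  have : Countable (Set.Iio β) := (hI β).to_subtype
  obtain ⟨e, he⟩ := exists_surjective_nat (Option ((Set.Iio β) × ℕ × Finset (Set.Iio β)))
  let PD : I → Prop := fun γ => ∀ m n, m ≠ n → Disjoint (E γ m) (E γ n)
  let N' : Option ((Set.Iio β) × ℕ × Finset (Set.Iio β)) → Set ℕ := fun o =>
    match o with
    | none => ∅
    | some (γ, c, b) => {n | ∀ α ∈ E γ.1 n, ∀ β' ∈ b, prev β'.1 α = c}
  let S' : Option ((Set.Iio β) × ℕ × Finset (Set.Iio β)) → ℕ → Finset I := fun o =>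
    match o with
    | none => fun _ => ∅
    | some (γ, _, _) => if PD γ.1 then E γ.1 else fun _ => ∅
  let c' : Option ((Set.Iio β) × ℕ × Finset (Set.Iio β)) → ℕ := fun o =>
    match o with
    | none => 0
    | some (_, c, _) => c
  let k : I → ℕ := fun a => if h : ∃ n, (a, n) ∈ R β then Classical.choose h else 0
  obtain ⟨f, hf1, hf2⟩ := diag_exists ((R β).image Prod.fst) k
    (fun j => N' (e j)) (fun j => S' (e j)) (fun j => c' (e j)) (by
      intro j m n hmn
      rcases h : e j with _ | ⟨γ, c, b⟩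
      · simp [S']
      · simp only [S']
        by_cases hP : PD γ.1
        · rw [if_pos hP]; exact hP m n hmn
        · rw [if_neg hP]; exact Finset.disjoint_empty_left _)
  refine ⟨f, ?_, ?_⟩
  · intro a n hn huniq
    have ha : a ∈ (R β).image Prod.fst := Finset.mem_image.2 ⟨(a, n), hn, rfl⟩
    rw [hf1 a ha]
    have hex : ∃ n, (a, n) ∈ R β := ⟨n, hn⟩
    simp only [k, dif_pos hex]
    exact huniq _ (Classical.choose_spec hex)
  · intro γ hγ c b hb hPD hinf
    let b' : Finset (Set.Iio β) := b.subtype (fun x => x ∈ Set.Iio β)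
    obtain ⟨j, hj⟩ := he (some (⟨γ, hγ⟩, c, b'))
    have hmem : ∀ α, (∀ β' ∈ b', prev β'.1 α = c) ↔ (∀ β' ∈ b, prev β' α = c) := by
      intro α
      constructor
      · intro h β' hβ'
        exact h ⟨β', hb β' hβ'⟩ (by simp only [b', Finset.mem_subtype]; exact hβ')
      · intro h β' hβ'
        exact h β'.1 (by simpa only [b', Finset.mem_subtype] using hβ')
    have h2 := hf2 j
    simp only [hj] at h2
    have hN : N' (some (⟨γ, hγ⟩, c, b')) = {n | ∀ α ∈ E γ n, ∀ β' ∈ b, prev β' α = c} := by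
      ext n
      show (∀ α ∈ E γ n, ∀ β' ∈ b', prev β'.1 α = c) ↔ (∀ α ∈ E γ n, ∀ β' ∈ b, prev β' α = c)
      constructor
      · intro h α hα; exact (hmem α).1 (h α hα)
      · intro h α hα; exact (hmem α).2 (h α hα)
    have hS : S' (some (⟨γ, hγ⟩, c, b')) = E γ := by
      show (if PD γ then E γ else fun _ => ∅) = E γ
      rw [if_pos hPD]
    rw [hN, hS] at h2
    have h3 := h2 hinf
    refine h3.mono ?_
    intro n hn
    exact ⟨hn.1, hn.2⟩

/-- The Galvin-type colouring: `K β` is the column at `β`. -/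
theorem galvin_exists {I : Type} [LinearOrder I] [WellFoundedLT I]
    (hI : ∀ i : I, (Set.Iio i).Countable)
    (E : I → (ℕ → Finset I)) (R : I → Finset (I × ℕ)) :
    ∃ K : I → (I → ℕ), ∀ β, ColReq E R β K (K β) := by
  classical
  let F : (β : I) → ((y : I) → y < β → (I → ℕ)) → (I → ℕ) := fun β ih =>
    Classical.choose (colReq_exists hI E R β
      (fun β' => if h : β' < β then ih β' h else fun _ => 0))
  let K : I → (I → ℕ) := (wellFounded_lt (α := I)).fix F
  have hK : ∀ β, K β = F β (fun y _ => K y) := fun β => WellFounded.fix_eq _ F β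
  refine ⟨K, ?_⟩
  intro β
  have hspec := Classical.choose_spec (colReq_exists hI E R β
      (fun β' => if h : β' < β then K β' else fun _ => 0))
  have hKβ : K β = Classical.choose (colReq_exists hI E R β
      (fun β' => if h : β' < β then K β' else fun _ => 0)) := hK β
  rw [← hKβ] at hspec
  refine ⟨hspec.1, ?_⟩
  intro γ hγ c b hb hPD hinf
  have heq : ∀ n, (∀ α ∈ E γ n, ∀ β' ∈ b,
      (if h : β' < β then K β' else fun _ => 0) α = c) ↔ (∀ α ∈ E γ n, ∀ β' ∈ b, K β' α = c) := by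
    intro n
    constructor
    · intro h α hα β' hβ'
      have := h α hα β' hβ'
      rwa [dif_pos (hb β' hβ')] at this
    · intro h α hα β' hβ'
      rw [dif_pos (hb β' hβ')]
      exact h α hα β' hβ'
  have h1 := hspec.2 γ hγ c b hb hPD (by
    refine hinf.mono ?_
    intro n hn
    exact (heq n).2 hn)
  refine h1.mono ?_
  intro n hn
  exact ⟨(heq n).1 hn.1, hn.2⟩

/-- Galvin property for point-countable families. -/
theorem galvin_prop {I : Type} [LinearOrder I]
    (hI : ∀ i : I, (Set.Iic i).Countable)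
    (E : I → (ℕ → Finset I)) (hE : Function.Surjective E) (R : I → Finset (I × ℕ))
    (K : I → (I → ℕ)) (hK : ∀ β, ColReq E R β K (K β))
    {P : Type} (A : Set P) (hA : ¬ A.Countable) (supp : P → Finset I)
    (hpc : ∀ a, {p | p ∈ A ∧ a ∈ supp p}.Countable) (c : ℕ) :
    ∃ p ∈ A, ∃ q ∈ A, p ≠ q ∧ ∀ α ∈ supp p, ∀ β ∈ supp q, α < β ∧ K β α = c := by
  classical
  have hmeet : ∀ C : Set I, C.Countable → {p | p ∈ A ∧ ∃ a ∈ C, a ∈ supp p}.Countable := by
    intro C hC
    have : {p | p ∈ A ∧ ∃ a ∈ C, a ∈ supp p} ⊆ ⋃ a ∈ C, {p | p ∈ A ∧ a ∈ supp p} := by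
      rintro p ⟨hp, a, ha, hap⟩
      simp only [mem_iUnion]
      exact ⟨a, ha, hp, hap⟩
    exact (hC.biUnion (fun a _ => hpc a)).mono this
  have hnon : ∀ C : Set P, C.Countable → ∃ p ∈ A, p ∉ C := by
    intro C hC
    by_contra hcon
    push Not at hcon
    exact hA (hC.mono hcon)
  obtain ⟨s, hs1, hs2⟩ := exists_seq_of_forall_finset_exists (fun p : P => p ∈ A)
    (fun p q => Disjoint (supp p) (supp q) ∧ p ≠ q) (by
      intro t _
      obtain ⟨q, hqA, hq⟩ := hnon ({p | p ∈ A ∧ ∃ a ∈ (⋃ x ∈ t, (supp x : Set I)), a ∈ supp p} ∪ (t : Set P))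
        ((hmeet _ ((t.countable_toSet).biUnion (fun x _ => (supp x).countable_toSet))).union
          t.countable_toSet)
      refine ⟨q, hqA, ?_⟩
      intro x hx
      constructor
      · rw [Finset.disjoint_left]
        intro a hax haq
        apply hq
        left
        refine ⟨hqA, a, ?_, haq⟩
        simp only [mem_iUnion]
        exact ⟨x, hx, hax⟩
      · rintro rfl
        exact hq (Or.inr hx))
  obtain ⟨γ, hγ⟩ := hE (fun n => supp (s n))
  have hdisj : ∀ m n, m ≠ n → Disjoint (E γ m) (E γ n) := by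
    intro m n hmn
    rw [hγ]
    rcases lt_or_gt_of_ne hmn with h | h
    · exact (hs2 m n h).1
    · exact (hs2 n m h).1.symm
  let C : Set I := Set.Iic γ ∪ ⋃ n, ⋃ a ∈ supp (s n), Set.Iic a
  have hC : C.Countable := (hI γ).union (countable_iUnion fun n =>
    ((supp (s n)).countable_toSet).biUnion (fun a _ => hI a))
  obtain ⟨q, hqA, hq⟩ := hnon ({p | p ∈ A ∧ ∃ a ∈ C, a ∈ supp p} ∪ Set.range s)
    ((hmeet C hC).union (countable_range s))
  have hqC : ∀ β ∈ supp q, β ∉ C := by
    intro β hβ hβC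
    exact hq (Or.inl ⟨hqA, β, hβC, hβ⟩)
  have hγβ : ∀ β ∈ supp q, γ < β := by
    intro β hβ
    by_contra h
    exact hqC β hβ (Or.inl (not_lt.1 h))
  have key : ∀ b : Finset I, b ⊆ supp q →
      {n | ∀ α ∈ E γ n, ∀ β' ∈ b, K β' α = c}.Infinite := by
    intro b
    induction b using Finset.induction_on_max with
    | empty =>
      intro _
      have : {n | ∀ α ∈ E γ n, ∀ β' ∈ (∅ : Finset I), K β' α = c} = Set.univ := by
        ext n; simp
      rw [this]
      exact Set.infinite_univ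
    | insert β b hb ih =>
      intro hsub
      have h1 := ih ((Finset.subset_insert β b).trans hsub)
      have h2 := (hK β).2 γ (hγβ β (hsub (Finset.mem_insert_self β b))) c b hb hdisj h1
      refine h2.mono ?_
      rintro n ⟨hn1, hn2⟩ α hα β' hβ'
      rcases Finset.mem_insert.1 hβ' with rfl | h
      · exact hn2 α hα
      · exact hn1 α hα β' h
  obtain ⟨n, hn⟩ := (key (supp q) (Finset.Subset.refl _)).nonempty
  refine ⟨s n, hs1 n, q, hqA, ?_, ?_⟩
  · rintro rfl
    exact hq (Or.inr ⟨n, rfl⟩)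
  · intro α hα β hβ
    constructor
    · by_contra h
      apply hqC β hβ
      right
      simp only [mem_iUnion]
      exact ⟨n, α, hα, not_lt.1 h⟩
    · have hα' : α ∈ E γ n := by rw [hγ]; exact hα
      exact hn α hα' β hβ


theorem unc_fiber {P C : Type} [Countable C] (A : Set P) (hA : ¬ A.Countable) (f : P → C) :
    ∃ c, ¬ {p | p ∈ A ∧ f p = c}.Countable := by
  by_contra h
  push Not at h
  apply hA
  have : A = ⋃ c, {p | p ∈ A ∧ f p = c} := by
    ext p; simp
  rw [this]
  exact countable_iUnion h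

theorem root_exists {I P : Type} [DecidableEq I] (n : ℕ) : ∀ (A : Set P) (supp : P → Finset I),
    ¬ A.Countable → (∀ p ∈ A, (supp p).card ≤ n) →
    ∃ r : Finset I, ∃ A' ⊆ A, ¬ A'.Countable ∧ (∀ p ∈ A', r ⊆ supp p) ∧
      ∀ a ∉ r, {p | p ∈ A' ∧ a ∈ supp p}.Countable := by
  induction n with
  | zero =>
    intro A supp hA hcard
    refine ⟨∅, A, Subset.rfl, hA, by simp, ?_⟩
    intro a _
    have : {p | p ∈ A ∧ a ∈ supp p} = ∅ := by
      ext p
      constructor
      · rintro ⟨hp, ha⟩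
        have h0 : supp p = ∅ := Finset.card_eq_zero.1 (Nat.le_zero.1 (hcard p hp))
        rw [h0] at ha
        exact absurd ha (Finset.notMem_empty a)
      · intro h
        exact absurd h (Set.notMem_empty p)
    rw [this]
    exact countable_empty
  | succ n ih =>
    intro A supp hA hcard
    by_cases hall : ∀ a, {p | p ∈ A ∧ a ∈ supp p}.Countable
    · exact ⟨∅, A, Subset.rfl, hA, by simp, fun a _ => hall a⟩
    · push Not at hall
      obtain ⟨a, ha⟩ := hall
      obtain ⟨r, A', hA', hunc, hr, hpc⟩ := ih {p | p ∈ A ∧ a ∈ supp p}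
        (fun p => (supp p).erase a) ha (by
          rintro p ⟨hp, hap⟩
          rw [Finset.card_erase_of_mem hap]
          have := hcard p hp
          omega)
      refine ⟨insert a r, A', fun p hp => (hA' hp).1, hunc, ?_, ?_⟩
      · intro p hp x hx
        rcases Finset.mem_insert.1 hx with rfl | hx
        · exact (hA' hp).2
        · exact Finset.mem_of_mem_erase (hr p hp hx)
      · intro b hb
        have hba : b ≠ a := fun h => hb (h ▸ Finset.mem_insert_self _ _)
        have hbr : b ∉ r := fun h => hb (Finset.mem_insert_of_mem h)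
        refine (hpc b hbr).mono ?_
        rintro p ⟨hp, hbp⟩
        exact ⟨hp, Finset.mem_erase.2 ⟨hba, hbp⟩⟩

section Cliques

variable {I : Type} [LinearOrder I]

/-- colour number `i` of the pair `a, b`. -/
def col (K : I → I → ℕ) (dec : ℕ → ℕ → ℕ) (i : ℕ) (a b : I) : ℕ :=
  dec (K (max a b) (min a b)) i

theorem col_symm (K : I → I → ℕ) (dec : ℕ → ℕ → ℕ) (i : ℕ) (a b : I) :
    col K dec i a b = col K dec i b a := by
  unfold col; rw [max_comm, min_comm]

theorem col_lt (K : I → I → ℕ) (dec : ℕ → ℕ → ℕ) (i : ℕ) {a b : I} (h : a < b) :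
    col K dec i a b = dec (K b a) i := by
  unfold col; rw [max_eq_right h.le, min_eq_left h.le]

/-- Adjacency of labelled ordinals. -/
def Adj (K : I → I → ℕ) (dec : ℕ → ℕ → ℕ) (x y : ℕ × ℕ × I) : Prop :=
  x.1 = y.1 → (x.2.1 = y.2.1 ∧ (x.2.2 ≠ y.2.2 → col K dec x.1 x.2.2 y.2.2 = x.2.1))

theorem Adj.symm {K : I → I → ℕ} {dec : ℕ → ℕ → ℕ} {x y : ℕ × ℕ × I} (h : Adj K dec x y) :
    Adj K dec y x := by
  intro he
  obtain ⟨h1, h2⟩ := h he.symm
  refine ⟨h1.symm, fun hne => ?_⟩
  rw [col_symm, ← he.symm, ← h1]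
  exact h2 (fun h => hne h.symm)

theorem Adj.refl (K : I → I → ℕ) (dec : ℕ → ℕ → ℕ) (x : ℕ × ℕ × I) : Adj K dec x x :=
  fun _ => ⟨rfl, fun h => absurd rfl h⟩

/-- Cliques. -/
def Clique (K : I → I → ℕ) (dec : ℕ → ℕ → ℕ) (s : Set (ℕ × ℕ × I)) : Prop :=
  ∀ x ∈ s, ∀ y ∈ s, Adj K dec x y

theorem Clique.mono {K : I → I → ℕ} {dec : ℕ → ℕ → ℕ} {s t : Set (ℕ × ℕ × I)}
    (h : Clique K dec t) (hst : s ⊆ t) : Clique K dec s :=
  fun x hx y hy => h x (hst hx) y (hst hy)

theorem ccc (K : I → I → ℕ) (dec : ℕ → ℕ → ℕ)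
    (hdec : ∀ (m : ℕ → ℕ) (s : Finset ℕ), ∃ v, ∀ i ∈ s, dec v i = m i)
    (hGP : ∀ (A : Set (Finset (ℕ × ℕ × I))), ¬ A.Countable →
      ∀ supp : Finset (ℕ × ℕ × I) → Finset I,
      (∀ a, {p | p ∈ A ∧ a ∈ supp p}.Countable) → ∀ c : ℕ,
      ∃ p ∈ A, ∃ q ∈ A, p ≠ q ∧ ∀ α ∈ supp p, ∀ β ∈ supp q, α < β ∧ K β α = c)
    (A : Set (Finset (ℕ × ℕ × I))) (hA : ¬ A.Countable)
    (hcl : ∀ p ∈ A, Clique K dec (p : Set (ℕ × ℕ × I))) :
    ∃ p ∈ A, ∃ q ∈ A, p ≠ q ∧ Clique K dec ((p : Set (ℕ × ℕ × I)) ∪ q) := by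
  classical
  -- fix the type
  obtain ⟨τ, hτ⟩ := unc_fiber A hA
    (fun p : Finset (ℕ × ℕ × I) => (p.image (fun x => (x.1, x.2.1)) : Finset (ℕ × ℕ)))
  -- fix the size of the support
  let supp : Finset (ℕ × ℕ × I) → Finset I := fun p => p.image (fun x => x.2.2)
  obtain ⟨n, hn⟩ := unc_fiber _ hτ (fun p => (supp p).card)
  obtain ⟨r, A', hA', hunc, hr, hpc⟩ := root_exists n _ supp hn (by
    rintro p ⟨_, hp⟩
    exact hp.le)
  -- fix the part over the root
  let emb : ℕ × ℕ × {a // a ∈ r} → ℕ × ℕ × I := fun y => (y.1, y.2.1, y.2.2.1)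
  have hemb : Function.Injective emb := by
    rintro ⟨i, m, a⟩ ⟨j, m', b⟩ h
    simp only [emb, Prod.mk.injEq] at h
    obtain ⟨h1, h2, h3⟩ := h
    rw [h1, h2, Subtype.ext h3]
  obtain ⟨ρ, hρ⟩ := unc_fiber A' hunc
    (fun p : Finset (ℕ × ℕ × I) => (p.preimage emb hemb.injOn : Finset (ℕ × ℕ × {a // a ∈ r})))
  let A'' : Set (Finset (ℕ × ℕ × I)) := {p | p ∈ A' ∧ p.preimage emb hemb.injOn = ρ}
  have hroot : ∀ p ∈ A'', ∀ x : ℕ × ℕ × I, ∀ hx : x.2.2 ∈ r,
      (x ∈ p ↔ ((x.1, x.2.1, ⟨x.2.2, hx⟩) : ℕ × ℕ × {a // a ∈ r}) ∈ ρ) := by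
    rintro p ⟨_, hp⟩ x hx
    rw [← hp, Finset.mem_preimage]
  have hsame : ∀ p ∈ A'', ∀ q ∈ A'', ∀ x : ℕ × ℕ × I, x.2.2 ∈ r → x ∈ p → x ∈ q := by
    intro p hp q hq x hx hxp
    exact (hroot q hq x hx).2 ((hroot p hp x hx).1 hxp)
  have hsubA : ∀ p ∈ A'', p ∈ A ∧ p.image (fun x => (x.1, x.2.1)) = τ := by
    intro p hp
    exact (hA' hp.1).1
  -- the common colour
  have hmfun : ∃ m : ℕ → ℕ, ∀ y ∈ τ, m y.1 = y.2 := by
    obtain ⟨p, hp⟩ : A''.Nonempty := by
      rw [Set.nonempty_iff_ne_empty]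
      intro h
      apply hρ
      have h' : {p | p ∈ A' ∧ p.preimage emb hemb.injOn = ρ} = ∅ := h
      rw [h']
      exact countable_empty
    obtain ⟨hpA, hpτ⟩ := hsubA p hp
    refine ⟨fun i => if h : ∃ v, (i, v) ∈ τ then Classical.choose h else 0, ?_⟩
    rintro ⟨i, v⟩ hy
    have hex : ∃ v, (i, v) ∈ τ := ⟨v, hy⟩
    simp only [dif_pos hex]
    have h1 := Classical.choose_spec hex
    set w := Classical.choose hex
    rw [← hpτ, Finset.mem_image] at h1 hy
    obtain ⟨x, hx, hx2⟩ := h1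
    obtain ⟨x', hx', hx2'⟩ := hy
    have hadj := hcl p hpA x hx x' hx'
    have e1 : x.1 = i := congrArg Prod.fst hx2
    have e2 : x.2.1 = w := congrArg Prod.snd hx2
    have e3 : x'.1 = i := congrArg Prod.fst hx2'
    have e4 : x'.2.1 = v := congrArg Prod.snd hx2'
    rw [← e2, ← e4]
    exact (hadj (e1.trans e3.symm)).1
  obtain ⟨m, hm⟩ := hmfun
  obtain ⟨c, hc⟩ := hdec m (τ.image Prod.fst)
  obtain ⟨p, hp, q, hq, hpq, hK⟩ := hGP A'' hρ
    (fun p => supp p \ r) (by
      intro a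
      by_cases har : a ∈ r
      · have : {p | p ∈ A'' ∧ a ∈ supp p \ r} = ∅ := by
          ext p
          constructor
          · rintro ⟨_, h⟩
            exact absurd har (Finset.mem_sdiff.1 h).2
          · intro h
            exact absurd h (Set.notMem_empty p)
        rw [this]; exact countable_empty
      · refine (hpc a har).mono ?_
        rintro p ⟨hp, h⟩
        exact ⟨hp.1, (Finset.mem_sdiff.1 h).1⟩) c
  obtain ⟨hpA, hpτ⟩ := hsubA p hp
  obtain ⟨hqA, hqτ⟩ := hsubA q hq
  have hcross : ∀ x ∈ p, ∀ y ∈ q, Adj K dec x y := by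
    intro x hx y hy
    by_cases hxr : x.2.2 ∈ r
    · exact hcl q hqA x (hsame p hp q hq x hxr hx) y hy
    by_cases hyr : y.2.2 ∈ r
    · exact hcl p hpA x hx y (hsame q hq p hp y hyr hy)
    intro hi
    have hxτ : (x.1, x.2.1) ∈ τ := by
      rw [← hpτ]; exact Finset.mem_image_of_mem _ hx
    have hyτ : (y.1, y.2.1) ∈ τ := by
      rw [← hqτ]; exact Finset.mem_image_of_mem _ hy
    have hmx : m x.1 = x.2.1 := hm _ hxτ
    have hmy : m y.1 = y.2.1 := hm _ hyτ
    refine ⟨by rw [← hmx, ← hmy, hi], ?_⟩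
    intro _
    have hxs : x.2.2 ∈ supp p \ r :=
      Finset.mem_sdiff.2 ⟨Finset.mem_image.2 ⟨x, hx, rfl⟩, hxr⟩
    have hys : y.2.2 ∈ supp q \ r :=
      Finset.mem_sdiff.2 ⟨Finset.mem_image.2 ⟨y, hy, rfl⟩, hyr⟩
    obtain ⟨hlt, hKc⟩ := hK _ hxs _ hys
    rw [col_lt K dec x.1 hlt, hKc, hc x.1 (Finset.mem_image.2 ⟨_, hxτ, rfl⟩), hmx]
  refine ⟨p, hpA, q, hqA, hpq, ?_⟩
  rintro x (hx | hx) y (hy | hy)
  · exact hcl p hpA x hx y hy
  · exact hcross x hx y hy
  · exact (hcross y hy x hx).symm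
  · exact hcl q hqA x hx y hy

end Cliques


section Build

variable {I : Type} [LinearOrder I]

theorem ss_lemma (K : I → I → ℕ) (dec : ℕ → ℕ → ℕ)
    (hdec : ∀ (m : ℕ → ℕ) (s : Finset ℕ), ∃ v, ∀ i ∈ s, dec v i = m i)
    (hPP : ∀ (d : Finset I) (k : I → ℕ), ∃ β, (∀ a ∈ d, a < β) ∧ ∀ a ∈ d, K β a = k a)
    (p F : Finset (ℕ × ℕ × I)) (hp : Clique K dec (p : Set (ℕ × ℕ × I)))
    (hpF : ∀ f ∈ F, f ∉ p) :
    ∃ q : Finset (ℕ × ℕ × I), p ⊆ q ∧ Clique K dec (q : Set (ℕ × ℕ × I)) ∧
      ∀ f ∈ F, ∃ g ∈ q, ¬ Adj K dec f g := by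
  classical
  let idx : Finset ℕ := (p ∪ F).image (fun x => x.1)
  let m' : ℕ → ℕ := fun i => if h : ∃ x ∈ p, x.1 = i then (Classical.choose h).2.1
    else F.sup (fun x => x.2.1) + 1
  have hm1 : ∀ x ∈ p, m' x.1 = x.2.1 := by
    intro x hx
    have hex : ∃ y ∈ p, y.1 = x.1 := ⟨x, hx, rfl⟩
    simp only [m', dif_pos hex]
    obtain ⟨h1, h2⟩ := Classical.choose_spec hex
    exact (hp _ h1 x hx h2).1
  have hm2 : ∀ f ∈ F, (¬ ∃ x ∈ p, x.1 = f.1) → f.2.1 < m' f.1 := by
    intro f hf hne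
    simp only [m', dif_neg hne]
    exact Nat.lt_succ_of_le (Finset.le_sup (f := fun x : ℕ × ℕ × I => x.2.1) hf)
  have hcode : ∀ α : I, ∃ v, ∀ i ∈ idx, dec v i = if (i, m' i, α) ∈ p then m' i else m' i + 1 :=
    fun α => hdec _ idx
  choose k hk using hcode
  obtain ⟨β, hβ1, hβ2⟩ := hPP ((p ∪ F).image (fun x => x.2.2)) k
  have hidx : ∀ x ∈ p ∪ F, x.1 ∈ idx := fun x hx => Finset.mem_image.2 ⟨x, hx, rfl⟩
  have hlt : ∀ x ∈ p ∪ F, x.2.2 < β := fun x hx => hβ1 _ (Finset.mem_image.2 ⟨x, hx, rfl⟩)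
  have hcol : ∀ x ∈ p ∪ F, col K dec x.1 x.2.2 β =
      if (x.1, m' x.1, x.2.2) ∈ p then m' x.1 else m' x.1 + 1 := by
    intro x hx
    rw [col_lt K dec x.1 (hlt x hx), hβ2 _ (Finset.mem_image.2 ⟨x, hx, rfl⟩),
      hk _ _ (hidx x hx)]
  refine ⟨p ∪ idx.image (fun i => (i, m' i, β)), Finset.subset_union_left, ?_, ?_⟩
  · have hnew : ∀ x ∈ p, ∀ i : ℕ, Adj K dec x (i, m' i, β) := by
      intro x hx i hi
      have hi' : x.1 = i := hi
      subst hi'
      refine ⟨(hm1 x hx).symm, fun _ => ?_⟩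
      have := hcol x (Finset.mem_union_left _ hx)
      show col K dec x.1 x.2.2 β = x.2.1
      rw [this]
      have hxe : (x.1, m' x.1, x.2.2) = x := by
        rw [hm1 x hx]
      rw [hxe, if_pos hx, hm1 x hx]
    intro x hx y hy
    rw [Finset.coe_union] at hx hy
    rcases hx with hx | hx <;> rcases hy with hy | hy
    · exact hp x hx y hy
    · obtain ⟨i, _, rfl⟩ := Finset.mem_image.1 (Finset.mem_coe.1 hy)
      exact hnew x hx i
    · obtain ⟨i, _, rfl⟩ := Finset.mem_image.1 (Finset.mem_coe.1 hx)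
      exact (hnew y hy i).symm
    · obtain ⟨i, _, rfl⟩ := Finset.mem_image.1 (Finset.mem_coe.1 hx)
      obtain ⟨j, _, rfl⟩ := Finset.mem_image.1 (Finset.mem_coe.1 hy)
      intro hij
      have hij' : i = j := hij
      subst hij'
      exact Adj.refl K dec _ rfl
  · intro f hf
    refine ⟨(f.1, m' f.1, β), Finset.mem_union_right _
      (Finset.mem_image.2 ⟨f.1, hidx f (Finset.mem_union_right _ hf), rfl⟩), ?_⟩
    intro hadj
    obtain ⟨h1, h2⟩ := hadj rfl
    have h1' : f.2.1 = m' f.1 := h1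
    by_cases hex : ∃ x ∈ p, x.1 = f.1
    · have hne : f.2.2 ≠ β := (hlt f (Finset.mem_union_right _ hf)).ne
      have h3 : col K dec f.1 f.2.2 β = f.2.1 := h2 hne
      rw [hcol f (Finset.mem_union_right _ hf)] at h3
      have hfe : (f.1, m' f.1, f.2.2) = f := by rw [← h1']
      rw [hfe, if_neg (hpF f hf)] at h3
      omega
    · have := hm2 f hf hex
      omega

theorem rs_lemma (K : I → I → ℕ) (dec : ℕ → ℕ → ℕ) (D : ℕ → ℕ → Finset (ℕ × ℕ × I))
    (hD : ∀ j, ∀ r : Finset (ℕ × ℕ × I), Clique K dec (r : Set (ℕ × ℕ × I)) →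
      ∃ n, Clique K dec ((r : Set (ℕ × ℕ × I)) ∪ D j n))
    (p : Finset (ℕ × ℕ × I)) (hp : Clique K dec (p : Set (ℕ × ℕ × I))) :
    ∃ x : Set (ℕ × ℕ × I), x.Countable ∧ Clique K dec x ∧ (p : Set (ℕ × ℕ × I)) ⊆ x ∧
      ∀ j, ∃ n, ((D j n : Finset (ℕ × ℕ × I)) : Set (ℕ × ℕ × I)) ⊆ x := by
  classical
  let Q := {r : Finset (ℕ × ℕ × I) // Clique K dec (r : Set (ℕ × ℕ × I))}
  let step : Q → ℕ → Q := fun r j => ⟨r.1 ∪ D j (Classical.choose (hD j r.1 r.2)), by
    rw [Finset.coe_union]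
    exact Classical.choose_spec (hD j r.1 r.2)⟩
  let s : ℕ → Q := fun n => Nat.rec ⟨p, hp⟩ (fun n r => step r n) n
  have hs0 : s 0 = ⟨p, hp⟩ := rfl
  have hss : ∀ n, s (n + 1) = step (s n) n := fun n => rfl
  have hmono1 : ∀ n, (s n).1 ⊆ (s (n + 1)).1 := by
    intro n
    rw [hss]
    exact Finset.subset_union_left
  have hmono : ∀ m n, m ≤ n → (s m).1 ⊆ (s n).1 := by
    intro m n h
    induction h with
    | refl => exact Finset.Subset.refl _
    | step _ ih => exact ih.trans (hmono1 _)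
  refine ⟨⋃ n, ((s n).1 : Set (ℕ × ℕ × I)), ?_, ?_, ?_, ?_⟩
  · exact countable_iUnion fun n => (s n).1.countable_toSet
  · intro x hx y hy
    rw [mem_iUnion] at hx hy
    obtain ⟨m, hm⟩ := hx
    obtain ⟨n, hn⟩ := hy
    exact (s (max m n)).2 x (hmono m _ (le_max_left _ _) hm) y (hmono n _ (le_max_right _ _) hn)
  · intro x hx
    rw [mem_iUnion]
    exact ⟨0, by rw [hs0]; exact hx⟩
  · intro j
    refine ⟨Classical.choose (hD j (s j).1 (s j).2), ?_⟩
    intro x hx
    rw [mem_iUnion]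
    refine ⟨j + 1, ?_⟩
    rw [hss]
    exact Finset.mem_coe.2 (Finset.mem_union_right _ (Finset.mem_coe.1 hx))

theorem luzin_exists (K : I → I → ℕ) (dec : ℕ → ℕ → ℕ)
    (hI : ∀ i : I, (Set.Iio i).Countable)
    (E' : I → (ℕ → Finset (ℕ × ℕ × I))) (Pp : I → Finset (ℕ × ℕ × I)) (η : I) :
    ∃ x : Set (ℕ × ℕ × I), x.Countable ∧ Clique K dec x ∧
      (Clique K dec (Pp η : Set (ℕ × ℕ × I)) → (Pp η : Set (ℕ × ℕ × I)) ⊆ x) ∧
      ∀ γ < η, (∀ r : Finset (ℕ × ℕ × I), Clique K dec (r : Set (ℕ × ℕ × I)) →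
        ∃ n, Clique K dec ((r : Set (ℕ × ℕ × I)) ∪ E' γ n)) →
        ∃ n, ((E' γ n : Finset (ℕ × ℕ × I)) : Set (ℕ × ℕ × I)) ⊆ x := by
  classical
  have : Countable (Set.Iio η) := (hI η).to_subtype
  obtain ⟨e, he⟩ := exists_surjective_nat (Option (Set.Iio η))
  let pre : I → Prop := fun γ => ∀ r : Finset (ℕ × ℕ × I), Clique K dec (r : Set (ℕ × ℕ × I)) →
        ∃ n, Clique K dec ((r : Set (ℕ × ℕ × I)) ∪ E' γ n)
  let D' : Option (Set.Iio η) → ℕ → Finset (ℕ × ℕ × I) := fun o =>
    match o with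
    | none => fun _ => ∅
    | some γ => if pre γ.1 then E' γ.1 else fun _ => ∅
  let p : Finset (ℕ × ℕ × I) := if Clique K dec (Pp η : Set (ℕ × ℕ × I)) then Pp η else ∅
  have hp : Clique K dec (p : Set (ℕ × ℕ × I)) := by
    by_cases h : Clique K dec (Pp η : Set (ℕ × ℕ × I))
    · simp only [p, if_pos h]; exact h
    · simp only [p, if_neg h]
      intro x hx
      simp at hx
  obtain ⟨x, hx1, hx2, hx3, hx4⟩ := rs_lemma K dec (fun j => D' (e j)) (by
    intro j r hr
    rcases h : e j with _ | γ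
    · refine ⟨0, ?_⟩
      simp only [D', Finset.coe_empty, union_empty]
      exact hr
    · by_cases hpre : pre γ.1
      · simp only [D', if_pos hpre]
        exact hpre r hr
      · refine ⟨0, ?_⟩
        simp only [D', if_neg hpre, Finset.coe_empty, union_empty]
        exact hr) p hp
  refine ⟨x, hx1, hx2, ?_, ?_⟩
  · intro h
    simp only [p, if_pos h] at hx3
    exact hx3
  · intro γ hγ hpre
    obtain ⟨j, hj⟩ := he (some ⟨γ, hγ⟩)
    obtain ⟨n, hn⟩ := hx4 j
    refine ⟨n, ?_⟩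
    rw [hj] at hn
    have : D' (some ⟨γ, hγ⟩) = E' γ := by
      show (if pre γ then E' γ else fun _ => ∅) = E' γ
      rw [if_pos hpre]
    rw [this] at hn
    exact hn

end Build


/-- A space with a `σ`-disjoint `π`-base is `D`-separable. -/
theorem dSeparable_of_colored {Y ι C : Type*} [TopologicalSpace Y] [Countable C]
    (V : ι → Set Y) (color : ι → C) (hopen : ∀ a, IsOpen (V a)) (hne : ∀ a, (V a).Nonempty)
    (hdisj : ∀ a b, color a = color b → a ≠ b → Disjoint (V a) (V b))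
    (hbase : ∀ W : Set Y, IsOpen W → W.Nonempty → ∃ a, V a ⊆ W) : DSeparable Y := by
  classical
  intro D hD
  obtain ⟨g, hg⟩ := exists_injective_nat C
  have hpt : ∀ a n, ∃ y, y ∈ D n ∧ y ∈ V a := by
    intro a n
    obtain ⟨y, hy1, hy2⟩ := (hD n).inter_open_nonempty (V a) (hopen a) (hne a)
    exact ⟨y, hy2, hy1⟩
  choose pt hpt1 hpt2 using hpt
  refine ⟨fun n => {y | ∃ a, g (color a) = n ∧ y = pt a n}, ?_, ?_⟩
  · intro n
    constructor
    · rintro y ⟨a, _, rfl⟩
      exact hpt1 a n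
    · rw [discreteTopology_iff_isOpen_singleton]
      rintro ⟨y, a, ha, rfl⟩
      rw [isOpen_induced_iff]
      refine ⟨V a, hopen a, ?_⟩
      ext ⟨z, b, hb, rfl⟩
      constructor
      · intro hz
        by_cases hab : a = b
        · subst hab; rfl
        · exact absurd (hpt2 b n)
            (Set.disjoint_left.1 (hdisj a b (hg (ha.trans hb.symm)) hab) hz)
      · intro hz
        have : pt b n = pt a n := congrArg Subtype.val hz
        show pt b n ∈ V a
        rw [this]
        exact hpt2 a n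
  · rw [dense_iff_inter_open]
    intro W hW hWne
    obtain ⟨a, ha⟩ := hbase W hW hWne
    refine ⟨pt a (g (color a)), ha (hpt2 a _), ?_⟩
    rw [mem_iUnion]
    exact ⟨g (color a), a, rfl, rfl⟩

section Top

variable {I : Type} [LinearOrder I]

theorem main_top [Uncountable I] (hI : ∀ i : I, (Set.Iic i).Countable)
    (K : I → I → ℕ) (dec : ℕ → ℕ → ℕ)
    (hdec : ∀ (m : ℕ → ℕ) (s : Finset ℕ), ∃ v, ∀ i ∈ s, dec v i = m i)
    (hPP : ∀ (d : Finset I) (k : I → ℕ), ∃ β, (∀ a ∈ d, a < β) ∧ ∀ a ∈ d, K β a = k a)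
    (hGP : ∀ (A : Set (Finset (ℕ × ℕ × I))), ¬ A.Countable →
      ∀ supp : Finset (ℕ × ℕ × I) → Finset I,
      (∀ a, {p | p ∈ A ∧ a ∈ supp p}.Countable) → ∀ c : ℕ,
      ∃ p ∈ A, ∃ q ∈ A, p ≠ q ∧ ∀ α ∈ supp p, ∀ β ∈ supp q, α < β ∧ K β α = c)
    (E' : I → (ℕ → Finset (ℕ × ℕ × I))) (hE' : Function.Surjective E')
    (Pp : I → Finset (ℕ × ℕ × I)) (hPp : Function.Surjective Pp) :
    ∃ (X : Type) (_ : TopologicalSpace X), T3Space X ∧ HereditarilyLindelofSpace X ∧
      ¬ TopologicalSpace.SeparableSpace X ∧ DSeparable (X × X) := by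
  classical
  have hI' : ∀ i : I, (Set.Iio i).Countable := fun i => (hI i).mono Set.Iio_subset_Iic_self
  choose xs hxs1 hxs2 hxs3 hxs4 using luzin_exists K dec hI' E' Pp
  let J := ℕ × ℕ × I
  let X := {f : J → Bool // ∃ η, ∀ j, f j = true ↔ j ∈ xs η}
  let N : Finset J → Set X := fun q => {f | ∀ j ∈ q, f.1 j = true}
  have hNopen : ∀ q, IsOpen (N q) := by
    intro q
    have : N q = ⋂ j ∈ q, {f : X | f.1 j = true} := by
      ext f; simp [N]
    rw [this]
    refine isOpen_biInter_finset ?_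
    intro j _
    have hc : Continuous (fun f : X => f.1 j) := (continuous_apply j).comp continuous_subtype_val
    exact (isOpen_discrete ({true} : Set Bool)).preimage hc
  have hX1 : ∀ f : X, Clique K dec {j | f.1 j = true} := by
    rintro ⟨f, η, hf⟩ x hx y hy
    exact hxs2 η x ((hf x).1 hx) y ((hf y).1 hy)
  have hX1' : ∀ f : X, {j | f.1 j = true}.Countable := by
    rintro ⟨f, η, hf⟩
    refine (hxs1 η).mono ?_
    intro x hx
    exact (hf x).1 hx
  have hX2 : ∀ q : Finset J, Clique K dec (q : Set J) → (N q).Nonempty := by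
    intro q hq
    obtain ⟨η, hη⟩ := hPp q
    refine ⟨⟨fun j => decide (j ∈ xs η), η, fun j => by simp⟩, ?_⟩
    intro j hj
    have : j ∈ xs η := by
      apply hxs3 η
      · rw [hη]; exact hq
      · rw [hη]; exact hj
    simpa using this
  have hX3 : ∀ D : ℕ → Finset J, (∀ r : Finset J, Clique K dec (r : Set J) →
        ∃ n, Clique K dec ((r : Set J) ∪ D n)) → {f : X | ¬ ∃ n, f ∈ N (D n)}.Countable := by
    intro D hD
    obtain ⟨γ, hγ⟩ := hE' D
    have hsub : {f : X | ¬ ∃ n, f ∈ N (D n)} ⊆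
        (fun η => (⟨fun j => decide (j ∈ xs η), η, fun j => by simp⟩ : X)) '' Set.Iic γ := by
      rintro ⟨f, η, hf⟩ hn
      refine ⟨η, ?_, ?_⟩
      · by_contra h
        apply hn
        obtain ⟨n, hn'⟩ := hxs4 η γ (not_le.1 h) (by rw [hγ]; exact hD)
        rw [hγ] at hn'
        refine ⟨n, ?_⟩
        intro j hj
        exact (hf j).2 (hn' hj)
      · apply Subtype.ext
        funext j
        show decide (j ∈ xs η) = f j
        by_cases hj : j ∈ xs η
        · have h1 : f j = true := (hf j).2 hj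
          rw [h1]
          exact decide_eq_true hj
        · have h1 : f j = false := by
            rcases h : f j with _ | _
            · rfl
            · exact absurd ((hf j).1 h) hj
          rw [h1]
          exact decide_eq_false hj
    exact ((hI γ).image _).mono hsub
  -- basic neighbourhoods
  have hbasic : ∀ (U : Set X), IsOpen U → ∀ f ∈ U, ∃ p F : Finset J, (∀ j ∈ p, f.1 j = true) ∧
      (∀ j ∈ F, f.1 j = false) ∧ ∀ g : X, (∀ j ∈ p, g.1 j = true) → (∀ j ∈ F, g.1 j = false) →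
        g ∈ U := by
    intro U hU f hf
    obtain ⟨V, hV, rfl⟩ := isOpen_induced_iff.1 hU
    obtain ⟨s, u, hu1, hu2⟩ := isOpen_pi_iff.1 hV f.1 hf
    refine ⟨s.filter (fun j => f.1 j = true), s.filter (fun j => f.1 j = false), ?_, ?_, ?_⟩
    · intro j hj; exact (Finset.mem_filter.1 hj).2
    · intro j hj; exact (Finset.mem_filter.1 hj).2
    · intro g hg1 hg2
      apply hu2
      intro j hj
      have : g.1 j = f.1 j := by
        rcases h : f.1 j with _ | _
        · exact hg2 j (Finset.mem_filter.2 ⟨hj, h⟩)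
        · exact hg1 j (Finset.mem_filter.2 ⟨hj, h⟩)
      rw [this]
      exact (hu1 j hj).2
  have hrefine : ∀ (U : Set X), IsOpen U → ∀ f ∈ U, ∀ w : Finset J, (∀ j ∈ w, f.1 j = true) →
      ∃ q : Finset J, w ⊆ q ∧ Clique K dec (q : Set J) ∧ N q ⊆ U := by
    intro U hU f hf w hw
    obtain ⟨p, F, hp, hF, hpF⟩ := hbasic U hU f hf
    obtain ⟨q, hq1, hq2, hq3⟩ := ss_lemma K dec hdec hPP (p ∪ w) F
      ((hX1 f).mono (by
        intro j hj
        rw [Finset.coe_union] at hj
        rcases hj with hj | hj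
        · exact hp j hj
        · exact hw j hj)) (by
        intro j hj hj2
        have h1 := hF j hj
        have h2 : f.1 j = true := by
          rcases Finset.mem_union.1 hj2 with h | h
          · exact hp j h
          · exact hw j h
        rw [h1] at h2
        exact Bool.noConfusion h2)
    refine ⟨q, Finset.subset_union_right.trans hq1, hq2, ?_⟩
    intro g hg
    apply hpF
    · intro j hj
      exact hg j (hq1 (Finset.mem_union_left _ hj))
    · intro j hj
      by_contra hne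
      have ht : g.1 j = true := by
        rcases h : g.1 j with _ | _
        · exact absurd h hne
        · rfl
      obtain ⟨j', hj', hadj⟩ := hq3 j hj
      exact hadj (hX1 g j ht j' (hg j' hj'))
  refine ⟨X, inferInstance, inferInstance, ?_, ?_, ?_⟩
  · -- hereditarily Lindelof
    apply HereditarilyLindelofSpace.of_forall_isOpen
    intro s _
    apply isLindelof_of_countable_subcover
    intro ι U hU hsU
    -- the family of good sets
    let good : Finset J → Prop := fun w => ∃ i, N w ⊆ U i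
    let W : Set (Finset J) := {w | Clique K dec (w : Set J) ∧ (good w ∨
      ∀ v : Finset J, Clique K dec (v : Set J) → good v → ¬ Clique K dec ((v : Set J) ∪ w))}
    let S : Set (Set (Finset J)) := {M | M ⊆ W ∧
      M.Pairwise (fun a b => ¬ Clique K dec ((a : Set J) ∪ b))}
    obtain ⟨M, hM⟩ := zorn_subset S (by
      intro c hc hchain
      refine ⟨⋃₀ c, ⟨?_, ?_⟩, fun s hs => Set.subset_sUnion_of_mem hs⟩
      · rintro w ⟨M, hM, hw⟩
        exact (hc hM).1 hw
      · exact (Set.pairwise_sUnion hchain.directedOn).2 (fun M hM => (hc hM).2))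
    have hMW : M ⊆ W := hM.prop.1
    have hMp := hM.prop.2
    have hMc : M.Countable := by
      by_contra hunc
      obtain ⟨p, hp, q, hq, hpq, hcl⟩ := ccc K dec hdec hGP M hunc (fun p hp => (hMW hp).1)
      exact hMp hp hq hpq hcl
    have hpredense : ∀ r : Finset J, Clique K dec (r : Set J) →
        ∃ w ∈ M, Clique K dec ((r : Set J) ∪ w) := by
      intro r hr
      obtain ⟨w', hw'W, hrw'⟩ : ∃ w' ∈ W, r ⊆ w' := by
        by_cases h : ∃ v : Finset J, Clique K dec (v : Set J) ∧ good v ∧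
            Clique K dec ((v : Set J) ∪ r)
        · obtain ⟨v, hv, ⟨i, hi⟩, hvr⟩ := h
          refine ⟨v ∪ r, ⟨by rw [Finset.coe_union]; exact hvr, Or.inl ⟨i, ?_⟩⟩,
            Finset.subset_union_right⟩
          intro g hg
          exact hi (fun j hj => hg j (Finset.mem_union_left _ hj))
        · refine ⟨r, ⟨hr, Or.inr ?_⟩, Finset.Subset.refl _⟩
          intro v hv hgv hcl
          exact h ⟨v, hv, hgv, hcl⟩
      have hex : ∃ w ∈ M, Clique K dec ((w' : Set J) ∪ w) := by
        by_contra hcon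
        push Not at hcon
        have hins : insert w' M ∈ S := by
          refine ⟨Set.insert_subset hw'W hMW, ?_⟩
          intro a ha b hb hab
          rcases ha with rfl | ha <;> rcases hb with rfl | hb
          · exact absurd rfl hab
          · exact hcon b hb
          · rw [Set.union_comm]; exact hcon a ha
          · exact hMp ha hb hab
        have hw'M : w' ∈ M := hM.le_of_ge hins (Set.subset_insert _ _) (Set.mem_insert _ _)
        apply hcon w' hw'M
        rw [Set.union_self]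
        exact hw'W.1
      obtain ⟨w, hw, hcl⟩ := hex
      refine ⟨w, hw, hcl.mono ?_⟩
      exact Set.union_subset_union_left _ (Finset.coe_subset.2 hrw')
    have hMne : M.Nonempty := by
      obtain ⟨w, hw, _⟩ := hpredense ∅ (by intro x hx; simp at hx)
      exact ⟨w, hw⟩
    obtain ⟨D, hD⟩ := hMc.exists_eq_range hMne
    have hEx := hX3 D (by
      intro r hr
      obtain ⟨w, hw, hcl⟩ := hpredense r hr
      rw [hD] at hw
      obtain ⟨n, rfl⟩ := hw
      exact ⟨n, hcl⟩)
    -- choose indices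
    have hch1 : ∀ w : Finset J, ∃ i : Option ι, good w → ∃ i', i = some i' ∧ N w ⊆ U i' := by
      intro w
      by_cases h : good w
      · obtain ⟨i, hi⟩ := h
        exact ⟨some i, fun _ => ⟨i, rfl, hi⟩⟩
      · exact ⟨none, fun h' => absurd h' h⟩
    choose i1 hi1 using hch1
    have hch2 : ∀ f : X, ∃ i : Option ι, f ∈ s → ∃ i', i = some i' ∧ f ∈ U i' := by
      intro f
      by_cases h : f ∈ s
      · obtain ⟨i, hi⟩ := mem_iUnion.1 (hsU h)
        exact ⟨some i, fun _ => ⟨i, rfl, hi⟩⟩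
      · exact ⟨none, fun h' => absurd h' h⟩
    choose i2 hi2 using hch2
    let t' : Set (Option ι) := i1 '' M ∪ i2 '' {f : X | ¬ ∃ n, f ∈ N (D n)}
    have ht' : t'.Countable := (hMc.image _).union (hEx.image _)
    refine ⟨some ⁻¹' t', ht'.preimage (Option.some_injective _), ?_⟩
    intro f hfs
    rw [mem_iUnion₂]
    by_cases hf : ∃ n, f ∈ N (D n)
    · obtain ⟨n, hn⟩ := hf
      have hDM : D n ∈ M := by rw [hD]; exact ⟨n, rfl⟩
      rcases (hMW hDM).2 with hg | hng
      · obtain ⟨i', hi', hNi⟩ := hi1 (D n) hg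
        exact ⟨i', Or.inl ⟨D n, hDM, hi'⟩, hNi hn⟩
      · exfalso
        obtain ⟨i, hi⟩ := mem_iUnion.1 (hsU hfs)
        obtain ⟨q, hq1, hq2, hq3⟩ := hrefine (U i) (hU i) f hi (D n) hn
        apply hng q hq2 ⟨i, hq3⟩
        rw [Set.union_eq_self_of_subset_right (Finset.coe_subset.2 hq1)]
        exact hq2
    · obtain ⟨i', hi', hfi⟩ := hi2 f hfs
      exact ⟨i', Or.inr ⟨f, hf, hi'⟩, hfi⟩
  · -- not separable
    intro hsep
    obtain ⟨C, hC, hCd⟩ := TopologicalSpace.exists_countable_dense X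
    have hcount : (⋃ f ∈ C, {j : J | f.1 j = true}).Countable :=
      hC.biUnion (fun f _ => hX1' f)
    have hJ : ∃ j : J, j ∉ (⋃ f ∈ C, {j : J | f.1 j = true}) := by
      by_contra hcon
      push Not at hcon
      have huniv : (Set.univ : Set J).Countable := hcount.mono (fun j _ => hcon j)
      have : Countable J := Set.countable_univ_iff.1 huniv
      have hinj : Function.Injective (fun a : I => ((0, 0, a) : J)) := by
        intro a b hab
        have := congrArg (fun x : J => x.2.2) hab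
        exact this
      have : Countable I := hinj.countable
      exact not_countable this
    obtain ⟨j, hj⟩ := hJ
    have hjc : Clique K dec (({j} : Finset J) : Set J) := by
      intro x hx y hy
      have hx' : x = j := by simpa using hx
      have hy' : y = j := by simpa using hy
      rw [hx', hy']
      exact Adj.refl K dec j
    obtain ⟨f, hf1, hf2⟩ := hCd.inter_open_nonempty (N {j}) (hNopen _) (hX2 _ hjc)
    apply hj
    rw [mem_iUnion₂]
    exact ⟨f, hf2, hf1 j (Finset.mem_singleton_self j)⟩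
  · -- D-separable square
    have hinj : ∀ β : I, ∃ g : Set.Iic β → ℕ, Function.Injective g := by
      intro β
      have : Countable (Set.Iic β) := (hI β).to_subtype
      exact exists_injective_nat _
    choose g hg using hinj
    let e : I → I → ℕ := fun β a => if h : a ≤ β then g β ⟨a, h⟩ else 0
    have he : ∀ β a b, a ≤ β → b ≤ β → e β a = e β b → a = b := by
      intro β a b ha hb hab
      simp only [e, dif_pos ha, dif_pos hb] at hab
      exact congrArg Subtype.val (hg β hab)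
    let tr : I → Finset J → Finset (ℕ × ℕ × ℕ) := fun β p =>
      p.image (fun x => (x.1, x.2.1, e β x.2.2))
    have htr : ∀ β (p q : Finset J), (∀ x ∈ p, x.2.2 ≤ β) → (∀ x ∈ q, x.2.2 ≤ β) →
        tr β p = tr β q → p = q := by
      have hsub : ∀ β (p q : Finset J), (∀ x ∈ p, x.2.2 ≤ β) → (∀ x ∈ q, x.2.2 ≤ β) →
        tr β p = tr β q → p ⊆ q := by
        intro β p q hp hq h x hx
        have hx' : (x.1, x.2.1, e β x.2.2) ∈ tr β q := by
          rw [← h]; exact Finset.mem_image.2 ⟨x, hx, rfl⟩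
        obtain ⟨y, hy, hyx⟩ := Finset.mem_image.1 hx'
        simp only [Prod.mk.injEq] at hyx
        have h3 := he β _ _ (hq y hy) (hp x hx) hyx.2.2
        have : y = x := by
          ext
          · exact hyx.1
          · exact hyx.2.1
          · exact h3
        rwa [← this]
      intro β p q hp hq h
      exact Finset.Subset.antisymm (hsub β p q hp hq h) (hsub β q p hq hp h.symm)
    let T := {t : Finset J × Finset J × ℕ × I //
      Clique K dec (t.1 : Set J) ∧ Clique K dec (t.2.1 : Set J) ∧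
      (t.2.2.1, 0, t.2.2.2) ∈ t.1 ∧ (t.2.2.1, 1, t.2.2.2) ∈ t.2.1 ∧
      (∀ x ∈ t.1, x.2.2 ≤ t.2.2.2) ∧ (∀ x ∈ t.2.1, x.2.2 ≤ t.2.2.2)}
    refine dSeparable_of_colored (ι := T) (C := ℕ × Finset (ℕ × ℕ × ℕ) × Finset (ℕ × ℕ × ℕ))
      (fun t => N t.1.1 ×ˢ N t.1.2.1)
      (fun t => (t.1.2.2.1, tr t.1.2.2.2 t.1.1, tr t.1.2.2.2 t.1.2.1)) ?_ ?_ ?_ ?_
    · intro t
      exact (hNopen _).prod (hNopen _)
    · intro t
      exact (hX2 _ t.2.1).prod (hX2 _ t.2.2.1)
    · rintro ⟨⟨p, q, i, β⟩, hp, hq, hip, hiq, hpβ, hqβ⟩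
        ⟨⟨p', q', i', β'⟩, hp', hq', hip', hiq', hpβ', hqβ'⟩ hcol hne
      simp only [Prod.mk.injEq] at hcol
      obtain ⟨hi, htp, htq⟩ := hcol
      dsimp only at hip hiq hpβ hqβ hip' hiq' hpβ' hqβ' hp hq hp' hq'
      subst hi
      by_cases hβ : β = β'
      · subst hβ
        exfalso
        apply hne
        have h1 := htr β p p' hpβ hpβ' htp
        have h2 := htr β q q' hqβ hqβ' htq
        subst h1
        subst h2
        rfl
      · rw [Set.disjoint_left]
        rintro ⟨x, y⟩ ⟨hx, hy⟩ ⟨hx', hy'⟩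
        have ha := hX1 x (i, 0, β) (hx _ hip) (i, 0, β') (hx' _ hip') rfl
        have hb := hX1 y (i, 1, β) (hy _ hiq) (i, 1, β') (hy' _ hiq') rfl
        have ha' : col K dec i β β' = 0 := ha.2 hβ
        have hb' : col K dec i β β' = 1 := hb.2 hβ
        omega
    · intro O hO hOne
      obtain ⟨⟨x, y⟩, hxy⟩ := hOne
      obtain ⟨U1, U2, hU1, hU2, hx, hy, hsub⟩ := isOpen_prod_iff.1 hO x y hxy
      obtain ⟨q1, _, hq1, hNq1⟩ := hrefine U1 hU1 x hx ∅ (by simp)
      obtain ⟨q2, _, hq2, hNq2⟩ := hrefine U2 hU2 y hy ∅ (by simp)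
      -- a large ordinal
      obtain ⟨β, hβ, _⟩ := hPP ((q1 ∪ q2).image (fun x => x.2.2)) (fun _ => 0)
      have hlt : ∀ x ∈ q1 ∪ q2, x.2.2 < β := fun x hx => hβ _ (Finset.mem_image.2 ⟨x, hx, rfl⟩)
      -- a new index
      let i : ℕ := (q1 ∪ q2).sup (fun x => x.1) + 1
      have hi : ∀ x ∈ q1 ∪ q2, x.1 ≠ i := by
        intro x hx
        have : x.1 ≤ (q1 ∪ q2).sup (fun x => x.1) :=
          Finset.le_sup (f := fun x : ℕ × ℕ × I => x.1) hx
        simp only [i]
        omega
      have hins : ∀ (q : Finset J) (m : ℕ), q ⊆ q1 ∪ q2 → Clique K dec (q : Set J) →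
          Clique K dec ((insert (i, m, β) q : Finset J) : Set J) := by
        intro q m hq hqc
        have hnew : ∀ x ∈ q, Adj K dec x (i, m, β) := by
          intro x hx hxi
          exact absurd hxi (hi x (hq hx))
        intro x hx y hy
        rw [Finset.coe_insert] at hx hy
        rcases hx with rfl | hx <;> rcases hy with rfl | hy
        · exact Adj.refl K dec _
        · exact (hnew y hy).symm
        · exact hnew x hx
        · exact hqc x hx y hy
      refine ⟨⟨(insert (i, 0, β) q1, insert (i, 1, β) q2, i, β),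
        hins q1 0 Finset.subset_union_left hq1, hins q2 1 Finset.subset_union_right hq2,
        Finset.mem_insert_self _ _, Finset.mem_insert_self _ _, ?_, ?_⟩, ?_⟩
      · intro x hx
        rcases Finset.mem_insert.1 hx with rfl | hx
        · exact le_rfl
        · exact (hlt x (Finset.mem_union_left _ hx)).le
      · intro x hx
        rcases Finset.mem_insert.1 hx with rfl | hx
        · exact le_rfl
        · exact (hlt x (Finset.mem_union_right _ hx)).le
      · rintro ⟨a, b⟩ ⟨ha, hb⟩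
        apply hsub
        refine ⟨hNq1 ?_, hNq2 ?_⟩
        · intro j hj
          exact ha j (Finset.mem_insert_of_mem hj)
        · intro j hj
          exact hb j (Finset.mem_insert_of_mem hj)

end Top


theorem exists_dec : ∃ dec : ℕ → ℕ → ℕ,
    ∀ (m : ℕ → ℕ) (s : Finset ℕ), ∃ v, ∀ i ∈ s, dec v i = m i := by
  classical
  obtain ⟨e, he⟩ := exists_surjective_nat (ℕ →₀ ℕ)
  refine ⟨fun v i => e v i, ?_⟩
  intro m s
  obtain ⟨v, hv⟩ := he (Finsupp.onFinset s (fun i => if i ∈ s then m i else 0) (by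
    intro a ha
    by_contra h
    simp [h] at ha))
  refine ⟨v, fun i hi => ?_⟩
  show (e v) i = m i
  rw [hv]
  simp [hi]

theorem main_CH (hCH : Cardinal.continuum.{0} = Cardinal.aleph 1) :
    ∃ (X : Type) (_ : TopologicalSpace X), T3Space X ∧ HereditarilyLindelofSpace X ∧
      ¬ TopologicalSpace.SeparableSpace X ∧ DSeparable (X × X) := by
  classical
  let I : Type := (Cardinal.aleph 1).ord.ToType
  have hcard : #I = Cardinal.aleph 1 := Cardinal.mk_ord_toType _
  have hlt0 : ℵ₀ < #I := by rw [hcard]; exact Cardinal.aleph0_lt_aleph_one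
  have hunc : Uncountable I := Cardinal.aleph0_lt_mk_iff.1 hlt0
  have hinf : Infinite I := inferInstance
  have hIio : ∀ i : I, (Set.Iio i).Countable := by
    intro i
    have h1 : #(Set.Iio i) < #I := Cardinal.mk_Iio_lt i (by
      rw [hcard]
      exact (Ordinal.type_toType _).symm)
    rw [hcard] at h1
    have h2 : #(Set.Iio i) ≤ ℵ₀ := by
      apply Order.lt_succ_iff.1
      rw [Cardinal.succ_aleph0]
      exact h1
    exact Cardinal.le_aleph0_iff_set_countable.1 h2
  have hIic : ∀ i : I, (Set.Iic i).Countable := by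
    intro i
    have : Set.Iic i ⊆ insert i (Set.Iio i) := by
      intro x hx
      rcases lt_or_eq_of_le (Set.mem_Iic.1 hx) with h | h
      · exact Or.inr h
      · exact Or.inl h
    exact ((hIio i).insert i).mono this
  have hIcont : #I = Cardinal.continuum := by rw [hcard, hCH]
  have hJcard : #(ℕ × ℕ × I) = #I := by
    rw [Cardinal.mk_prod, Cardinal.mk_prod]
    simp only [Cardinal.lift_id, Cardinal.mk_nat]
    rw [Cardinal.aleph0_mul_eq hlt0.le, Cardinal.aleph0_mul_eq hlt0.le]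
  have hJinf : Infinite (ℕ × ℕ × I) := inferInstance
  have hseq : ∀ (A : Type), Infinite A → #A = #I → #(ℕ → Finset A) = #I := by
    intro A hA hAc
    rw [← Cardinal.power_def, Cardinal.mk_finset_of_infinite, hAc, Cardinal.mk_nat, hIcont,
      Cardinal.continuum_power_aleph0]
  obtain ⟨eE⟩ := Cardinal.eq.1 (hseq I hinf rfl)
  obtain ⟨eE'⟩ := Cardinal.eq.1 (hseq (ℕ × ℕ × I) hJinf hJcard)
  have hP : #(Finset (ℕ × ℕ × I)) = #I := by
    rw [Cardinal.mk_finset_of_infinite, hJcard]
  obtain ⟨eP⟩ := Cardinal.eq.1 hP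
  have hR : #(Finset (I × ℕ) × I) = #I := by
    have h1 : #(I × ℕ) = #I := by
      rw [Cardinal.mk_prod]
      simp only [Cardinal.lift_id, Cardinal.mk_nat]
      exact Cardinal.mul_aleph0_eq hlt0.le
    have h2 : Infinite (I × ℕ) := inferInstance
    rw [Cardinal.mk_prod, Cardinal.lift_id, Cardinal.lift_id, Cardinal.mk_finset_of_infinite, h1,
      Cardinal.mul_eq_self hlt0.le]
  obtain ⟨eR⟩ := Cardinal.eq.1 hR
  obtain ⟨dec, hdec⟩ := exists_dec
  obtain ⟨K, hK⟩ := galvin_exists hIio (fun i => eE.symm i) (fun i => (eR.symm i).1)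
  refine main_top hIic K dec hdec ?_ ?_ (fun i => eE'.symm i) eE'.symm.surjective
    (fun i => eP.symm i) eP.symm.surjective
  · -- pattern property
    intro d k
    let Q : Finset (I × ℕ) := d.image (fun a => (a, k a))
    have hcount : (⋃ a ∈ d, Set.Iic a).Countable :=
      (d.countable_toSet).biUnion (fun a _ => hIic a)
    have hinj : Function.Injective (fun i : I => eR (Q, i)) := by
      intro i j hij
      have := eR.injective hij
      exact congrArg Prod.snd this
    have hex : ∃ i : I, eR (Q, i) ∉ (⋃ a ∈ d, Set.Iic a) := by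
      by_contra hcon
      push Not at hcon
      have : (Set.univ : Set I).Countable :=
        (hcount.preimage hinj).mono (fun i _ => hcon i)
      exact not_countable (Set.countable_univ_iff.1 this)
    obtain ⟨i, hi⟩ := hex
    refine ⟨eR (Q, i), ?_, ?_⟩
    · intro a ha
      by_contra hcon
      apply hi
      rw [mem_iUnion₂]
      exact ⟨a, ha, not_lt.1 hcon⟩
    · intro a ha
      have h1 := (hK (eR (Q, i))).1 a (k a)
      have hQ : (eR.symm (eR (Q, i))).1 = Q := by rw [Equiv.symm_apply_apply]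
      beta_reduce at h1
      rw [hQ] at h1
      apply h1
      · exact Finset.mem_image.2 ⟨a, ha, rfl⟩
      · intro n' hn'
        obtain ⟨b, _, hb⟩ := Finset.mem_image.1 hn'
        have e1 : b = a := congrArg Prod.fst hb
        have e2 : k b = n' := congrArg Prod.snd hb
        rw [← e2, e1]
  · intro A hA supp hpc c
    exact galvin_prop hIic (fun i => eE.symm i) eE.symm.surjective _ K hK A hA supp hpc c


end Pool.Agent.Helper94
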