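import Pool.Agent.Helper42.Jef.Defs3
import Pool.Agent.Helper42.Jef.Young

/-! # The mollifier `ro`, approximate identity in `L²` -/

open MeasureTheory Set Filter Topology
open scoped ENNReal NNReal ContDiff

namespace Pool.Agent.Helper94.Jef
open Pool.Agent.Helper42.Jef

variable {n : ℕ}

theorem rho_nonneg (x : Eu n) : 0 ≤ rho n x := ContDiffBump.nonneg_normed _ _

theorem rho_integral : ∫ x, rho n x = 1 := ContDiffBump.integral_normed _

theorem rho_neg (x : Eu n) : rho n (-x) = rho n x := ContDiffBump.normed_neg _ _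

theorem rho_cont : Continuous (rho n) := ContDiffBump.continuous_normed _

theorem rho_zero {x : Eu n} (hx : 1 ≤ ‖x‖) : rho n x = 0 := by
  by_contra h
  have h1 : x ∈ Function.support (rho n) := h
  unfold rho at h1
  rw [ContDiffBump.support_normed_eq, Metric.mem_ball, dist_zero_right] at h1
  exact absurd h1 (not_lt.2 hx)

variable {δ : ℝ}

theorem ro_nonneg (hδ : 0 < δ) (x : Eu n) : 0 ≤ ro δ x := by
  unfold ro
  exact mul_nonneg (by positivity) (rho_nonneg _)

theorem ro_integral (hδ : 0 < δ) : ∫ x : Eu n, ro δ x = 1 := by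
  unfold ro
  rw [integral_const_mul, Measure.integral_comp_inv_smul (μ := volume) (rho n) δ, rho_integral,
    finrank_euclideanSpace_fin, abs_of_pos (by positivity), smul_eq_mul, mul_one,
    inv_mul_cancel₀ (by positivity)]

theorem ro_cont (δ : ℝ) : Continuous (ro δ : Eu n → ℝ) := by
  unfold ro
  exact continuous_const.mul (rho_cont.comp (continuous_const_smul _))

theorem ro_neg (x : Eu n) : ro δ (-x) = ro δ x := by
  unfold ro
  rw [smul_neg, rho_neg]

theorem ro_zero (hδ : 0 < δ) {x : Eu n} (hx : δ ≤ ‖x‖) : ro δ x = 0 := by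
  unfold ro
  rw [rho_zero, mul_zero]
  rw [norm_smul, norm_inv, Real.norm_of_nonneg hδ.le]
  rwa [← div_eq_inv_mul, one_le_div hδ]

theorem ro_integrable (hδ : 0 < δ) : Integrable (ro δ : Eu n → ℝ) := by
  by_contra h
  have := ro_integral (n := n) hδ
  rw [integral_undef h] at this
  exact one_ne_zero this.symm

theorem ro_lint (hδ : 0 < δ) : ∫⁻ x : Eu n, ‖ro δ x‖ₑ = 1 := by
  have h1 : ENNReal.ofReal (∫ x : Eu n, ro δ x) = ∫⁻ x : Eu n, ENNReal.ofReal (ro δ x) :=
    ofReal_integral_eq_lintegral_ofReal (ro_integrable hδ)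
      (Eventually.of_forall fun x => ro_nonneg hδ x)
  rw [ro_integral hδ, ENNReal.ofReal_one] at h1
  rw [h1]
  refine lintegral_congr fun x => ?_
  rw [Real.enorm_eq_ofReal (ro_nonneg hδ x)]

variable {E : Type*} [NormedAddCommGroup E] [NormedSpace ℝ E]

theorem ro_shift_int (hδ : 0 < δ) (x : Eu n) : ∫ y : Eu n, ro δ (x - y) = 1 := by
  rw [integral_sub_left_eq_self (fun y => ro δ y) volume x, ro_integral hδ]

/-- bound for continuous compactly supported functions -/
theorem mo_sub_le [CompleteSpace E] (hδ : 0 < δ) {g : ST n → E} (hg : Continuous g) {η : ℝ}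
    (hη : ∀ z z' : ST n, dist z z' < δ → dist (g z) (g z') ≤ η) (z : ST n) :
    ‖mo δ g z - g z‖ ≤ η := by
  have hint : Integrable (fun y : Eu n => ro δ (z.2 - y)) :=
    (ro_integrable hδ).comp_sub_left z.2
  have hgi : Integrable (fun y : Eu n => ro δ (z.2 - y) • (g (z.1, y) - g z)) := by
    have hc : Continuous fun y : Eu n => ro δ (z.2 - y) • (g (z.1, y) - g z) :=
      ((ro_cont δ).comp (continuous_const.sub continuous_id)).smul
        ((hg.comp (Continuous.prodMk_right z.1)).sub continuous_const)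
    refine hc.integrable_of_hasCompactSupport ?_
    refine HasCompactSupport.of_support_subset_isCompact (isCompact_closedBall z.2 δ) ?_
    intro y hy
    rw [Metric.mem_closedBall, dist_comm, dist_eq_norm]
    by_contra hc
    apply hy
    simp only
    rw [ro_zero hδ (le_of_lt (not_le.1 hc)), zero_smul]
  have h1 : mo δ g z - g z = ∫ y : Eu n, ro δ (z.2 - y) • (g (z.1, y) - g z) := by
    have h2 : g z = ∫ y : Eu n, ro δ (z.2 - y) • g z := by
      rw [integral_smul_const, ro_shift_int hδ, one_smul]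
    have h3 : Integrable (fun y : Eu n => ro δ (z.2 - y) • g z) := hint.smul_const _
    have h4 : mo δ g z = ∫ y : Eu n, (ro δ (z.2 - y) • (g (z.1, y) - g z) +
        ro δ (z.2 - y) • g z) := by
      unfold mo
      refine integral_congr_ae (Eventually.of_forall fun y => ?_)
      simp only
      rw [← smul_add, sub_add_cancel]
    rw [h4, integral_add hgi h3, ← h2, add_sub_cancel_right]
  rw [h1]
  have h5 : ∀ y : Eu n, ‖ro δ (z.2 - y) • (g (z.1, y) - g z)‖ ≤ η * ro δ (z.2 - y) := by
    intro y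
    rw [norm_smul, Real.norm_of_nonneg (ro_nonneg hδ _), mul_comm]
    by_cases hy : δ ≤ ‖z.2 - y‖
    · rw [ro_zero hδ hy]; simp
    · refine mul_le_mul_of_nonneg_right ?_ (ro_nonneg hδ _)
      rw [← dist_eq_norm]
      apply hη
      rw [dist_comm, Prod.dist_eq]
      simp only [dist_self]
      rw [max_eq_right dist_nonneg, dist_eq_norm]
      exact not_le.1 hy
  calc ‖∫ y : Eu n, ro δ (z.2 - y) • (g (z.1, y) - g z)‖ 
      ≤ ∫ y : Eu n, η * ro δ (z.2 - y) :=
        norm_integral_le_of_norm_le (hint.const_mul η) (Eventually.of_forall h5)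
    _ = η := by rw [integral_const_mul, ro_shift_int hδ, mul_one]

theorem mo_sub_zero (hδ : 0 < δ) (hδ1 : δ ≤ 1) {g : ST n → E} {R : ℝ}
    (hR : ∀ z, z ∉ Metric.closedBall (0 : ST n) R → g z = 0) {z : ST n}
    (hz : z ∉ Metric.closedBall (0 : ST n) (R + 1)) : mo δ g z - g z = 0 := by
  rw [Metric.mem_closedBall, dist_zero_right, not_le] at hz
  have h1 : g z = 0 := hR z (by rw [Metric.mem_closedBall, dist_zero_right, not_le]; linarith)
  rw [h1, sub_zero]
  unfold mo
  rw [← integral_zero (Eu n) E]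
  refine integral_congr_ae (Eventually.of_forall fun y => ?_)
  simp only
  by_cases hy : δ ≤ ‖z.2 - y‖
  · rw [ro_zero hδ hy, zero_smul]
  · rw [hR, smul_zero]
    rw [Metric.mem_closedBall, dist_zero_right, not_le]
    rw [Prod.norm_def] at hz ⊢
    rcases lt_max_iff.1 hz with h | h
    · exact lt_max_of_lt_left (by simp only; linarith)
    · refine lt_max_of_lt_right ?_
      simp only
      have h2 : ‖z.2‖ ≤ ‖z.2 - y‖ + ‖y‖ := by
        have := norm_add_le (z.2 - y) y
        rwa [sub_add_cancel] at this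
      have h3 := not_le.1 hy
      linarith

/-- approximate identity in `L²` -/
theorem mo_tendsto [CompleteSpace E] {u : ST n → E} (hu : MemLp u 2 volume) {δ : ℕ → ℝ}
    (hδ : ∀ m, 0 < δ m) (hδ0 : Tendsto δ atTop (𝓝 0)) :
    Tendsto (fun m => eLpNorm (fun z => mo (δ m) u z - u z) 2 volume) atTop (𝓝 0) := by
  rw [ENNReal.tendsto_atTop_zero]
  intro ε hε
  by_cases hεt : ε = ⊤
  · exact ⟨0, fun m _ => by rw [hεt]; exact le_top⟩
  have hε3 : (ε / 3) ≠ 0 := by
    rw [ENNReal.div_ne_zero]; exact ⟨hε.ne', by simp⟩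
  obtain ⟨g, hgs, hg1, hgc, hgm⟩ := hu.exists_hasCompactSupport_eLpNorm_sub_le (by simp) hε3
  -- support in a ball
  obtain ⟨R, hR⟩ := hgs.isCompact.isBounded.subset_closedBall (0 : ST n)
  have hR' : ∀ z, z ∉ Metric.closedBall (0 : ST n) R → g z = 0 := fun z hz =>
    image_eq_zero_of_notMem_tsupport fun h => hz (hR h)
  set V := volume (Metric.closedBall (0 : ST n) (R + 1)) with hV
  have hVt : V ≠ ⊤ := (measure_closedBall_lt_top).ne
  -- choose η
  obtain ⟨η, hη0, hη⟩ : ∃ η : ℝ, 0 < η ∧ ENNReal.ofReal η * V ^ (1 / 2 : ℝ) ≤ ε / 3 := by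
    have hW : V ^ (1 / 2 : ℝ) ≠ ⊤ := ENNReal.rpow_ne_top_of_nonneg (by norm_num) hVt
    have hε3t : ε / 3 ≠ ⊤ := ENNReal.div_ne_top hεt (by simp)
    set w := (V ^ (1 / 2 : ℝ)).toReal with hw
    have hw0 : 0 ≤ w := ENNReal.toReal_nonneg
    set e := (ε / 3).toReal with he
    have he0 : 0 < e := ENNReal.toReal_pos hε3 hε3t
    refine ⟨e / (w + 1), by positivity, ?_⟩
    rw [← ENNReal.ofReal_toReal hW, ← ENNReal.ofReal_toReal hε3t, ← hw, ← he,
      ← ENNReal.ofReal_mul (by positivity)]
    apply ENNReal.ofReal_le_ofReal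
    rw [div_mul_eq_mul_div, div_le_iff₀ (by positivity)]
    nlinarith
  have huc : UniformContinuous g := hgs.uniformContinuous_of_continuous hgc
  obtain ⟨d, hd0, hd⟩ := Metric.uniformContinuous_iff.1 huc η hη0
  have hev : ∀ᶠ m in atTop, δ m < min d 1 := hδ0.eventually_lt_const (by positivity)
  obtain ⟨N, hN⟩ := eventually_atTop.1 hev
  refine ⟨N, fun m hm => ?_⟩
  have hdm := hN m hm
  have hd1 : δ m < d := hdm.trans_le (min_le_left _ _)
  have hd2 : δ m ≤ 1 := (hdm.trans_le (min_le_right _ _)).le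
  have hro := ro_integrable (n := n) (hδ m)
  -- decomposition
  have hdec : (fun z => mo (δ m) u z - u z) =ᵐ[volume] fun z =>
      (mo (δ m) (fun z => u z - g z) z - (u z - g z)) + (mo (δ m) g z - g z) := by
    have h1 := spc_sub hro hu hgm
    filter_upwards [h1] with z hz
    rw [mo_eq_spc, mo_eq_spc, mo_eq_spc, hz]
    abel
  rw [eLpNorm_congr_ae hdec]
  have hug : MemLp (fun z => u z - g z) 2 volume := hu.sub hgm
  have hm1 : AEStronglyMeasurable (fun z => mo (δ m) (fun z => u z - g z) z) volume := by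
    rw [mo_eq_spc]; exact (spc_memLp hro hug).1
  have hm2 : AEStronglyMeasurable (fun z => mo (δ m) g z) volume := by
    rw [mo_eq_spc]; exact (spc_memLp hro hgm).1
  have hA : eLpNorm (fun z => mo (δ m) (fun z => u z - g z) z) 2 volume ≤ ε / 3 := by
    rw [mo_eq_spc]
    refine (spc_eLpNorm_le hro.1 hug.1).trans ?_
    rw [ro_lint (hδ m), one_mul]
    exact hg1
  have hB : eLpNorm (fun z => mo (δ m) g z - g z) 2 volume ≤ ε / 3 := by
    have h1 : ∀ z, ‖mo (δ m) g z - g z‖ ≤ ‖(Metric.closedBall (0 : ST n) (R + 1)).indicator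
        (fun _ => η) z‖ := by
      intro z
      by_cases hz : z ∈ Metric.closedBall (0 : ST n) (R + 1)
      · rw [indicator_of_mem hz, Real.norm_of_nonneg hη0.le]
        exact mo_sub_le (hδ m) hgc (fun z z' hzz => (hd (hzz.trans hd1)).le) z
      · rw [mo_sub_zero (hδ m) hd2 hR' hz, norm_zero]
        exact norm_nonneg _
    refine (eLpNorm_mono h1).trans ?_
    rw [eLpNorm_indicator_const measurableSet_closedBall (by simp) (by simp)]
    rw [Real.enorm_eq_ofReal hη0.le]
    simpa using hη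
  calc eLpNorm (fun z => (mo (δ m) (fun z => u z - g z) z - (u z - g z)) +
        (mo (δ m) g z - g z)) 2 volume
      ≤ eLpNorm (fun z => mo (δ m) (fun z => u z - g z) z - (u z - g z)) 2 volume +
        eLpNorm (fun z => mo (δ m) g z - g z) 2 volume :=
        eLpNorm_add_le (hm1.sub hug.1) (hm2.sub hgm.1) (by norm_num)
    _ ≤ (eLpNorm (fun z => mo (δ m) (fun z => u z - g z) z) 2 volume +
        eLpNorm (fun z => u z - g z) 2 volume) +
        eLpNorm (fun z => mo (δ m) g z - g z) 2 volume :=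
        add_le_add (eLpNorm_sub_le hm1 hug.1 (by norm_num)) le_rfl
    _ ≤ (ε / 3 + ε / 3) + ε / 3 := add_le_add (add_le_add hA hg1) hB
    _ = ε := ENNReal.add_thirds ε

end Pool.Agent.Helper94.Jef
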